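import Pool.Agent.T9h38.CM.Tor
import Pool.Agent.N208.AM.MainA

set_option autoImplicit false
set_option linter.unusedSectionVars false

/-!
# Abelian varieties of CM type
-/

open Module Matrix

noncomputable section

namespace Pool.Agent.T9h38.CM

open Pool.Agent.Y102 Pool.Agent.W516.DR Pool.Agent.H204R3.GP Pool.Agent.W516.KC
  Pool.Agent.H204R3.SP Pool.Agent.TH119.MX Pool.Agent.R917

variable {g : ℕ} {A : AbVar g} {E : Type} [CommRing E] [Algebra ℚ E]
  {ι : E →+* Module.End ℚ A.H1} {X : Type} [Fintype X] [DecidableEq X] {χ : X → (E →+* ℂ)}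
  {c : X → X}

/-- An abelian variety with complex multiplication by a commutative algebra `E`, with the
homomorphisms `χ x` to the complex numbers. -/
structure Dat (ι : E →+* Module.End ℚ A.H1) (χ : X → (E →+* ℂ)) (c : X → X) : Prop where
  inj : Function.Injective χ
  card : Fintype.card X = 2 * g
  endo : ∀ P, IsDeRhamBettiEnd QBar A.dR P ↔ ∃ a, ι a = P
  gen : ∃ v0 : A.H1, Function.Bijective fun a => ι a v0
  conj : ∀ x, χ (c x) = (starRingEnd ℂ).comp (χ x)
  star : ∃ s : E →+* E, ∀ x, (starRingEnd ℂ).comp (χ x) = (χ x).comp s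

theorem chi_smul (χ : E →+* ℂ) (q : ℚ) (a : E) : χ (q • a) = (q : ℂ) * χ a := by
  rw [Algebra.smul_def, map_mul]
  congr 1
  have h : χ.comp (algebraMap ℚ E) = Rat.castHom ℂ := Subsingleton.elim _ _
  exact congrArg (fun f : ℚ →+* ℂ => f q) h

theorem iota_smul (ι : E →+* Module.End ℚ A.H1) (q : ℚ) (a : E) : ι (q • a) = q • ι a := by
  rw [Algebra.smul_def, map_mul]
  have h : ι.comp (algebraMap ℚ E) = algebraMap ℚ (Module.End ℚ A.H1) := Subsingleton.elim _ _
  have h' := congrArg (fun f : ℚ →+* Module.End ℚ A.H1 => f q) h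
  simp only [RingHom.comp_apply] at h'
  rw [h', ← Algebra.smul_def]

/-- The chosen generator. -/
def v0 (h : Dat ι χ c) : A.H1 := h.gen.choose

theorem bij (h : Dat ι χ c) : Function.Bijective fun a => ι a (v0 h) := h.gen.choose_spec

/-- The basis of `E` given by the basis of the lattice. -/
def ee (h : Dat ι χ c) (j : Fin (2 * g)) : E := ((bij h).2 (Pi.single j 1)).choose

theorem ee_spec (h : Dat ι χ c) (j : Fin (2 * g)) : ι (ee h j) (v0 h) = Pi.single j 1 :=
  ((bij h).2 (Pi.single j 1)).choose_spec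

theorem eq_sum (h : Dat ι χ c) (a b : E) :
    a * b = ∑ i, (ι a (ι b (v0 h)) i) • ee h i := by
  apply (bij h).1
  change ι (a * b) (v0 h) = ι (∑ i, (ι a (ι b (v0 h)) i) • ee h i) (v0 h)
  rw [map_sum, LinearMap.sum_apply]
  simp only [iota_smul, LinearMap.smul_apply, ee_spec]
  rw [map_mul, Module.End.mul_apply]
  conv_lhs => rw [← (Pi.basisFun ℚ (Fin (2 * g))).sum_repr (ι a (ι b (v0 h)))]
  refine Finset.sum_congr rfl fun i _ => ?_
  rw [Pi.basisFun_repr, Pi.basisFun_apply]

/-- The matrix of the values of the characters. -/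
def RR (h : Dat ι χ c) : Matrix (Fin (2 * g)) X ℂ := Matrix.of fun j x => χ x (ee h j)

theorem RR_apply (h : Dat ι χ c) (j : Fin (2 * g)) (x : X) : RR h j x = χ x (ee h j) := rfl

theorem exists_RR' (h : Dat ι χ c) : ∃ R' : Matrix X (Fin (2 * g)) ℂ, RR h * R' = 1 ∧ R' * RR h = 1 := by
  classical
  let eq : X ≃ Fin (2 * g) := Fintype.equivFinOfCardEq h.card
  let Q : Matrix (Fin (2 * g)) (Fin (2 * g)) ℂ := (RR h).submatrix id eq.symm
  have hdet : Q.det ≠ 0 := by
    intro h0
    obtain ⟨v, hv, hv0⟩ := Matrix.exists_mulVec_eq_zero_iff.2 h0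
    apply hv
    have e1 : ∀ i, ∑ x, v (eq x) * χ x (ee h i) = 0 := by
      intro i
      have := congrFun hv0 i
      rw [Matrix.mulVec, dotProduct, Pi.zero_apply] at this
      rw [← this, ← Equiv.sum_comp eq]
      refine Finset.sum_congr rfl fun x _ => ?_
      simp only [Q, Matrix.submatrix_apply, Equiv.symm_apply_apply, id, RR_apply]
      ring
    have e2 : ∀ a : E, ∑ x, v (eq x) * χ x a = 0 := by
      intro a
      have h3 := eq_sum h a 1
      rw [mul_one] at h3
      rw [h3]
      simp only [map_sum, chi_smul, Finset.mul_sum]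
      rw [Finset.sum_comm]
      refine Finset.sum_eq_zero fun i _ => ?_
      rw [← mul_zero ((((ι a) ((ι 1) (v0 h)) i : ℚ)) : ℂ), ← e1 i, Finset.mul_sum]
      exact Finset.sum_congr rfl fun x _ => by ring
    have hli := linearIndependent_monoidHom E ℂ
    have hli' : LinearIndependent ℂ (fun x : X => ((χ x : E →* ℂ) : E → ℂ)) :=
      hli.comp (fun x => (χ x : E →* ℂ)) (fun x y hxy => h.inj (by
        ext a
        exact congrArg (fun f : E →* ℂ => f a) hxy))
    have h4 := Fintype.linearIndependent_iff.1 hli' (fun x => v (eq x)) (by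
      funext a
      rw [Finset.sum_apply]
      simp only [Pi.smul_apply, smul_eq_mul, Pi.zero_apply]
      exact e2 a)
    funext j
    have := h4 (eq.symm j)
    rwa [Equiv.apply_symm_apply] at this
  have hu : IsUnit Q.det := isUnit_iff_ne_zero.2 hdet
  refine ⟨(Q⁻¹).submatrix eq id, ?_, ?_⟩
  · have e1 : RR h = Q.submatrix id eq := by
      ext i x
      simp [Q]
    conv_lhs => rw [e1]
    rw [Matrix.submatrix_mul_equiv, Matrix.mul_nonsing_inv _ hu, Matrix.submatrix_id_id]
  · have e1 : RR h = Q.submatrix id eq := by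
      ext i x
      simp [Q]
    conv_lhs => rw [e1]
    have e2 : (Q⁻¹).submatrix eq id * Q.submatrix id eq = (Q⁻¹ * Q).submatrix eq eq := by
      rw [Matrix.submatrix_mul (e₂ := id) (he₂ := Function.bijective_id)]
    rw [e2, Matrix.nonsing_inv_mul _ hu, Matrix.submatrix_one_equiv]

/-- The inverse matrix. -/
def RI (h : Dat ι χ c) : Matrix X (Fin (2 * g)) ℂ := (exists_RR' h).choose

theorem RR_RI (h : Dat ι χ c) : RR h * RI h = 1 := (exists_RR' h).choose_spec.1

theorem RI_RR (h : Dat ι χ c) : RI h * RR h = 1 := (exists_RR' h).choose_spec.2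

/-- The conjugates of the diagonal matrices. -/
abbrev dh (h : Dat ι χ c) : (X → ℂ) →+* Matrix (Fin (2 * g)) (Fin (2 * g)) ℂ :=
  dg (RR h) (RI h) (RR_RI h) (RI_RR h)

theorem dh_apply (h : Dat ι χ c) (d : X → ℂ) : dh h d = RR h * diagonal d * RI h := rfl

theorem toC_RR (h : Dat ι χ c) (a : E) :
    (toC (ι a))ᵀ * RR h = RR h * diagonal fun x => χ x a := by
  ext j x
  rw [Matrix.mul_apply, Matrix.mul_diagonal, RR_apply]
  have h1 := eq_sum h a (ee h j)
  rw [ee_spec] at h1
  have h2 := congrArg (χ x) h1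
  rw [map_mul, map_sum] at h2
  refine Eq.trans ?_ (h2.symm.trans (mul_comm _ _))
  refine Finset.sum_congr rfl fun i _ => ?_
  rw [chi_smul, RR_apply]
  rfl

/-- The endomorphisms are diagonal. -/
theorem toC_iota (h : Dat ι χ c) (a : E) : (toC (ι a))ᵀ = dh h fun x => χ x a := by
  rw [dh_apply, ← toC_RR, Matrix.mul_assoc, RR_RI, Matrix.mul_one]

theorem mem_EA_iota (h : Dat ι χ c) (a : E) : ι a ∈ A.EA := A.mem_EA.2 ((h.endo _).2 ⟨a, rfl⟩)

/-- The elements of the Lie algebra are endomorphisms. -/
theorem exists_of_NA (h : Dat ι χ c) {P : Module.End ℚ A.H1} (hP : P ∈ A.NA) : ∃ a, ι a = P := by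
  obtain ⟨a, ha⟩ := (bij h).2 (P (v0 h))
  refine ⟨a, LinearMap.ext fun v => ?_⟩
  obtain ⟨b, rfl⟩ := (bij h).2 v
  have h1 := LinearMap.congr_fun (A.NA_comm hP (mem_EA_iota h b)) (v0 h)
  rw [Module.End.mul_apply, Module.End.mul_apply] at h1
  change (ι a) ((ι b) (v0 h)) = P ((ι b) (v0 h))
  rw [h1]
  change ι a (v0 h) = P (v0 h) at ha
  rw [← ha, ← Module.End.mul_apply, ← Module.End.mul_apply, ← map_mul, ← map_mul, mul_comm a b]

/-- The endomorphisms are complex linear. -/
theorem exists_lin (h : Dat ι χ c) (a : E) : ∃ M : (Fin g → ℂ) →ₗ[ℂ] (Fin g → ℂ),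
    ∀ u, A.ext (ι a) u = M u := by
  obtain ⟨M, hM⟩ := A.hodge_end ((h.endo _).2 ⟨a, rfl⟩)
  refine ⟨M, fun u => ?_⟩
  have e : A.ext (ι a) = M.restrictScalars ℝ := by
    refine A.ext_per fun w => ?_
    rw [A.ext_apply, LinearMap.restrictScalars_apply]
    exact (hM w).symm
  rw [e]
  rfl

theorem PF_skew (h : Dat ι χ c) {a : E} (ha : ι a ∈ A.NA) (u : Fin g → ℂ) :
    A.PF (A.ext (ι a) u) u = 0 := by
  obtain ⟨M, hM⟩ := exists_lin h a
  have hsk : ∀ u v, A.E (A.ext (ι a) u) v = -A.E u (A.ext (ι a) v) := by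
    have h2 : A.E.comp (A.ext (ι a)) = -(A.E.flip.comp (A.ext (ι a))).flip := by
      refine A.ext_per fun u => A.ext_per fun v => ?_
      change A.E (A.ext (ι a) (A.per u)) (A.per v) = -A.E (A.per u) (A.ext (ι a) (A.per v))
      rw [A.ext_apply, A.ext_apply, ← A.om_coe, ← A.om_coe, ← Rat.cast_neg]
      congr 1
      linear_combination A.NA_skew ha u v
    intro u v
    exact congrArg (fun F : (Fin g → ℂ) →ₗ[ℝ] (Fin g → ℂ) →ₗ[ℝ] ℝ => F u v) h2
  have e1 : A.PF (A.ext (ι a) u) u = -A.PF (A.ext (ι a) u) u := by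
    conv_lhs => rw [A.PF_apply, hsk, hM, map_smul, ← hM, ← A.PF_apply, A.PF_symm]
  linarith

/-- The eigenvalues of the elements of the Lie algebra are purely imaginary. -/
theorem conj_neg (h : Dat ι χ c) {a : E} (ha : ι a ∈ A.NA) (x : X) :
    χ (c x) a = -χ x a := by
  set lam := χ x a with hlam
  have key : lam.re = 0 := by
    let w : Fin (2 * g) → ℂ := fun j => RI h x j
    have hw : ∀ i, ∑ j, (toC (ι a)) i j * w j = lam * w i := by
      intro i
      have e1 : RI h * (toC (ι a))ᵀ = diagonal (fun x => χ x a) * RI h := by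
        rw [toC_iota h, dh_apply, ← Matrix.mul_assoc, ← Matrix.mul_assoc, RI_RR, Matrix.one_mul]
      have e2 := congrFun (congrFun e1 x) i
      rw [Matrix.mul_apply, Matrix.diagonal_mul] at e2
      rw [hlam, ← e2]
      exact Finset.sum_congr rfl fun j _ => mul_comm _ _
    have hw0 : ∃ j, w j ≠ 0 := by
      by_contra hcon
      push Not at hcon
      have e1 := congrFun (congrFun (RI_RR h) x) x
      rw [Matrix.mul_apply, Matrix.one_apply_eq, Finset.sum_eq_zero fun j _ => by
        have := hcon j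
        change RI h x j = 0 at this
        rw [this, zero_mul]] at e1
      exact zero_ne_one e1
    let u : Fin g → ℂ := ∑ j, (w j).re • A.lam j
    let v : Fin g → ℂ := ∑ j, (w j).im • A.lam j
    have hext : ∀ r : Fin (2 * g) → ℝ, A.ext (ι a) (∑ j, r j • A.lam j) =
        ∑ i, (∑ j, ((ι a (Pi.single j 1) i : ℚ) : ℝ) * r j) • A.lam i := by
      intro r
      rw [map_sum]
      have e1 : ∀ j, A.ext (ι a) (r j • A.lam j) =
          ∑ i, (((ι a (Pi.single j 1) i : ℚ) : ℝ) * r j) • A.lam i := by
        intro j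
        rw [map_smul, A.ext_lam]
        have e2 : A.bas j = Pi.single j 1 := by
          unfold AbVar.bas
          rw [Pi.basisFun_apply]
        rw [e2, A.per_apply, Finset.smul_sum]
        refine Finset.sum_congr rfl fun i _ => ?_
        rw [AbVar.rat_smul, smul_smul, mul_comm]
      rw [Finset.sum_congr rfl fun j _ => e1 j, Finset.sum_comm]
      exact Finset.sum_congr rfl fun i _ => (Finset.sum_smul).symm
    have hre : A.ext (ι a) u = lam.re • u - lam.im • v := by
      change A.ext (ι a) (∑ j, (w j).re • A.lam j) = _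
      rw [hext]
      simp only [u, v, Finset.smul_sum, smul_smul, ← Finset.sum_sub_distrib, ← sub_smul]
      refine Finset.sum_congr rfl fun i _ => ?_
      congr 1
      have e1 := congrArg Complex.re (hw i)
      rw [Complex.re_sum] at e1
      rw [Complex.mul_re] at e1
      rw [← e1]
      refine Finset.sum_congr rfl fun j _ => ?_
      have : toC (ι a) i j = (((ι a (Pi.single j 1) i : ℚ) : ℝ) : ℂ) := by
        simp [toC]
      rw [this, Complex.re_ofReal_mul]
    have him : A.ext (ι a) v = lam.im • u + lam.re • v := by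
      change A.ext (ι a) (∑ j, (w j).im • A.lam j) = _
      rw [hext]
      simp only [u, v, Finset.smul_sum, smul_smul, ← Finset.sum_add_distrib, ← add_smul]
      refine Finset.sum_congr rfl fun i _ => ?_
      congr 1
      have e1 := congrArg Complex.im (hw i)
      rw [Complex.im_sum] at e1
      rw [Complex.mul_im] at e1
      rw [add_comm, ← e1]
      refine Finset.sum_congr rfl fun j _ => ?_
      have : toC (ι a) i j = (((ι a (Pi.single j 1) i : ℚ) : ℝ) : ℂ) := by
        simp [toC]
      rw [this, Complex.im_ofReal_mul]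
    have e1 := PF_skew h ha u
    have e2 := PF_skew h ha v
    rw [hre, map_sub, map_smul, map_smul, LinearMap.sub_apply, LinearMap.smul_apply,
      LinearMap.smul_apply, smul_eq_mul, smul_eq_mul] at e1
    rw [him, map_add, map_smul, map_smul, LinearMap.add_apply, LinearMap.smul_apply,
      LinearMap.smul_apply, smul_eq_mul, smul_eq_mul] at e2
    have e3 := A.PF_symm u v
    have e4 : lam.re * (A.PF u u + A.PF v v) = 0 := by
      rw [e3] at e2
      linarith
    rcases mul_eq_zero.1 e4 with h0 | h0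
    · exact h0
    exfalso
    have hpos : ∀ z : Fin g → ℂ, 0 ≤ A.PF z z := by
      intro z
      by_cases hz : z = 0
      · rw [hz, map_zero]
      · exact (A.PF_pos hz).le
    have hu0 : u = 0 := by
      by_contra hne
      have := A.PF_pos hne
      have := hpos v
      linarith
    have hv0 : v = 0 := by
      by_contra hne
      have := A.PF_pos hne
      have := hpos u
      linarith
    obtain ⟨j, hj⟩ := hw0
    apply hj
    have f1 := Fintype.linearIndependent_iff.1 A.lam.linearIndependent _ hu0 j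
    have f2 := Fintype.linearIndependent_iff.1 A.lam.linearIndependent _ hv0 j
    exact Complex.ext f1 f2
  rw [h.conj x, RingHom.comp_apply, ← hlam]
  apply Complex.ext
  · rw [Complex.conj_re, Complex.neg_re, key, neg_zero]
  · rw [Complex.conj_im, Complex.neg_im]

/-- The characters are distinct on a full subalgebra. -/
theorem exists_ne (h : Dat ι χ c) {𝔮 : Submodule ℚ (Module.End ℚ A.H1)} (hq : A.Full 𝔮) {x y : X}
    (hxy : x ≠ y) : ∃ a, ι a ∈ 𝔮 ∧ χ x a ≠ χ y a := by
  by_contra hcon
  push Not at hcon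
  let S : Matrix X X ℂ := Matrix.single x y (1 : ℂ)
  let Z : Matrix (Fin (2 * g)) (Fin (2 * g)) ℂ := RR h * S * RI h
  have hZ : ∀ M ∈ {M : Matrix (Fin (2 * g)) (Fin (2 * g)) ℚ | ∃ P ∈ 𝔮,
      M = (LinearMap.toMatrix' P)ᵀ}, Z * N208.AM.cq M = N208.AM.cq M * Z := by
    rintro _ ⟨P, hP, rfl⟩
    obtain ⟨a, rfl⟩ := exists_of_NA h (hq.le hP)
    have e1 : N208.AM.cq (LinearMap.toMatrix' (ι a))ᵀ = dh h fun x => χ x a := by
      rw [← toC_iota h, toC_eq, N208.AM.cq, Matrix.transpose_map]
      rfl
    rw [e1, dh_apply]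
    have e2 : Z * (RR h * diagonal (fun x => χ x a) * RI h) =
        RR h * (S * diagonal (fun x => χ x a)) * RI h := by
      calc Z * (RR h * diagonal (fun x => χ x a) * RI h)
          = RR h * (S * ((RI h * RR h) * diagonal (fun x => χ x a))) * RI h := by
            simp only [Z, Matrix.mul_assoc]
        _ = _ := by rw [RI_RR, Matrix.one_mul]
    have e3 : (RR h * diagonal (fun x => χ x a) * RI h) * Z =
        RR h * (diagonal (fun x => χ x a) * S) * RI h := by
      calc (RR h * diagonal (fun x => χ x a) * RI h) * Z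
          = RR h * (diagonal (fun x => χ x a) * ((RI h * RR h) * S)) * RI h := by
            simp only [Z, Matrix.mul_assoc]
        _ = _ := by rw [RI_RR, Matrix.one_mul]
    rw [e2, e3]
    congr 2
    ext i j
    rw [Matrix.mul_diagonal, Matrix.diagonal_mul]
    simp only [S, Matrix.single_apply]
    split_ifs with hij
    · rw [← hij.1, ← hij.2, hcon a hP, mul_comm]
    · rw [zero_mul, mul_zero]
  have h1 := N208.AM.mem_span_cent hZ
  -- all the elements of the span are diagonal
  have h2 : ∀ W ∈ Submodule.span ℂ {y : Matrix (Fin (2 * g)) (Fin (2 * g)) ℂ |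
      ∃ E' : Matrix (Fin (2 * g)) (Fin (2 * g)) ℚ, (∀ M ∈ {M : Matrix (Fin (2 * g)) (Fin (2 * g)) ℚ |
        ∃ P ∈ 𝔮, M = (LinearMap.toMatrix' P)ᵀ}, E' * M = M * E') ∧ y = N208.AM.cq E'},
      (RI h * W * RR h) x y = 0 := by
    intro W hW
    induction hW using Submodule.span_induction with
    | mem W hW =>
      obtain ⟨E', hE', rfl⟩ := hW
      let P : Module.End ℚ A.H1 := Matrix.toLin' E'ᵀ
      have hP : ∀ Q ∈ 𝔮, Q * P = P * Q := by
        intro Q hQ
        have e1 := hE' _ ⟨Q, hQ, rfl⟩
        apply LinearMap.toMatrix'.injective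
        rw [LinearMap.toMatrix'_mul, LinearMap.toMatrix'_mul]
        change LinearMap.toMatrix' Q * LinearMap.toMatrix' (Matrix.toLin' E'ᵀ) =
          LinearMap.toMatrix' (Matrix.toLin' E'ᵀ) * LinearMap.toMatrix' Q
        rw [LinearMap.toMatrix'_toLin']
        have e2 := congrArg Matrix.transpose e1
        rw [Matrix.transpose_mul, Matrix.transpose_mul, Matrix.transpose_transpose] at e2
        exact e2
      have hPE : P ∈ A.EA := fun Q hQ => hq.comm P hP Q (A.LA_le_NA hQ)
      obtain ⟨b, hb⟩ := (h.endo _).1 (A.mem_EA.1 hPE)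
      have e1 : N208.AM.cq E' = dh h fun x => χ x b := by
        rw [← toC_iota h, hb, toC_eq]
        change _ = ((LinearMap.toMatrix' (Matrix.toLin' E'ᵀ)).map _)ᵀ
        rw [LinearMap.toMatrix'_toLin', ← Matrix.transpose_map, Matrix.transpose_transpose]
        rfl
      rw [e1, dh_apply]
      have e2 : RI h * (RR h * diagonal (fun x => χ x b) * RI h) * RR h =
          diagonal (fun x => χ x b) := by
        calc RI h * (RR h * diagonal (fun x => χ x b) * RI h) * RR h
            = (RI h * RR h) * diagonal (fun x => χ x b) * (RI h * RR h) := by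
              simp only [Matrix.mul_assoc]
          _ = _ := by rw [RI_RR, Matrix.one_mul, Matrix.mul_one]
      rw [e2, Matrix.diagonal_apply_ne _ hxy]
    | zero => rw [Matrix.mul_zero, Matrix.zero_mul, Matrix.zero_apply]
    | add a b _ _ ha hb => rw [Matrix.mul_add, Matrix.add_mul, Matrix.add_apply, ha, hb, add_zero]
    | smul s a _ ha => rw [Matrix.mul_smul, Matrix.smul_mul, Matrix.smul_apply, ha, smul_zero]
  have h3 := h2 Z h1
  have e2 : RI h * Z * RR h = S := by
    calc RI h * Z * RR h = (RI h * RR h) * S * (RI h * RR h) := by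
          simp only [Z, Matrix.mul_assoc]
      _ = _ := by rw [RI_RR, Matrix.one_mul, Matrix.mul_one]
  rw [e2] at h3
  simp only [S, Matrix.single_apply_same] at h3
  exact one_ne_zero h3

end Pool.Agent.T9h38.CM
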