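import Pool.Agent.T9h38.CM.Deg8

set_option autoImplicit false
set_option linter.unusedSectionVars false

/-!
# Cyclic permutations of two-power length
-/

open Module Polynomial

noncomputable section

namespace Pool.Agent.T9h38.CM

variable {F : Type} [Field F] [NumberField F]

local instance decE5 : DecidableEq (F →+* ℂ) := Classical.decEq _

/-- Some automorphism permutes the embeddings cyclically, and their number is a power of two. -/
def Cyclic2 (F : Type) [Field F] [NumberField F] : Prop :=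
  (∃ k : ℕ, finrank ℚ F = 2 ^ k) ∧ ∃ τ : ℂ ≃+* ℂ, ∀ φ ψ : F →+* ℂ,
    ∃ n : ℕ, (fun χ : F →+* ℂ => (τ : ℂ →+* ℂ).comp χ)^[n] φ = ψ

theorem mvHom_pow (τ : RingAut ℂ) (n : ℕ) (φ : F →+* ℂ) :
    (mvHom F τ ^ n) φ = (fun χ : F →+* ℂ => (RingEquiv.toRingHom τ).comp χ)^[n] φ := by
  induction n with
  | zero => rfl
  | succ n ih =>
    rw [pow_succ', Equiv.Perm.mul_apply, ih, Function.iterate_succ_apply']
    rfl

theorem eq_zero_of_cyclic2 [NumberField.IsCMField F] (hc : Cyclic2 F)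
    {J : Submodule ℚ ((F →+* ℂ) → ℚ)} (hJ : IsSmall J) {f : (F →+* ℂ) → ℚ} (hf : f ∈ J) :
    f = 0 := by
  classical
  obtain ⟨⟨k, hk⟩, τ, hτ⟩ := hc
  obtain ⟨φ₀⟩ : Nonempty (F →+* ℂ) := inferInstance
  set σ := mvHom F τ with hσ
  have hcard : Fintype.card (F →+* ℂ) = 2 ^ k := by rw [NumberField.Embeddings.card F ℂ, hk]
  have hgen : ∀ ψ : F →+* ℂ, ∃ n : ℕ, (σ ^ n) φ₀ = ψ := by
    intro ψ
    obtain ⟨n, hn⟩ := hτ φ₀ ψ
    exact ⟨n, (mvHom_pow τ n φ₀).trans hn⟩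
  set N := MulAction.period σ φ₀ with hN
  have hNpos : 0 < N := by
    have h1 := MulAction.period_dvd_orderOf σ φ₀
    exact Nat.pos_of_dvd_of_pos h1 (orderOf_pos σ)
  have hmod : ∀ n, (σ ^ n) φ₀ = (σ ^ (n % N)) φ₀ := by
    intro n
    conv_lhs => rw [← Nat.mod_add_div n N]
    rw [pow_add, Equiv.Perm.mul_apply]
    have h1 : (σ ^ (N * (n / N))) • φ₀ = φ₀ := by
      rw [MulAction.pow_smul_eq_iff_period_dvd]
      exact ⟨n / N, rfl⟩
    have h1 : (σ ^ (N * (n / N))) φ₀ = φ₀ := h1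
    rw [h1]
  have hNk : N = 2 ^ k := by
    rw [← hcard, ← Fintype.card_fin N]
    refine Fintype.card_of_bijective (f := fun i : Fin N => (σ ^ (i : ℕ)) φ₀) ⟨fun i j h => ?_, fun ψ => ?_⟩
    · exact Fin.ext (pow_eq_iff hN.symm i j i.2 j.2 h)
    · obtain ⟨n, hn⟩ := hgen ψ
      exact ⟨⟨n % N, Nat.mod_lt _ hNpos⟩, by rw [← hn, hmod n]⟩
  have hcomm : ∀ (i : ℕ) (φ : F →+* ℂ), (σ ^ i) (cj φ) = cj ((σ ^ i) φ) := by
    intro i φ
    rw [hσ, ← map_pow]
    exact mvHom_cj _ φ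
  obtain ⟨m, hm, hm'⟩ : ∃ m, m < N ∧ (σ ^ m) φ₀ = cj φ₀ := by
    obtain ⟨n, hn⟩ := hgen (cj φ₀)
    exact ⟨n % N, Nat.mod_lt _ hNpos, by rw [← hmod, hn]⟩
  have hm0 : m ≠ 0 := by
    rintro rfl
    rw [pow_zero, Equiv.Perm.one_apply] at hm'
    exact cj_ne φ₀ hm'.symm
  have hm2 : 2 * m = N := by
    have h1 : (σ ^ (2 * m)) φ₀ = φ₀ := by
      rw [two_mul, pow_add, Equiv.Perm.mul_apply, hm', hcomm, hm', cj_cj]
    have h2 : N ∣ 2 * m := MulAction.pow_smul_eq_iff_period_dvd.1 h1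
    obtain ⟨t, ht⟩ := h2
    have h3 : t < 2 := by
      by_contra h3
      have h4 : N * 2 ≤ N * t := Nat.mul_le_mul_left N (by omega)
      omega
    have h4 : t ≠ 0 := by
      rintro rfl
      omega
    have h5 : t = 1 := by omega
    rw [ht, h5, mul_one]
  have hk0 : k ≠ 0 := by
    rintro rfl
    omega
  obtain ⟨l, rfl⟩ := Nat.exists_eq_succ_of_ne_zero hk0
  have hml : m = 2 ^ l := by
    have : 2 * m = 2 * 2 ^ l := by
      rw [hm2, hNk]
      rw [Nat.succ_eq_add_one, pow_succ]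
      ring
    omega
  have hinj : ∀ i j, i < m → j < m → (σ ^ i) φ₀ = (σ ^ j) φ₀ → i = j := fun i j hi hj h =>
    pow_eq_iff hN.symm i j (by omega) (by omega) h
  have hcj : ∀ j, cj ((σ ^ j) φ₀) = (σ ^ (j + m)) φ₀ := by
    intro j
    rw [pow_add, Equiv.Perm.mul_apply, hm', hcomm]
  have hdis : ∀ i j, i < m → j < m → (σ ^ i) φ₀ ≠ cj ((σ ^ j) φ₀) := by
    intro i j hi hj h
    rw [hcj] at h
    have := pow_eq_iff hN.symm i (j + m) (by omega) (by omega) h
    omega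
  have hall : ∀ ψ : F →+* ℂ, ∃ i, i < m ∧ (ψ = (σ ^ i) φ₀ ∨ ψ = cj ((σ ^ i) φ₀)) := by
    intro ψ
    obtain ⟨n, hn⟩ := hgen ψ
    rw [hmod n] at hn
    have hlt := Nat.mod_lt n hNpos
    by_cases h : n % N < m
    · exact ⟨n % N, h, Or.inl hn.symm⟩
    · refine ⟨n % N - m, by omega, Or.inr ?_⟩
      rw [hcj, ← hn]
      congr 2
      omega
  have hBf := aeval_PB τ φ₀ m hinj hdis hall (hJ.odd f hf)
  rw [← hσ] at hBf
  set B := PB σ φ₀ m f with hB
  have hcyc : cyclotomic (2 ^ (l + 1)) ℚ = 1 + X ^ m := by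
    rw [cyclotomic_prime_pow_eq_geom_sum Nat.prime_two, Finset.sum_range_succ, Finset.sum_range_one,
      pow_zero, pow_one, hml]
  have hirr : Irreducible (cyclotomic (2 ^ (l + 1)) ℚ) := cyclotomic.irreducible_rat (by positivity)
  by_cases hdvd : cyclotomic (2 ^ (l + 1)) ℚ ∣ B
  · have hB0 : B = 0 := by
      by_contra hne
      have h1 := natDegree_le_of_dvd hdvd hne
      rw [natDegree_cyclotomic, Nat.totient_prime_pow Nat.prime_two (by omega)] at h1
      have h2 := PB_natDegree σ φ₀ m f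
      rw [← hB] at h2
      have h3 : 2 ^ (l + 1 - 1) * (2 - 1) = m := by
        rw [hml]
        simp
      rw [h3] at h1
      omega
    rw [← hBf, hB0, map_zero, LinearMap.zero_apply]
  · exfalso
    obtain ⟨u, v, huv⟩ := hirr.coprime_iff_not_dvd.2 hdvd
    have e3 := congrArg (fun P : ℚ[X] => aeval (TT σ) P (eps cj φ₀)) huv
    simp only [map_add, map_mul, map_one, LinearMap.add_apply, Module.End.mul_apply,
      Module.End.one_apply] at e3
    have e4 : aeval (TT σ) (cyclotomic (2 ^ (l + 1)) ℚ) (eps cj φ₀) = 0 := by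
      rw [hcyc, map_add, map_one, map_pow, aeval_X, LinearMap.add_apply, Module.End.one_apply, hσ,
        TT_eps, ← hσ, hm']
      funext ψ
      rw [Pi.add_apply, eps_odd_left, Pi.zero_apply]
      ring
    rw [e4, map_zero, zero_add, hBf] at e3
    apply eps_notMem hJ φ₀
    rw [← e3]
    exact aeval_mem hJ τ v hf

end Pool.Agent.T9h38.CM
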