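import Pool.Agent.T9h38.CM.Ker

set_option autoImplicit false
set_option linter.unusedSectionVars false

/-!
# Fields of degree eight
-/

open Module

noncomputable section

namespace Pool.Agent.T9h38.CM

theorem sq_ne_two (a : ℚ) : a ^ 2 ≠ 2 := by
  intro h
  have h1 : (|(a : ℝ)|) = Real.sqrt 2 := by
    rw [← Real.sqrt_sq_eq_abs]
    congr 1
    exact_mod_cast h
  have h2 := irrational_sqrt_two
  rw [← h1] at h2
  apply h2
  exact ⟨|a|, by push_cast; rfl⟩

theorem sq_ne_sq {a c : ℚ} (h : a ^ 2 + c ^ 2 = 1 / 4) : a ^ 2 ≠ c ^ 2 := by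
  intro h1
  apply sq_ne_two (4 * a)
  linear_combination 8 * h + 8 * h1

theorem eq_or_eq_neg_of_sq {a b : ℚ} (h : a ^ 2 = b ^ 2) : a = b ∨ a = -b := by
  have h1 : (a - b) * (a + b) = 0 := by linear_combination h
  rcases mul_eq_zero.1 h1 with h | h
  · exact Or.inl (sub_eq_zero.1 h)
  · exact Or.inr (eq_neg_of_add_eq_zero_left h)

theorem four {M : Fin 4 → Fin 4 → ℚ} (hs : ∀ i j, M i j = M j i)
    (hi : ∀ i j, ∑ k, M i k * M k j = M i j) (hd : ∀ i, M i i = 1 / 2)
    (hne : ∀ i j, i ≠ j → M i j ≠ 1 / 2 ∧ M i j ≠ -1 / 2) :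
    ∃ i j, i ≠ j ∧ ∀ k l, M k l ≠ -M i j := by
  obtain ⟨a, ha⟩ : ∃ a, M 0 1 = a := ⟨_, rfl⟩
  obtain ⟨b, hb⟩ : ∃ a, M 0 2 = a := ⟨_, rfl⟩
  obtain ⟨c, hc⟩ : ∃ a, M 0 3 = a := ⟨_, rfl⟩
  obtain ⟨d, hd'⟩ : ∃ a, M 1 2 = a := ⟨_, rfl⟩
  obtain ⟨e, he⟩ : ∃ a, M 1 3 = a := ⟨_, rfl⟩
  obtain ⟨f, hf⟩ : ∃ a, M 2 3 = a := ⟨_, rfl⟩
  have ha' : M 1 0 = a := by rw [hs, ha]
  have hb' : M 2 0 = b := by rw [hs, hb]
  have hc' : M 3 0 = c := by rw [hs, hc]
  have hd'' : M 2 1 = d := by rw [hs, hd']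
  have he' : M 3 1 = e := by rw [hs, he]
  have hf' : M 3 2 = f := by rw [hs, hf]
  have n01 := hne 0 1 (by decide)
  have n02 := hne 0 2 (by decide)
  have n03 := hne 0 3 (by decide)
  rw [ha] at n01
  rw [hb] at n02
  rw [hc] at n03
  have e00 := hi 0 0
  have e11 := hi 1 1
  have e22 := hi 2 2
  have e33 := hi 3 3
  have e01 := hi 0 1
  have e02 := hi 0 2
  have e03 := hi 0 3
  rw [Fin.sum_univ_four] at e00 e11 e22 e33 e01 e02 e03
  rw [hd, ha, ha', hb, hb', hc, hc'] at e00
  rw [hd, ha, ha', hd', hd'', he, he'] at e11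
  rw [hd, hb, hb', hd', hd'', hf, hf'] at e22
  rw [hd, hc, hc', he, he', hf, hf'] at e33
  rw [hd, hd, ha, hb, hd'', hc, he'] at e01
  rw [hd, hd, hb, ha, hd', hc, hf'] at e02
  rw [hd, hd, hc, ha, he, hb, hf] at e03
  have q0 : a ^ 2 + b ^ 2 + c ^ 2 = 1 / 4 := by linear_combination e00
  have q1 : a ^ 2 + d ^ 2 + e ^ 2 = 1 / 4 := by linear_combination e11
  have q2 : b ^ 2 + d ^ 2 + f ^ 2 = 1 / 4 := by linear_combination e22
  have q3 : c ^ 2 + e ^ 2 + f ^ 2 = 1 / 4 := by linear_combination e33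
  have r1 : b * d + c * e = 0 := by linear_combination e01
  have r2 : a * d + c * f = 0 := by linear_combination e02
  have r3 : a * e + b * f = 0 := by linear_combination e03
  have s1 : f ^ 2 = a ^ 2 := by linear_combination (-q0 - q1 + q2 + q3) / 2
  have s2 : e ^ 2 = b ^ 2 := by linear_combination (-q0 - q2 + q1 + q3) / 2
  have s3 : d ^ 2 = c ^ 2 := by linear_combination (-q0 - q3 + q1 + q2) / 2
  have key : ∀ v, 1 / 2 ≠ -v → a ≠ -v → b ≠ -v → c ≠ -v → d ≠ -v → e ≠ -v → f ≠ -v →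
      ∀ k l, M k l ≠ -v := by
    intro v h0 h1 h2 h3 h4 h5 h6 k l
    fin_cases k <;> fin_cases l
    · change M 0 0 ≠ _
      rw [hd]; exact h0
    · change M 0 1 ≠ _
      rw [ha]; exact h1
    · change M 0 2 ≠ _
      rw [hb]; exact h2
    · change M 0 3 ≠ _
      rw [hc]; exact h3
    · change M 1 0 ≠ _
      rw [ha']; exact h1
    · change M 1 1 ≠ _
      rw [hd]; exact h0
    · change M 1 2 ≠ _
      rw [hd']; exact h4
    · change M 1 3 ≠ _
      rw [he]; exact h5
    · change M 2 0 ≠ _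
      rw [hb']; exact h2
    · change M 2 1 ≠ _
      rw [hd'']; exact h4
    · change M 2 2 ≠ _
      rw [hd]; exact h0
    · change M 2 3 ≠ _
      rw [hf]; exact h6
    · change M 3 0 ≠ _
      rw [hc']; exact h3
    · change M 3 1 ≠ _
      rw [he']; exact h5
    · change M 3 2 ≠ _
      rw [hf']; exact h6
    · change M 3 3 ≠ _
      rw [hd]; exact h0
  -- two nonzero numbers `u`, `v` with `u ^ 2 + v ^ 2 = 1 / 4`
  have aux : ∀ u v : ℚ, u ^ 2 + v ^ 2 = 1 / 4 → (u ≠ 1 / 2 ∧ u ≠ -1 / 2) →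
      (v ≠ 1 / 2 ∧ v ≠ -1 / 2) → (1 / 2 ≠ -u ∧ u ≠ -u ∧ 0 ≠ -u ∧ v ≠ -u ∧ -v ≠ -u) := by
    intro u v h hu hv
    have hu0 : u ≠ 0 := by
      rintro rfl
      rcases eq_or_eq_neg_of_sq (a := v) (b := 1 / 2) (by linear_combination h) with h1 | h1
      · exact hv.1 h1
      · exact hv.2 (by rw [h1]; ring)
    have h2 := sq_ne_sq h
    refine ⟨?_, ?_, ?_, ?_, ?_⟩
    · intro h1
      exact hu.2 (by linear_combination h1)
    · intro h1
      exact hu0 (by linear_combination h1 / 2)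
    · intro h1
      exact hu0 (by linear_combination h1)
    · intro h1
      exact h2 (by rw [h1]; ring)
    · intro h1
      exact h2 (by linear_combination (u + v) * h1)
  have hprod : b * c * e * f = 0 := by
    linear_combination (1 / 2) * (b * e) * r2 - (1 / 2) * (b * d) * r3 + (1 / 2) * (b * f) * r1
  have hcase : b = 0 ∨ c = 0 ∨ a = 0 := by
    rcases mul_eq_zero.1 hprod with h | h
    · rcases mul_eq_zero.1 h with h | h
      · rcases mul_eq_zero.1 h with h | h
        · exact Or.inl h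
        · exact Or.inr (Or.inl h)
      · left
        rw [h] at s2
        have : b ^ 2 = 0 := by linear_combination -s2
        exact pow_eq_zero_iff two_ne_zero |>.1 this
    · right; right
      rw [h] at s1
      have : a ^ 2 = 0 := by linear_combination -s1
      exact pow_eq_zero_iff two_ne_zero |>.1 this
  rcases hcase with h0 | h0 | h0
  · have h1 : e = 0 := by
      rw [h0] at s2
      exact pow_eq_zero_iff two_ne_zero |>.1 (by linear_combination s2)
    have hac : a ^ 2 + c ^ 2 = 1 / 4 := by rw [← q0, h0]; ring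
    have hca : c ^ 2 + a ^ 2 = 1 / 4 := by rw [← hac]; ring
    obtain ⟨u1, u2, u3, u4, u5⟩ := aux a c hac n01 n03
    obtain ⟨v1, v2, v3, v4, v5⟩ := aux c a hca n03 n01
    have ha0 : a ≠ 0 := fun h => u3 (by rw [h]; ring)
    rcases eq_or_eq_neg_of_sq s1 with h2 | h2
    · have h3 : d = -c := by
        have : a * (d + c) = 0 := by rw [h2] at r2; linear_combination r2
        rcases mul_eq_zero.1 this with h | h
        · exact absurd h ha0
        · linear_combination h
      refine ⟨0, 1, by decide, ?_⟩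
      rw [ha]
      exact key a u1 u2 (by rw [h0]; exact u3) u4 (by rw [h3]; exact u5) (by rw [h1]; exact u3)
        (by rw [h2]; exact u2)
    · have h3 : d = c := by
        have : a * (d - c) = 0 := by rw [h2] at r2; linear_combination r2
        rcases mul_eq_zero.1 this with h | h
        · exact absurd h ha0
        · linear_combination h
      refine ⟨0, 3, by decide, ?_⟩
      rw [hc]
      exact key c v1 v4 (by rw [h0]; exact v3) v2 (by rw [h3]; exact v2) (by rw [h1]; exact v3)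
        (by rw [h2]; exact v5)
  · have h1 : d = 0 := by
      rw [h0] at s3
      exact pow_eq_zero_iff two_ne_zero |>.1 (by linear_combination s3)
    have hab : a ^ 2 + b ^ 2 = 1 / 4 := by rw [← q0, h0]; ring
    have hba : b ^ 2 + a ^ 2 = 1 / 4 := by rw [← hab]; ring
    obtain ⟨u1, u2, u3, u4, u5⟩ := aux a b hab n01 n02
    obtain ⟨v1, v2, v3, v4, v5⟩ := aux b a hba n02 n01
    have ha0 : a ≠ 0 := fun h => u3 (by rw [h]; ring)
    rcases eq_or_eq_neg_of_sq s1 with h2 | h2
    · have h3 : e = -b := by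
        have : a * (e + b) = 0 := by rw [h2] at r3; linear_combination r3
        rcases mul_eq_zero.1 this with h | h
        · exact absurd h ha0
        · linear_combination h
      refine ⟨0, 1, by decide, ?_⟩
      rw [ha]
      exact key a u1 u2 u4 (by rw [h0]; exact u3) (by rw [h1]; exact u3) (by rw [h3]; exact u5)
        (by rw [h2]; exact u2)
    · have h3 : e = b := by
        have : a * (e - b) = 0 := by rw [h2] at r3; linear_combination r3
        rcases mul_eq_zero.1 this with h | h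
        · exact absurd h ha0
        · linear_combination h
      refine ⟨0, 2, by decide, ?_⟩
      rw [hb]
      exact key b v1 v4 v2 (by rw [h0]; exact v3) (by rw [h1]; exact v3) (by rw [h3]; exact v2)
        (by rw [h2]; exact v5)
  · have h1 : f = 0 := by
      rw [h0] at s1
      exact pow_eq_zero_iff two_ne_zero |>.1 (by linear_combination s1)
    have hbc : b ^ 2 + c ^ 2 = 1 / 4 := by rw [← q0, h0]; ring
    have hcb : c ^ 2 + b ^ 2 = 1 / 4 := by rw [← hbc]; ring
    obtain ⟨u1, u2, u3, u4, u5⟩ := aux b c hbc n02 n03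
    obtain ⟨v1, v2, v3, v4, v5⟩ := aux c b hcb n03 n02
    have hb0 : b ≠ 0 := fun h => u3 (by rw [h]; ring)
    rcases eq_or_eq_neg_of_sq s2 with h2 | h2
    · have h3 : d = -c := by
        have : b * (d + c) = 0 := by rw [h2] at r1; linear_combination r1
        rcases mul_eq_zero.1 this with h | h
        · exact absurd h hb0
        · linear_combination h
      refine ⟨0, 2, by decide, ?_⟩
      rw [hb]
      exact key b u1 (by rw [h0]; exact u3) u2 u4 (by rw [h3]; exact u5) (by rw [h2]; exact u2)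
        (by rw [h1]; exact u3)
    · have h3 : d = c := by
        have : b * (d - c) = 0 := by rw [h2] at r1; linear_combination r1
        rcases mul_eq_zero.1 this with h | h
        · exact absurd h hb0
        · linear_combination h
      refine ⟨0, 3, by decide, ?_⟩
      rw [hc]
      exact key c v1 (by rw [h0]; exact v3) v4 v2 (by rw [h3]; exact v2) (by rw [h2]; exact v5)
        (by rw [h1]; exact v3)

variable {F : Type} [Field F] [NumberField F]

local instance decE4 : DecidableEq (F →+* ℂ) := Classical.decEq _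

/-- Balanced types. -/
def Balanced (Φ : (F →+* ℂ) → Prop) : Prop :=
  ∀ (x : F) (q : ℚ), q < 0 → x ^ 2 = algebraMap ℚ F q → BalancedAt Φ x

/-- Primitive types. -/
def Primitive (Φ : (F →+* ℂ) → Prop) : Prop :=
  ∀ φ ψ : F →+* ℂ, φ ≠ ψ → ∃ τ : ℂ ≃+* ℂ,
    Φ ((τ : ℂ →+* ℂ).comp φ) ∧ ¬Φ ((τ : ℂ →+* ℂ).comp ψ)

section CMField

variable [NumberField.IsCMField F]

/-- Sign functions in a stable space give imaginary quadratic numbers, so they are orthogonal to
balanced types. -/
theorem sum_sign {Φ : (F →+* ℂ) → Prop} (hΦ : ∀ φ, Φ (cj φ) ↔ ¬Φ φ) (hb : Balanced Φ)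
    {h : (F →+* ℂ) → ℚ} (hodd : ∀ φ, h (cj φ) = -h φ) (hval : ∀ φ, h φ = 1 ∨ h φ = -1)
    (hst : ∀ τ : ℂ ≃+* ℂ, (∀ φ, h (mv τ φ) = h φ) ∨ ∀ φ, h (mv τ φ) = -h φ)
    {s : Finset (F →+* ℂ)} (hs : ∀ φ, φ ∈ s ↔ Φ φ) : ∑ φ ∈ s, h φ = 0 := by
  obtain ⟨x, q, l, hl, hq, hx, hxl⟩ := exists_quadratic hodd hval hst
  have hl2 : l ≠ -l := fun h0 => hl (by linear_combination h0 / 2)
  have h1 : ∀ φ : F →+* ℂ, φ x = l ↔ h φ = 1 := by
    intro φ
    rcases hval φ with h0 | h0
    · rw [hxl, h0]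
      simp
    · rw [hxl, h0]
      constructor
      · intro h2
        exfalso
        apply hl2
        push_cast at h2
        linear_combination -h2
      · intro h2
        norm_num at h2
  have h2 : ∀ φ : F →+* ℂ, φ x ≠ l ↔ h φ = -1 := by
    intro φ
    rw [Ne, h1]
    rcases hval φ with h0 | h0
    · rw [h0]
      norm_num
    · rw [h0]
      norm_num
  refine sum_balanced hΦ (hb x q hq hx) (κ := l) (fun φ h => (h1 φ).1 h) (fun φ h => (h2 φ).1 h)
    (fun φ => ?_) hs
  rw [h1, h2, hodd]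
  constructor
  · intro h
    linarith
  · intro h
    linarith

/-- A small space with a multiple of a sign function. -/
theorem sum_of_sign {Φ : (F →+* ℂ) → Prop} (hΦ : ∀ φ, Φ (cj φ) ↔ ¬Φ φ) (hb : Balanced Φ)
    {J : Submodule ℚ ((F →+* ℂ) → ℚ)} (hJ : IsSmall J)
    {h : (F →+* ℂ) → ℚ} (hodd : ∀ φ, h (cj φ) = -h φ) (hval : ∀ φ, h φ = 1 ∨ h φ = -1)
    (hmul : ∀ f ∈ J, ∃ t : ℚ, f = t • h) {f : (F →+* ℂ) → ℚ} (hf : f ∈ J)
    {s : Finset (F →+* ℂ)} (hs : ∀ φ, φ ∈ s ↔ Φ φ) : ∑ φ ∈ s, f φ = 0 := by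
  obtain ⟨t, ht⟩ := hmul f hf
  by_cases ht0 : t = 0
  · rw [ht, ht0]
    simp
  · have h1 : h ∈ J := by
      rw [← Submodule.smul_mem_iff J ht0, ← ht]
      exact hf
    have h2 : ∑ φ ∈ s, h φ = 0 := by
      refine sum_sign hΦ hb hodd hval (fun τ => ?_) hs
      obtain ⟨u, hu⟩ := hmul _ (hJ.stable τ h h1)
      obtain ⟨φ₀⟩ : Nonempty (F →+* ℂ) := inferInstance
      have h3 : ∀ φ, h (mv τ φ) = u * h φ := fun φ => congrFun hu φ
      have h4 : u = 1 ∨ u = -1 := by
        have h5 := h3 φ₀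
        rcases hval φ₀ with h6 | h6 <;> rcases hval (mv τ φ₀) with h7 | h7 <;>
          rw [h6, h7] at h5
        · left; linarith
        · right; linarith
        · right; linarith
        · left; linarith
      rcases h4 with h4 | h4
      · left
        intro φ
        rw [h3, h4, one_mul]
      · right
        intro φ
        rw [h3, h4]
        ring
    rw [ht]
    simp only [Pi.smul_apply, smul_eq_mul]
    rw [← Finset.mul_sum, h2, mul_zero]

/-- Spaces of dimension one. -/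
theorem sum_of_finrank_one {Φ : (F →+* ℂ) → Prop} (hΦ : ∀ φ, Φ (cj φ) ↔ ¬Φ φ) (hb : Balanced Φ)
    {J : Submodule ℚ ((F →+* ℂ) → ℚ)} (hJ : IsSmall J) (h1 : finrank ℚ J = 1)
    {f : (F →+* ℂ) → ℚ} (hf : f ∈ J)
    {s : Finset (F →+* ℂ)} (hs : ∀ φ, φ ∈ s ↔ Φ φ) : ∑ φ ∈ s, f φ = 0 := by
  obtain ⟨K, hK⟩ := exists_kernel J
  set m : ℚ := 1 / finrank ℚ F with hm
  have hpos : (0 : ℚ) < finrank ℚ F := by exact_mod_cast finrank_pos
  have hm0 : m ≠ 0 := by positivity
  have hd : ∀ φ, K φ φ = m := by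
    intro φ
    have := ker_diag hJ hK φ
    rw [h1] at this
    rw [hm]
    field_simp
    rw [this]
    norm_num
  obtain ⟨hr1, hr2⟩ := rank_one (N := K) (m := m) (by
      rw [NumberField.Embeddings.card F ℂ, hm]
      field_simp) hK.symm hK.idem hd
  obtain ⟨x⟩ : Nonempty (F →+* ℂ) := inferInstance
  refine sum_of_sign hΦ hb hJ (h := fun y => K x y / m) (fun φ => ?_) (fun φ => ?_)
    (fun f hf => ⟨f x, ?_⟩) hf hs
  · change K x (cj φ) / m = -(K x φ / m)
    rw [(ker_cj hJ hK x φ).1]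
    ring
  · change K x φ / m = 1 ∨ K x φ / m = -1
    rcases eq_or_eq_neg_of_sq (hr1 x φ) with h | h
    · left
      rw [h, div_self hm0]
    · right
      rw [h, neg_div, div_self hm0]
  · funext y
    change f y = f x * (K x y / m)
    have e1 := hK.rep f hf y
    have e2 := hK.rep f hf x
    have e3 : ∀ z, m * K y z = K x y * K x z := by
      intro z
      rw [← hr2 y z x, hK.symm y x]
    have e4 : m * f y = K x y * f x := by
      rw [← e1, ← e2, Finset.mul_sum, Finset.mul_sum]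
      refine Finset.sum_congr rfl fun z _ => ?_
      linear_combination (f z) * e3 z
    field_simp
    linear_combination e4

/-- Spaces of dimension two for fields of degree eight. -/
theorem finrank_ne_two (hF : finrank ℚ F = 8) {Φ : (F →+* ℂ) → Prop}
    (hΦ : ∀ φ, Φ (cj φ) ↔ ¬Φ φ) (hp : Primitive Φ)
    {J : Submodule ℚ ((F →+* ℂ) → ℚ)} (hJ : IsSmall J) : finrank ℚ J ≠ 2 := by
  classical
  intro h2
  obtain ⟨K, hK⟩ := exists_kernel J
  have hd : ∀ φ, K φ φ = 1 / 4 := by
    intro φ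
    have := ker_diag hJ hK φ
    rw [h2, hF] at this
    norm_num at this
    linarith
  let s : Finset (F →+* ℂ) := Finset.univ.filter Φ
  have hs : ∀ φ, φ ∈ s ↔ Φ φ := fun φ => by simp [s]
  -- sums of even functions
  have hsc : ∀ G : (F →+* ℂ) → ℚ, ∑ φ ∈ sᶜ, G φ = ∑ φ ∈ s, G (cj φ) := by
    intro G
    refine Finset.sum_nbij' cj cj ?_ ?_ ?_ ?_ ?_
    · intro φ hφ
      rw [Finset.mem_compl, hs] at hφ
      rw [hs, hΦ]
      exact hφ
    · intro φ hφ
      rw [hs] at hφ
      rw [Finset.mem_compl, hs, hΦ, not_not]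
      exact hφ
    · intro φ _
      exact cj_cj φ
    · intro φ _
      exact cj_cj φ
    · intro φ _
      rw [cj_cj]
  have hcard : s.card = 4 := by
    have h3 : s.card + sᶜ.card = 8 := by
      rw [Finset.card_add_card_compl, NumberField.Embeddings.card F ℂ, hF]
    have h4 : (sᶜ.card : ℚ) = s.card := by
      have := hsc fun _ => 1
      simpa using this
    have h5 : sᶜ.card = s.card := by exact_mod_cast h4
    omega
  let e : Fin 4 ≃ s := (Finset.equivFinOfCardEq hcard).symm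
  have hsum : ∀ G : (F →+* ℂ) → ℚ, ∑ φ ∈ s, G φ = ∑ i, G (e i) := by
    intro G
    rw [← Finset.sum_coe_sort s G]
    exact (Equiv.sum_comp e fun x : s => G x).symm
  let M : Fin 4 → Fin 4 → ℚ := fun i j => 2 * K (e i) (e j)
  have hidem : ∀ i j, ∑ k, M i k * M k j = M i j := by
    intro i j
    have e1 := hK.idem (e i) (e j)
    rw [← Finset.sum_add_sum_compl s, hsc] at e1
    have e2 : ∀ φ : F →+* ℂ, K (e i) (cj φ) * K (cj φ) (e j) = K (e i) φ * K φ (e j) := by
      intro φ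
      rw [(ker_cj hJ hK _ _).1, (ker_cj hJ hK _ _).2]
      ring
    rw [Finset.sum_congr rfl fun φ _ => e2 φ, hsum] at e1
    change ∑ k, (2 * K (e i) (e k)) * (2 * K (e k) (e j)) = 2 * K (e i) (e j)
    rw [← e1, ← two_mul, Finset.mul_sum, Finset.mul_sum]
    exact Finset.sum_congr rfl fun k _ => by ring
  have hne0 : ∀ i j : Fin 4, i ≠ j → (e i : F →+* ℂ) ≠ e j ∧ (e i : F →+* ℂ) ≠ cj (e j) := by
    intro i j hij
    refine ⟨fun h => hij (e.injective (Subtype.ext h)), fun h => ?_⟩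
    have h3 : Φ (e i) := (hs _).1 (e i).2
    have h4 : Φ (e j) := (hs _).1 (e j).2
    rw [h, hΦ] at h3
    exact h3 h4
  -- the square of the distance
  have hdist : ∀ (i j : Fin 4) (t : ℚ), i ≠ j → t ^ 2 = 1 → M i j = t / 2 →
      K (e i) = (1 / 4 : ℚ) • (eps cj (e i : F →+* ℂ) + t • eps cj (e j : F →+* ℂ)) := by
    intro i j t hij ht hM
    have e1 := hidem i i
    have e2 : ∀ k, M i k * M k i = M i k ^ 2 := by
      intro k
      change (2 * K (e i) (e k)) * (2 * K (e k) (e i)) = (2 * K (e i) (e k)) ^ 2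
      rw [hK.symm (e k) (e i)]
      ring
    have e3 : M i i = 1 / 2 := by
      change 2 * K (e i) (e i) = 1 / 2
      rw [hd]
      norm_num
    rw [Finset.sum_congr rfl fun k _ => e2 k, ← Finset.sum_add_sum_compl {i, j},
      Finset.sum_pair hij, e3, hM] at e1
    have e4 : ∑ k ∈ ({i, j} : Finset (Fin 4))ᶜ, M i k ^ 2 = 0 := by
      linear_combination e1 - ht / 4
    rw [Finset.sum_eq_zero_iff_of_nonneg fun k _ => sq_nonneg _] at e4
    have key : ∀ k, K (e i) (e k) = ((1 / 4 : ℚ) • (eps cj (e i : F →+* ℂ) +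
        t • eps cj (e j : F →+* ℂ)) : (F →+* ℂ) → ℚ) (e k : F →+* ℂ) := by
      intro k
      rw [Pi.smul_apply, Pi.add_apply, Pi.smul_apply, smul_eq_mul, smul_eq_mul]
      by_cases h1 : k = i
      · rw [h1, hd, eps_self, eps_of_ne (hne0 i j hij).1 (hne0 i j hij).2]
        ring
      · by_cases h3 : k = j
        · rw [h3, eps_self, eps_of_ne (hne0 j i hij.symm).1 (hne0 j i hij.symm).2]
          have : 2 * K (e i) (e j) = t / 2 := hM
          linarith
        · rw [eps_of_ne (hne0 k i h1).1 (hne0 k i h1).2, eps_of_ne (hne0 k j h3).1 (hne0 k j h3).2]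
          have h4 := e4 k (by simp [h1, h3])
          have h5 : 2 * K (e i) (e k) = 0 := pow_eq_zero_iff two_ne_zero |>.1 h4
          linarith
    funext φ
    by_cases hφ : φ ∈ s
    · have h1 := key (e.symm ⟨φ, hφ⟩)
      rw [Equiv.apply_symm_apply] at h1
      exact h1
    · have hφ' : cj φ ∈ s := by
        rw [hs, hΦ, ← hs]
        exact hφ
      have h1 := key (e.symm ⟨cj φ, hφ'⟩)
      rw [Equiv.apply_symm_apply] at h1
      change K (e i) (cj φ) = _ at h1
      rw [(ker_cj hJ hK _ _).1, Pi.smul_apply, Pi.add_apply, Pi.smul_apply, smul_eq_mul,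
        smul_eq_mul] at h1
      change _ = (1 / 4) * (eps cj (e i) (cj φ) + t * eps cj (e j) (cj φ)) at h1
      rw [eps_odd, eps_odd] at h1
      rw [Pi.smul_apply, Pi.add_apply, Pi.smul_apply, smul_eq_mul, smul_eq_mul]
      linarith
  obtain ⟨i, j, hij, hM⟩ := four (M := M)
    (fun i j => by
      change 2 * K (e i) (e j) = 2 * K (e j) (e i)
      rw [hK.symm])
    hidem
    (fun i => by
      change 2 * K (e i) (e i) = 1 / 2
      rw [hd]
      norm_num)
    (fun i j hij => by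
      constructor
      · intro h
        have h1 := hdist i j 1 hij (by norm_num) h
        apply hJ.small (e i) (cj (e j)) (hne0 i j hij).2
        have h3 : eps cj (e i : F →+* ℂ) - eps cj (cj (e j)) = (4 : ℚ) • K (e i) := by
          rw [h1, smul_smul]
          funext z
          rw [Pi.sub_apply, eps_odd_left, Pi.smul_apply, Pi.add_apply, Pi.smul_apply, smul_eq_mul,
            smul_eq_mul]
          ring
        rw [h3]
        exact J.smul_mem _ (hK.mem _)
      · intro h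
        have h1 := hdist i j (-1) hij (by norm_num) h
        apply hJ.small (e i) (e j) (hne0 i j hij).1
        have h3 : eps cj (e i : F →+* ℂ) - eps cj (e j) = (4 : ℚ) • K (e i) := by
          rw [h1, smul_smul]
          funext z
          rw [Pi.sub_apply, Pi.smul_apply, Pi.add_apply, Pi.smul_apply, smul_eq_mul,
            smul_eq_mul]
          ring
        rw [h3]
        exact J.smul_mem _ (hK.mem _))
  obtain ⟨τ, h3, h4⟩ := hp (e i) (e j) (hne0 i j hij).1
  have h5 : mv τ (e i) ∈ s := (hs _).2 h3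
  have h6 : cj (mv τ (e j)) ∈ s := (hs _).2 ((hΦ _).2 h4)
  apply hM (e.symm ⟨_, h5⟩) (e.symm ⟨_, h6⟩)
  change 2 * K (e (e.symm ⟨_, h5⟩)) (e (e.symm ⟨_, h6⟩)) = -(2 * K (e i) (e j))
  rw [Equiv.apply_symm_apply, Equiv.apply_symm_apply]
  change 2 * K (mv τ (e i)) (cj (mv τ (e j))) = _
  rw [(ker_cj hJ hK _ _).1, ker_inv hJ hK]
  ring

/-- The fields for which the relations are known. -/
def LowDegree (Φ : (F →+* ℂ) → Prop) : Prop :=
  finrank ℚ F = 2 ∨ finrank ℚ F = 4 ∨
    (Balanced Φ ∧ ((∃ p : ℕ, p.Prime ∧ finrank ℚ F = 2 * p) ∨ (finrank ℚ F = 8 ∧ Primitive Φ)))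

theorem sum_eq_zero_of_lowDegree {Φ : (F →+* ℂ) → Prop} (hΦ : ∀ φ, Φ (cj φ) ↔ ¬Φ φ)
    (hl : LowDegree Φ) {J : Submodule ℚ ((F →+* ℂ) → ℚ)} (hJ : IsSmall J)
    {f : (F →+* ℂ) → ℚ} (hf : f ∈ J)
    {s : Finset (F →+* ℂ)} (hs : ∀ φ, φ ∈ s ↔ Φ φ) : ∑ φ ∈ s, f φ = 0 := by
  have h1 := finrank_lt hJ
  have hzero : finrank ℚ J = 0 → ∑ φ ∈ s, f φ = 0 := by
    intro h
    have h3 : J = ⊥ := Submodule.finrank_eq_zero.1 h
    rw [h3, Submodule.mem_bot] at hf
    rw [hf]
    simp
  rcases hl with hl | hl | ⟨hb, ⟨p, hp, hl⟩ | ⟨hl, hprim⟩⟩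
  · apply hzero
    omega
  · have h2 := finrank_ne hJ (by omega)
    apply hzero
    omega
  · by_cases hp2 : p = 2
    · have h2 := finrank_ne hJ (by omega)
      apply hzero
      omega
    · obtain ⟨h, hodd, hval, hmul⟩ := eq_sign_of_prime hp hp2 hl hJ
      exact sum_of_sign hΦ hb hJ hodd hval hmul hf hs
  · have h2 := finrank_ne hJ (by omega)
    have h3 := finrank_ne_two hl hΦ hprim hJ
    have h4 : finrank ℚ J = 0 ∨ finrank ℚ J = 1 := by omega
    rcases h4 with h4 | h4
    · exact hzero h4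
    · exact sum_of_finrank_one hΦ hb hJ h4 hf hs

end CMField

end Pool.Agent.T9h38.CM
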