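import Pool.Agent.T9h38.CM.Av

set_option autoImplicit false
set_option linter.unusedSectionVars false

/-!
# The period torsor of an abelian variety of CM type
-/

open Module Matrix

noncomputable section

namespace Pool.Agent.T9h38.CM

open Pool.Agent.Y102 Pool.Agent.W516.DR Pool.Agent.H204R3.GP Pool.Agent.W516.KC
  Pool.Agent.H204R3.SP Pool.Agent.TH119.MX Pool.Agent.R917

variable {g : ℕ} {A : AbVar g} {E : Type} [CommRing E] [Algebra ℚ E]
  {ι : E →+* Module.End ℚ A.H1} {X : Type} [Fintype X] [DecidableEq X] {χ : X → (E →+* ℂ)}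
  {c : X → X}

/-- The CM type: `E` acts by `φ` on a quotient of the tangent space. -/
def IsType (ι : E →+* Module.End ℚ A.H1) (φ : E →+* ℂ) : Prop :=
  ∃ l : (Fin g → ℂ) →ₗ[ℂ] ℂ, l ≠ 0 ∧ ∀ a v, l (A.per (ι a v)) = φ a * l (A.per v)

theorem single_bas (A : AbVar g) (j : Fin (2 * g)) : A.per (Pi.single j 1) = A.lam j := by
  have h4 := A.per_bas j
  unfold AbVar.bas at h4
  rwa [Pi.basisFun_apply] at h4

/-- The complex structure commutes with the endomorphisms. -/
theorem hm_comm (h : Dat ι χ c) (z : ℂ) (a : E) :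
    hm A z * (toC (ι a))ᵀ = (toC (ι a))ᵀ * hm A z := by
  obtain ⟨M, hM⟩ := exists_lin h a
  have e0 : ∀ i, A.ext (ι a) (A.lam i) = ∑ j, ((ι a (Pi.single i 1) j : ℚ) : ℝ) • A.lam j := by
    intro i
    rw [A.ext_lam]
    have e2 : A.bas i = Pi.single i 1 := by
      unfold AbVar.bas
      rw [Pi.basisFun_apply]
    rw [e2, A.per_apply]
    exact Finset.sum_congr rfl fun j _ => AbVar.rat_smul _ _
  have e1 : ∀ i j, A.lam.repr (A.ext (ι a) (A.lam i)) j = ((ι a (Pi.single i 1) j : ℚ) : ℝ) := by
    intro i j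
    rw [e0, map_sum, Finsupp.finsetSum_apply, Finset.sum_eq_single j]
    · rw [map_smul, Finsupp.smul_apply, Basis.repr_self, Finsupp.single_eq_same, smul_eq_mul, mul_one]
    · intro k _ hk
      rw [map_smul, Finsupp.smul_apply, Basis.repr_self, Finsupp.single_apply, if_neg hk, smul_zero]
    · intro hj
      exact absurd (Finset.mem_univ _) hj
  ext i j
  rw [Matrix.mul_apply, Matrix.mul_apply]
  have e2 : A.ext (ι a) (z • A.lam i) = z • A.ext (ι a) (A.lam i) := by
    rw [hM, hM, map_smul]
  have e3 : A.lam.repr (A.ext (ι a) (z • A.lam i)) j =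
      ∑ k, A.lam.repr (z • A.lam i) k * ((ι a (Pi.single k 1) j : ℚ) : ℝ) := by
    conv_lhs => rw [← A.lam.sum_repr (z • A.lam i)]
    rw [map_sum, map_sum, Finsupp.finsetSum_apply]
    refine Finset.sum_congr rfl fun k _ => ?_
    rw [map_smul, map_smul, Finsupp.smul_apply, smul_eq_mul, e1]
  have e4 : A.lam.repr (z • A.ext (ι a) (A.lam i)) j =
      ∑ k, ((ι a (Pi.single i 1) k : ℚ) : ℝ) * A.lam.repr (z • A.lam k) j := by
    rw [e0, Finset.smul_sum, map_sum, Finsupp.finsetSum_apply]
    refine Finset.sum_congr rfl fun k _ => ?_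
    rw [smul_comm, map_smul, Finsupp.smul_apply, smul_eq_mul]
  have e5 := congrArg (fun u => ((A.lam.repr u j : ℝ) : ℂ)) e2
  simp only [e3, e4] at e5
  push_cast at e5
  have t1 : ∀ k l, (toC (ι a))ᵀ k l = ((ι a (Pi.single k 1) l : ℚ) : ℂ) := fun k l => rfl
  simp only [hm_apply, t1]
  exact e5

/-- The complex structure is diagonal. -/
theorem exists_diag (h : Dat ι χ c) : ∃ δ : X → ℂ, hm A Complex.I = dh h δ ∧
    ∀ x, δ x = Complex.I ∨ δ x = -Complex.I := by
  let D : Matrix X X ℂ := RI h * hm A Complex.I * RR h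
  have hD : hm A Complex.I = RR h * D * RI h := by
    calc hm A Complex.I = (RR h * RI h) * hm A Complex.I * (RR h * RI h) := by
          rw [RR_RI, Matrix.one_mul, Matrix.mul_one]
      _ = _ := by simp only [D, Matrix.mul_assoc]
  have hcomm : ∀ a, D * diagonal (fun x => χ x a) = diagonal (fun x => χ x a) * D := by
    intro a
    have e1 := hm_comm h Complex.I a
    rw [toC_iota h, dh_apply] at e1
    have e2 := congrArg (fun M => RI h * M * RR h) e1
    have e3 : RI h * (hm A Complex.I * (RR h * diagonal (fun x => χ x a) * RI h)) * RR h =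
        D * diagonal (fun x => χ x a) * (RI h * RR h) := by
      simp only [D, Matrix.mul_assoc]
    have e4 : RI h * (RR h * diagonal (fun x => χ x a) * RI h * hm A Complex.I) * RR h =
        (RI h * RR h) * (diagonal (fun x => χ x a) * D) := by
      simp only [D, Matrix.mul_assoc]
    rw [e3, e4, RI_RR, Matrix.mul_one, Matrix.one_mul] at e2
    exact e2
  have hdiag : D = diagonal fun x => D x x := by
    ext x y
    by_cases hxy : x = y
    · rw [hxy, Matrix.diagonal_apply_eq]
    · rw [Matrix.diagonal_apply_ne _ hxy]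
      by_contra hne
      apply hxy
      apply h.inj
      ext a
      have e1 := congrFun (congrFun (hcomm a) x) y
      rw [Matrix.mul_diagonal, Matrix.diagonal_mul, mul_comm] at e1
      exact (mul_right_cancel₀ hne e1).symm
  refine ⟨fun x => D x x, ?_, fun x => ?_⟩
  · rw [dh_apply, ← hdiag, hD]
  · have e1 : hm A Complex.I * hm A Complex.I = -1 := by
      rw [← hm_mul, Complex.I_mul_I]
      have e2 := hm_real A (-1) 1
      rw [mul_one, hm_one, Complex.ofReal_neg, Complex.ofReal_one, neg_one_smul] at e2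
      exact e2
    have e2 : D * D = -1 := by
      calc D * D = RI h * (hm A Complex.I * (RR h * RI h) * hm A Complex.I) * RR h := by
            simp only [D, Matrix.mul_assoc]
        _ = -1 := by
          rw [RR_RI, Matrix.mul_one, e1, Matrix.mul_neg, Matrix.mul_one, Matrix.neg_mul, RI_RR]
    have e3 := congrFun (congrFun e2 x) x
    rw [hdiag, Matrix.diagonal_mul_diagonal, Matrix.diagonal_apply_eq, Matrix.neg_apply,
      Matrix.one_apply_eq] at e3
    have e4 : (D x x - Complex.I) * (D x x + Complex.I) = 0 := by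
      have e5 := Complex.I_mul_I
      linear_combination e3 - e5
    rcases mul_eq_zero.1 e4 with h0 | h0
    · exact Or.inl (sub_eq_zero.1 h0)
    · exact Or.inr (eq_neg_of_add_eq_zero_left h0)

/-- The eigenvectors. -/
theorem eig_iff (h : Dat ι χ c) {δ : X → ℂ} (hδ : hm A Complex.I = dh h δ) (x : X) (s : ℂ) :
    δ x = s ↔ ∀ i, ∑ j, hm A Complex.I i j * χ x (ee h j) = s * χ x (ee h i) := by
  have e1 : hm A Complex.I * RR h = RR h * diagonal δ := by
    rw [hδ, dh_apply, Matrix.mul_assoc, RI_RR, Matrix.mul_one]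
  have e2 : ∀ i, ∑ j, hm A Complex.I i j * χ x (ee h j) = χ x (ee h i) * δ x := by
    intro i
    have := congrFun (congrFun e1 i) x
    rw [Matrix.mul_apply, Matrix.mul_diagonal] at this
    exact this
  constructor
  · intro hx i
    rw [e2, hx, mul_comm]
  · intro hx
    by_contra hne
    have e3 : ∀ i, χ x (ee h i) = 0 := by
      intro i
      have e4 := (e2 i).symm.trans (hx i)
      have e5 : χ x (ee h i) * (δ x - s) = 0 := by linear_combination e4
      exact (mul_eq_zero.1 e5).resolve_right (sub_ne_zero.2 hne)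
    have e4 := congrFun (congrFun (RI_RR h) x) x
    rw [Matrix.mul_apply, Matrix.one_apply_eq, Finset.sum_eq_zero fun j _ => by
      rw [RR_apply, e3, mul_zero]] at e4
    exact zero_ne_one e4

theorem type_iff (h : Dat ι χ c) {δ : X → ℂ} (hδ : hm A Complex.I = dh h δ) (x : X) :
    IsType ι (χ x) ↔ δ x = Complex.I := by
  rw [eig_iff h hδ]
  constructor
  · rintro ⟨l, hl, hl'⟩
    set κ := l (A.per (v0 h)) with hκ
    have e1 : ∀ j, l (A.lam j) = χ x (ee h j) * κ := by
      intro j
      rw [← single_bas, ← ee_spec h j, hl']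
    have hκ0 : κ ≠ 0 := by
      intro h0
      apply hl
      have e2 : l.restrictScalars ℝ = 0 := by
        refine A.lam.ext fun j => ?_
        rw [LinearMap.restrictScalars_apply, e1, h0, mul_zero, LinearMap.zero_apply]
      refine LinearMap.ext fun u => ?_
      exact congrArg (fun f : (Fin g → ℂ) →ₗ[ℝ] ℂ => f u) e2
    intro i
    have e2 : l (Complex.I • A.lam i) = ∑ j, hm A Complex.I i j * (χ x (ee h j) * κ) := by
      conv_lhs => rw [← A.lam.sum_repr (Complex.I • A.lam i)]
      rw [map_sum]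
      refine Finset.sum_congr rfl fun j _ => ?_
      rw [← Complex.coe_smul, map_smul, e1, smul_eq_mul, hm_apply]
    rw [map_smul, e1, smul_eq_mul] at e2
    apply mul_right_cancel₀ hκ0
    rw [Finset.sum_mul, mul_assoc, e2]
    exact Finset.sum_congr rfl fun j _ => by ring
  · intro hx
    let l₀ : (Fin g → ℂ) →ₗ[ℝ] ℂ := A.lam.constr ℝ fun j => χ x (ee h j)
    have hl₀ : ∀ j, l₀ (A.lam j) = χ x (ee h j) := fun j => A.lam.constr_basis ℝ _ _
    have hI : ∀ u, l₀ (Complex.I • u) = Complex.I * l₀ u := by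
      have e1 : l₀.comp AbVar.JJ = (LinearMap.mulLeft ℝ Complex.I).comp l₀ := by
        refine A.lam.ext fun i => ?_
        rw [LinearMap.comp_apply, LinearMap.comp_apply, AbVar.JJ_apply, LinearMap.mulLeft_apply,
          hl₀, ← hx i]
        conv_lhs => rw [← A.lam.sum_repr (Complex.I • A.lam i)]
        rw [map_sum]
        refine Finset.sum_congr rfl fun j _ => ?_
        rw [map_smul, hl₀, hm_apply, Complex.real_smul]
      intro u
      exact congrArg (fun f : (Fin g → ℂ) →ₗ[ℝ] ℂ => f u) e1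
    let l : (Fin g → ℂ) →ₗ[ℂ] ℂ :=
      { toFun := l₀
        map_add' := l₀.map_add
        map_smul' := by
          intro z u
          have e1 : z • u = z.re • u + z.im • (Complex.I • u) := by
            conv_lhs => rw [← Complex.re_add_im z]
            rw [add_smul, mul_smul, Complex.coe_smul, Complex.coe_smul]
          rw [e1, map_add, map_smul, map_smul, hI, RingHom.id_apply, smul_eq_mul,
            Complex.real_smul, Complex.real_smul]
          conv_rhs => rw [← Complex.re_add_im z]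
          ring }
    have hl : ∀ u, l u = l₀ u := fun u => rfl
    refine ⟨l, ?_, fun a v => ?_⟩
    · intro h0
      have e3 : ∀ i, χ x (ee h i) = 0 := by
        intro i
        rw [← hl₀, ← hl, h0, LinearMap.zero_apply]
      have e4 := congrFun (congrFun (RI_RR h) x) x
      rw [Matrix.mul_apply, Matrix.one_apply_eq, Finset.sum_eq_zero fun j _ => by
        rw [RR_apply, e3, mul_zero]] at e4
      exact zero_ne_one e4
    · -- `l ∘ per` is `χ x`
      have key : ∀ b : E, l (A.per (ι b (v0 h))) = χ x b := by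
        intro b
        have e1 := eq_sum h b 1
        rw [mul_one, map_one, Module.End.one_apply] at e1
        conv_rhs => rw [e1]
        rw [A.per_apply, map_sum, map_sum]
        refine Finset.sum_congr rfl fun j _ => ?_
        rw [AbVar.rat_smul, hl, map_smul, hl₀, chi_smul, Complex.real_smul]
        push_cast
        rfl
      obtain ⟨b, rfl⟩ := (bij h).2 v
      change l (A.per (ι a (ι b (v0 h)))) = χ x a * l (A.per (ι b (v0 h)))
      rw [key, ← Module.End.mul_apply, ← map_mul, key, map_mul]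

theorem delta_conj (h : Dat ι χ c) {δ : X → ℂ} (hδ : hm A Complex.I = dh h δ) (x : X) :
    δ (c x) = (starRingEnd ℂ) (δ x) := by
  rw [eig_iff h hδ]
  intro i
  have e1 := congrArg (starRingEnd ℂ) (((eig_iff h hδ x (δ x)).1 rfl) i)
  rw [map_sum, map_mul] at e1
  rw [h.conj]
  simp only [RingHom.comp_apply]
  rw [← e1]
  refine Finset.sum_congr rfl fun j _ => ?_
  rw [map_mul, hm_apply, Complex.conj_ofReal]

/-- A family of relations. -/
def eps (c : X → X) (x : X) : X → ℚ := fun y => (if y = x then 1 else 0) - if y = c x then 1 else 0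

/-- The family of characters is explained by the type. -/
def Explained (ι : E →+* Module.End ℚ A.H1) (χ : X → (E →+* ℂ)) (c : X → X) : Prop :=
  ∀ J : Submodule ℚ (X → ℚ),
    (∀ (τ : ℂ ≃+* ℂ) (σ : X ≃ X), (∀ x, χ (σ x) = (τ : ℂ →+* ℂ).comp (χ x)) →
      ∀ f ∈ J, (fun x => f (σ x)) ∈ J) →
    (∀ f ∈ J, ∀ x, f (c x) = -f x) →
    (∀ x y, x ≠ y → eps c x - eps c y ∉ J) →
    ∀ f ∈ J, ∀ s : Finset X, (∀ x, x ∈ s ↔ IsType ι (χ x)) → ∑ x ∈ s, f x = 0

theorem prod_zpow {X : Type} [DecidableEq X] (s : Finset X) (u : ℂˣ) (m : X → ℤ) :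
    ∏ x ∈ s, u ^ m x = u ^ ∑ x ∈ s, m x := by
  induction s using Finset.induction_on with
  | empty => simp
  | insert a s ha ih => rw [Finset.prod_insert ha, Finset.sum_insert ha, ih, _root_.zpow_add]

theorem cast_ite (p : Prop) [Decidable p] :
    (((if p then (1 : ℚ) else 0) : ℚ) : ℂ) = if p then (1 : ℂ) else 0 := by
  split_ifs <;> simp

/-- **Main theorem.** -/
theorem main (h : Dat ι χ c) (hE : Explained ι χ c) {G : Subgroup (GL (Fin (2 * g)) ℂ)}
    (hG : ∃ I : Set (MvPolynomial (Fin (2 * g) × Fin (2 * g)) ℚ), ∀ x : GL (Fin (2 * g)) ℂ,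
      x ∈ G ↔ ∀ p ∈ I, MvPolynomial.aeval
        (fun b : Fin (2 * g) × Fin (2 * g) => (x : Matrix _ _ ℂ) b.1 b.2) p = 0)
    {T : Matrix (Fin g ⊕ Fin g) (Fin (2 * g)) ℂ} (hT : ∀ i j, IsAlgebraic ℚ (T i j))
    {x : GL (Fin (2 * g)) ℂ} (hx : x ∈ G) (hxT : (x : Matrix _ _ ℂ) = perMat A * T)
    {z : ℂ} (hz : z ≠ 0) : ∃ y ∈ G, (y : Matrix _ _ ℂ) = hm A z := by
  classical
  have hH := pt_of hG hT hx hxT
  set H := {M : Matrix (Fin (2 * g)) (Fin (2 * g)) ℂ | ∃ x ∈ G, (x : Matrix _ _ ℂ) = M} with hHdef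
  have hq := hH.full
  -- the involution
  have hcc : ∀ x, c (c x) = x := by
    intro x
    apply h.inj
    rw [h.conj, h.conj]
    ext a
    simp
  -- the relations of the torus and the elements of the Lie algebra
  have hrel : ∀ m, Rl (DD (RR h) (RI h) (RR_RI h) (RI_RR h) G) m → ∀ (a : E) (q : ℚ),
      ι a ∈ A.NA → ι a + q • (1 : Module.End ℚ A.H1) ∈ lieQ H →
      ∑ x, (m x : ℂ) * χ x a = 0 ∧ (q : ℂ) * ∑ x, (m x : ℂ) = 0 := by
    intro m hm a q ha haq
    have e1 : ∑ x, (m x : ℂ) * (χ x a + q) = 0 := by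
      refine rel_of_exp (R := RR h) (R' := RI h) (h1 := RR_RI h) (h2 := RI_RR h) (G := G)
        (fun s => ?_) hm
      have e2 : dg (RR h) (RI h) (RR_RI h) (RI_RR h) (fun x => χ x a + q) =
          (toC (ι a + q • (1 : Module.End ℚ A.H1)))ᵀ := by
        have e3 : (fun x => χ x a + (q : ℂ)) = (fun x => χ x a) + (q : ℂ) • (1 : X → ℂ) := by
          funext x
          simp
        rw [toC_add, toC_smul, toC_one, Matrix.transpose_add, Matrix.transpose_smul,
          Matrix.transpose_one, toC_iota h, e3, map_add]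
        congr 1
        ext i j
        rw [dg_entry, Matrix.smul_apply, smul_eq_mul]
        have e4 := congrFun (congrFun (RR_RI h) i) j
        rw [Matrix.mul_apply] at e4
        rw [← e4, Finset.mul_sum]
        refine Finset.sum_congr rfl fun x _ => ?_
        simp
        ring
      rw [e2]
      exact exp_mem hH.grp fun d => (haq d).smul s
    have e2 : -∑ x, (m x : ℂ) * χ x a + (q : ℂ) * ∑ x, (m x : ℂ) = 0 := by
      have e3 := congrArg (starRingEnd ℂ) e1
      rw [map_sum, map_zero] at e3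
      rw [← e3, ← Finset.sum_neg_distrib, Finset.mul_sum, ← Finset.sum_add_distrib]
      refine Finset.sum_congr rfl fun x _ => ?_
      have e4 := conj_neg h ha x
      rw [h.conj, RingHom.comp_apply] at e4
      rw [map_mul, map_add, e4, map_intCast, map_ratCast]
      ring
    have e3 : ∑ x, (m x : ℂ) * χ x a + (q : ℂ) * ∑ x, (m x : ℂ) = 0 := by
      rw [← e1, Finset.mul_sum, ← Finset.sum_add_distrib]
      exact Finset.sum_congr rfl fun x _ => by ring
    constructor
    · linear_combination (e3 - e2) / 2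
    · linear_combination (e3 + e2) / 2
  -- the sum of the exponents
  have hsum : ∀ m, Rl (DD (RR h) (RI h) (RR_RI h) (RI_RR h) G) m → ∑ x, (m x : ℂ) = 0 := by
    intro m hm
    obtain ⟨D, lam, hne⟩ := exists_der
    have e0 : X0 A.basis tau D lam ∈ A.NA := A.LA_le_NA (by
      rw [AbVar.LA_eq]
      exact X0_mem A.basis AbVar.tau_ne D lam)
    obtain ⟨a, ha⟩ := exists_of_NA h e0
    have e1 := hH.cmp_mem D lam
    rw [← X0_eq D lam, ← ha] at e1
    rw [← ha] at e0
    have e2 := (hrel m hm a _ e0 e1).2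
    refine (mul_eq_zero.1 e2).resolve_left ?_
    exact_mod_cast hne
  -- the relations between the characters
  let J : Submodule ℚ (X → ℚ) :=
    { carrier := {f | (∀ x, f (c x) = -f x) ∧ ∀ a, ι a ∈ qq A H → ∑ x, (f x : ℂ) * χ x a = 0}
      zero_mem' := ⟨fun x => by simp, fun a _ => by simp⟩
      add_mem' := by
        rintro f f' ⟨h1, h2⟩ ⟨h1', h2'⟩
        refine ⟨fun x => by rw [Pi.add_apply, Pi.add_apply, h1, h1', neg_add], fun a ha => ?_⟩
        have e1 := h2 a ha
        have e2 := h2' a ha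
        rw [← add_zero (0 : ℂ)]
        nth_rewrite 1 [← e1]
        rw [← e2, ← Finset.sum_add_distrib]
        refine Finset.sum_congr rfl fun x _ => ?_
        rw [Pi.add_apply]
        push_cast
        ring
      smul_mem' := by
        rintro q f ⟨h1, h2⟩
        refine ⟨fun x => by rw [Pi.smul_apply, Pi.smul_apply, h1, smul_neg], fun a ha => ?_⟩
        rw [← mul_zero (q : ℂ), ← h2 a ha, Finset.mul_sum]
        refine Finset.sum_congr rfl fun x _ => ?_
        rw [Pi.smul_apply, smul_eq_mul]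
        push_cast
        ring }
  have hJ : ∀ f : X → ℚ, f ∈ J ↔ (∀ x, f (c x) = -f x) ∧
      ∀ a, ι a ∈ qq A H → ∑ x, (f x : ℂ) * χ x a = 0 := fun f => Iff.rfl
  have hstab : ∀ (τ : ℂ ≃+* ℂ) (σ : X ≃ X), (∀ x, χ (σ x) = (τ : ℂ →+* ℂ).comp (χ x)) →
      ∀ f ∈ J, (fun x => f (σ x)) ∈ J := by
    intro τ σ hσ f hf
    obtain ⟨h1, h2⟩ := (hJ f).1 hf
    have hmove : ∀ x a, χ (σ.symm x) a = τ.symm (χ x a) := by
      intro x a
      have := hσ (σ.symm x)
      rw [Equiv.apply_symm_apply] at this
      rw [this]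
      simp
    refine (hJ _).2 ⟨fun x => ?_, fun a ha => ?_⟩
    · have e1 : σ (c x) = c (σ x) := by
        obtain ⟨s, hs⟩ := h.star
        apply h.inj
        rw [hσ, h.conj, h.conj, hs, hs, hσ]
        rfl
      rw [e1, h1]
    · have e1 := congrArg τ.symm (h2 a ha)
      rw [map_zero, map_sum] at e1
      rw [← e1]
      conv_rhs => rw [← Equiv.sum_comp σ]
      refine Finset.sum_congr rfl fun x _ => ?_
      rw [map_mul, map_ratCast, hσ]
      simp
  -- no small relations
  have hsmall : ∀ x y, x ≠ y → eps c x - eps c y ∉ J := by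
    intro x y hxy hmem
    obtain ⟨a, ha, hne⟩ := exists_ne h hq hxy
    apply hne
    have e1 := ((hJ _).1 hmem).2 a ha
    have e2 : ∀ w, ∑ t, ((if t = w then (1 : ℂ) else 0)) * χ t a = χ w a := by
      intro w
      rw [Finset.sum_eq_single w]
      · rw [if_pos rfl, one_mul]
      · intro b _ hb
        rw [if_neg hb, zero_mul]
      · intro hw
        exact absurd (Finset.mem_univ _) hw
    have e3 : ∑ t, (((eps c x - eps c y) t : ℚ) : ℂ) * χ t a =
        χ x a - χ (c x) a - (χ y a - χ (c y) a) := by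
      rw [← e2 x, ← e2 (c x), ← e2 y, ← e2 (c y), ← Finset.sum_sub_distrib,
        ← Finset.sum_sub_distrib, ← Finset.sum_sub_distrib]
      refine Finset.sum_congr rfl fun t _ => ?_
      rw [Pi.sub_apply]
      unfold eps
      rw [Rat.cast_sub, Rat.cast_sub, Rat.cast_sub, cast_ite, cast_ite, cast_ite, cast_ite]
      ring
    have hNA : ι a ∈ A.NA := hq.le ha
    rw [e3, conj_neg h hNA x, conj_neg h hNA y] at e1
    linear_combination e1 / 2
  -- the type
  obtain ⟨δ, hδ, hδ'⟩ := exists_diag h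
  let s : Finset X := Finset.univ.filter fun x => δ x = Complex.I
  have hs : ∀ x, x ∈ s ↔ IsType ι (χ x) := by
    intro x
    rw [type_iff h hδ]
    simp [s]
  have hI : (Complex.I : ℂ) ≠ -Complex.I := by
    intro h0
    have e1 : (2 : ℂ) * Complex.I = 0 := by linear_combination h0
    rcases mul_eq_zero.1 e1 with e2 | e2
    · exact two_ne_zero e2
    · exact Complex.I_ne_zero e2
  have hcs : ∀ x, c x ∈ s ↔ x ∉ s := by
    intro x
    simp only [s, Finset.mem_filter, Finset.mem_univ, true_and]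
    rw [delta_conj h hδ]
    rcases hδ' x with e1 | e1
    · rw [e1, Complex.conj_I]
      exact ⟨fun e => absurd e.symm hI, fun e => absurd rfl e⟩
    · rw [e1, map_neg, Complex.conj_I, neg_neg]
      exact ⟨fun _ e => hI e.symm, fun _ => rfl⟩
  let ce : X ≃ X := ⟨c, c, hcc, hcc⟩
  -- the relations
  have hfin : ∀ m, Rl (DD (RR h) (RI h) (RR_RI h) (RI_RR h) G) m →
      ∑ x ∈ s, m x = 0 ∧ ∑ x ∈ sᶜ, m x = 0 := by
    intro m hm
    have hf : (fun x => (m x : ℚ) - m (c x)) ∈ J := by
      refine (hJ _).2 ⟨fun x => ?_, fun a ha => ?_⟩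
      · rw [hcc]
        ring
      · obtain ⟨hNA, q, hq'⟩ := ha
        have e1 := (hrel m hm a q hNA hq').1
        have e2 : ∑ x, (m (c x) : ℂ) * χ x a = 0 := by
          rw [← neg_eq_zero, ← e1, ← Equiv.sum_comp ce, ← Finset.sum_neg_distrib]
          refine Finset.sum_congr rfl fun x _ => ?_
          change -((m (c (c x)) : ℂ) * χ (c x) a) = _
          rw [hcc, conj_neg h hNA x]
          ring
        rw [← sub_zero (0 : ℂ)]
        nth_rewrite 1 [← e1]
        rw [← e2, ← Finset.sum_sub_distrib]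
        refine Finset.sum_congr rfl fun x _ => ?_
        push_cast
        ring
    have e1 := hE J hstab (fun f hf => ((hJ f).1 hf).1) hsmall _ hf s hs
    have e2 : ∑ x ∈ s, (m (c x) : ℚ) = ∑ x ∈ sᶜ, (m x : ℚ) := by
      refine Finset.sum_nbij' c c ?_ ?_ ?_ ?_ ?_
      · intro x hx
        rw [Finset.mem_compl, hcs, not_not]
        exact hx
      · intro x hx
        rw [Finset.mem_compl] at hx
        exact (hcs x).2 hx
      · intro x _
        exact hcc x
      · intro x _
        exact hcc x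
      · intro x _
        rfl
    rw [Finset.sum_sub_distrib, e2] at e1
    have e3 : ∑ x ∈ s, (m x : ℚ) + ∑ x ∈ sᶜ, (m x : ℚ) = 0 := by
      rw [Finset.sum_add_sum_compl]
      have := hsum m hm
      exact_mod_cast this
    have e4 : ∑ x ∈ s, (m x : ℚ) = 0 := by linarith
    have e5 : ∑ x ∈ sᶜ, (m x : ℚ) = 0 := by linarith
    exact ⟨by exact_mod_cast e4, by exact_mod_cast e5⟩
  -- the point
  let z1 : ℂˣ := Units.mk0 z hz
  let z2 : ℂˣ := Units.mk0 ((starRingEnd ℂ) z) ((map_ne_zero _).2 hz)
  let d0 : X → ℂˣ := fun x => if x ∈ s then z1 else z2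
  have hd0 : d0 ∈ DD (RR h) (RI h) (RR_RI h) (RI_RR h) G := by
    refine mem_of_rel hG fun m hm => ?_
    obtain ⟨e1, e2⟩ := hfin m hm
    rw [← Finset.prod_mul_prod_compl s]
    have e3 : ∏ x ∈ s, d0 x ^ m x = 1 := by
      rw [Finset.prod_congr rfl fun x hx => by rw [show d0 x = z1 from if_pos hx]]
      rw [← one_mul (∏ x ∈ s, z1 ^ m x)]
      rw [prod_zpow, e1, zpow_zero, one_mul]
    have e4 : ∏ x ∈ sᶜ, d0 x ^ m x = 1 := by
      rw [Finset.prod_congr rfl fun x hx => by
        rw [show d0 x = z2 from if_neg (Finset.mem_compl.1 hx)]]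
      rw [prod_zpow, e2, zpow_zero]
    rw [e3, e4, one_mul]
  obtain ⟨y, hy, hy'⟩ := hd0
  refine ⟨y, hy, hy'.trans ?_⟩
  have e1 : (fun x => ((d0 x : ℂˣ) : ℂ)) = (z.re : ℂ) • (1 : X → ℂ) + (z.im : ℂ) • δ := by
    funext x
    rw [Pi.add_apply, Pi.smul_apply, Pi.smul_apply, Pi.one_apply, smul_eq_mul, smul_eq_mul, mul_one]
    by_cases hxs : x ∈ s
    · have e2 : δ x = Complex.I := by simpa [s] using hxs
      rw [show d0 x = z1 from if_pos hxs, e2]
      exact (Complex.re_add_im z).symm
    · have e2 : δ x = -Complex.I := by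
        rcases hδ' x with e3 | e3
        · exact absurd (by simpa [s] using e3) hxs
        · exact e3
      rw [show d0 x = z2 from if_neg hxs, e2]
      change (starRingEnd ℂ) z = _
      conv_lhs => rw [← Complex.re_add_im z]
      rw [map_add, map_mul, Complex.conj_ofReal, Complex.conj_ofReal, Complex.conj_I]
  have hsm : ∀ (s : ℂ) (d : X → ℂ), dg (RR h) (RI h) (RR_RI h) (RI_RR h) (s • d) =
      s • dg (RR h) (RI h) (RR_RI h) (RI_RR h) d := by
    intro s d
    ext i j
    rw [Matrix.smul_apply, dg_entry, dg_entry, smul_eq_mul, Finset.mul_sum]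
    refine Finset.sum_congr rfl fun x _ => ?_
    rw [Pi.smul_apply, smul_eq_mul]
    ring
  rw [e1, map_add, hsm, hsm, map_one, hm_eq, hδ]

end Pool.Agent.T9h38.CM
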