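import Pool.Agent.T9h38.CM.Gal
import Pool.Agent.T9h38.CM.Main

set_option autoImplicit false
set_option linter.unusedSectionVars false

/-!
# Spaces of odd functions on the embeddings of a CM field
-/

open Module

noncomputable section

namespace Pool.Agent.T9h38.CM

variable {F : Type} [Field F] [NumberField F]

local instance decE : DecidableEq (F →+* ℂ) := Classical.decEq _

/-- A stable space of odd functions without small elements. -/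
structure IsSmall (J : Submodule ℚ ((F →+* ℂ) → ℚ)) : Prop where
  stable : ∀ (τ : ℂ ≃+* ℂ), ∀ f ∈ J, (fun φ => f (mv τ φ)) ∈ J
  odd : ∀ f ∈ J, ∀ φ, f (cj φ) = -f φ
  small : ∀ φ ψ : F →+* ℂ, φ ≠ ψ → eps cj φ - eps cj ψ ∉ J

theorem cj_inj {φ ψ : F →+* ℂ} (h : cj φ = cj ψ) : φ = ψ := by
  rw [← cj_cj φ, h, cj_cj]

theorem eps_of_ne {φ ψ : F →+* ℂ} (h : ψ ≠ φ) (h' : ψ ≠ cj φ) : eps cj φ ψ = 0 := by
  unfold eps
  rw [if_neg h, if_neg h', sub_zero]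

section CMField

variable [NumberField.IsCMField F]

theorem eps_self (φ : F →+* ℂ) : eps cj φ φ = 1 := by
  unfold eps
  rw [if_pos rfl, if_neg (fun h => cj_ne φ h.symm), sub_zero]

theorem eps_cj_self (φ : F →+* ℂ) : eps cj φ (cj φ) = -1 := by
  unfold eps
  rw [if_pos rfl, if_neg (cj_ne φ), zero_sub]

/-- An odd function with small support. -/
theorem eq_smul_eps {f : (F →+* ℂ) → ℚ} (hodd : ∀ φ, f (cj φ) = -f φ) {φ : F →+* ℂ}
    (h : ∀ ψ, ψ ≠ φ → ψ ≠ cj φ → f ψ = 0) : f = f φ • eps cj φ := by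
  funext ψ
  rw [Pi.smul_apply, smul_eq_mul]
  by_cases h1 : ψ = φ
  · rw [h1, eps_self, mul_one]
  · by_cases h2 : ψ = cj φ
    · rw [h2, eps_cj_self, hodd]
      ring
    · rw [h ψ h1 h2, eps_of_ne h1 h2, mul_zero]

theorem eps_notMem {J : Submodule ℚ ((F →+* ℂ) → ℚ)} (hJ : IsSmall J) (φ : F →+* ℂ) :
    eps cj φ ∉ J := by
  intro h
  apply hJ.small φ (cj φ) (cj_ne φ).symm
  have h1 : eps cj (cj φ) = -eps cj φ := by
    funext ψ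
    rw [Pi.neg_apply]
    unfold eps
    rw [cj_cj]
    ring
  rw [h1]
  exact J.sub_mem h (J.neg_mem h)

theorem smul_eps_notMem {J : Submodule ℚ ((F →+* ℂ) → ℚ)} (hJ : IsSmall J) {a : ℚ} (ha : a ≠ 0)
    (φ : F →+* ℂ) : a • eps cj φ ∉ J := fun h =>
  eps_notMem hJ φ ((Submodule.smul_mem_iff J ha).1 h)

/-- The conjugate of an embedding is in every orbit of the stabiliser of another embedding. -/
def Separated (F : Type) [Field F] : Prop :=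
  ∀ φ ψ : F →+* ℂ, ψ ≠ φ → ψ ≠ cj φ → ∃ τ : ℂ ≃+* ℂ,
    (τ : ℂ →+* ℂ).comp φ = φ ∧ (τ : ℂ →+* ℂ).comp ψ = cj ψ

/-- Sum over the stabiliser of an embedding. -/
theorem exists_avg {J : Submodule ℚ ((F →+* ℂ) → ℚ)} (hJ : IsSmall J) {f : (F →+* ℂ) → ℚ}
    (hf : f ∈ J) (φ : F →+* ℂ) : ∃ (S : Finset (Equiv.Perm (F →+* ℂ))), 1 ∈ S ∧
      (∀ σ ∈ S, σ φ = φ ∧ ∃ τ, mvE τ = σ) ∧
      (fun ψ => ∑ σ ∈ S, f (σ ψ)) ∈ J ∧
      ∀ (τ : ℂ ≃+* ℂ), mv τ φ = φ → ∀ ψ, ∑ σ ∈ S, f (σ (mv τ ψ)) = ∑ σ ∈ S, f (σ ψ) := by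
  classical
  let S : Finset (Equiv.Perm (F →+* ℂ)) := Finset.univ.filter fun σ => (∃ τ, mvE τ = σ) ∧ σ φ = φ
  have hS : ∀ σ, σ ∈ S ↔ (∃ τ, mvE τ = σ) ∧ σ φ = φ := fun σ => by simp [S]
  refine ⟨S, ?_, fun σ h => ⟨((hS σ).1 h).2, ((hS σ).1 h).1⟩, ?_, ?_⟩
  · rw [hS]
    refine ⟨⟨RingEquiv.refl ℂ, ?_⟩, rfl⟩
    ext ψ x
    rfl
  · have h1 : (fun ψ => ∑ σ ∈ S, f (σ ψ)) = ∑ σ ∈ S, fun ψ => f (σ ψ) := by
      funext ψ
      rw [Finset.sum_apply]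
    rw [h1]
    refine J.sum_mem fun σ hσ => ?_
    obtain ⟨⟨τ, rfl⟩, _⟩ := (hS σ).1 hσ
    exact hJ.stable τ f hf
  · intro τ hτ ψ
    refine Finset.sum_nbij' (fun σ => σ * mvE τ) (fun σ => σ * (mvE τ)⁻¹) ?_ ?_ ?_ ?_ ?_
    · intro σ hσ
      obtain ⟨⟨τ', rfl⟩, h2⟩ := (hS σ).1 hσ
      rw [hS]
      refine ⟨⟨τ.trans τ', ?_⟩, ?_⟩
      · ext χ x
        rfl
      · rw [Equiv.Perm.mul_apply]
        change (mvE τ') (mv τ φ) = φ
        rw [hτ, h2]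
    · intro σ hσ
      obtain ⟨⟨τ', rfl⟩, h2⟩ := (hS σ).1 hσ
      rw [hS]
      refine ⟨⟨τ.symm.trans τ', ?_⟩, ?_⟩
      · ext χ x
        rfl
      · rw [Equiv.Perm.mul_apply]
        change (mvE τ') (mv τ.symm φ) = φ
        have h3 : mv τ.symm φ = φ := by
          conv_lhs => rw [← hτ]
          exact symm_mv τ φ
        rw [h3, h2]
    · intro σ _
      simp
    · intro σ _
      simp
    · intro σ _
      rfl

/-- The separated case. -/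
theorem eq_zero_of_separated (hs : Separated F) {J : Submodule ℚ ((F →+* ℂ) → ℚ)}
    (hJ : IsSmall J) {f : (F →+* ℂ) → ℚ} (hf : f ∈ J) (φ : F →+* ℂ) : f φ = 0 := by
  by_contra hφ
  obtain ⟨S, h1, hS, hmem, hinv⟩ := exists_avg hJ hf φ
  set b : (F →+* ℂ) → ℚ := fun ψ => ∑ σ ∈ S, f (σ ψ) with hb
  have hbφ : b φ = S.card * f φ := by
    rw [hb]
    change ∑ σ ∈ S, f (σ φ) = _
    rw [Finset.sum_congr rfl fun σ hσ => by rw [(hS σ hσ).1], Finset.sum_const, nsmul_eq_mul]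
  have hb0 : ∀ ψ, ψ ≠ φ → ψ ≠ cj φ → b ψ = 0 := by
    intro ψ h2 h3
    obtain ⟨τ, h4, h5⟩ := hs φ ψ h2 h3
    have h6 : b (mv τ ψ) = b ψ := hinv τ h4 ψ
    have h7 : mv τ ψ = cj ψ := h5
    rw [h7, hJ.odd b hmem] at h6
    linarith
  have h2 := eq_smul_eps (hJ.odd b hmem) hb0
  have h3 : b φ ≠ 0 := by
    rw [hbφ]
    refine mul_ne_zero ?_ hφ
    have : 0 < S.card := Finset.card_pos.2 ⟨1, h1⟩
    positivity
  apply smul_eps_notMem hJ h3 φ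
  rw [← h2]
  exact hmem

/-- The irreducible case. -/
def Irr (F : Type) [Field F] : Prop :=
  ∀ J : Submodule ℚ ((F →+* ℂ) → ℚ),
    (∀ (τ : ℂ ≃+* ℂ), ∀ f ∈ J, (fun φ => f ((τ : ℂ →+* ℂ).comp φ)) ∈ J) →
    (∀ f ∈ J, ∀ φ, f (cj φ) = -f φ) → J = ⊥ ∨ ∀ f : (F →+* ℂ) → ℚ, (∀ φ, f (cj φ) = -f φ) → f ∈ J

theorem eps_odd (φ ψ : F →+* ℂ) : eps cj φ (cj ψ) = -eps cj φ ψ := by
  unfold eps
  by_cases h1 : ψ = φ
  · rw [h1, if_pos rfl, if_pos rfl, if_neg (cj_ne φ), if_neg (cj_ne φ).symm]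
    ring
  · by_cases h2 : ψ = cj φ
    · rw [h2, cj_cj, if_pos rfl, if_pos rfl, if_neg (cj_ne φ), if_neg (cj_ne φ).symm]
      ring
    · rw [if_neg h1, if_neg h2, if_neg, if_neg]
      · ring
      · intro h3
        exact h1 (cj_inj h3)
      · intro h3
        exact h2 (by rw [← h3, cj_cj])

theorem eps_odd_left (φ ψ : F →+* ℂ) : eps cj (cj φ) ψ = -eps cj φ ψ := by
  unfold eps
  rw [cj_cj]
  ring

theorem eq_zero_of_irr (hs : Irr F) {J : Submodule ℚ ((F →+* ℂ) → ℚ)}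
    (hJ : IsSmall J) {f : (F →+* ℂ) → ℚ} (hf : f ∈ J) (φ : F →+* ℂ) : f φ = 0 := by
  rcases hs J hJ.stable hJ.odd with h | h
  · rw [h, Submodule.mem_bot] at hf
    rw [hf, Pi.zero_apply]
  · exact absurd (h _ (eps_odd φ)) (eps_notMem hJ φ)

end CMField

end Pool.Agent.T9h38.CM
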