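import Mathlib
import Pool.Agent.H977R3.CM.TowerCount

set_option autoImplicit false
set_option linter.unusedSectionVars false

/-!
# Automorphisms of the complex numbers and embeddings of number fields
-/

open Module

noncomputable section

namespace Pool.Agent.T9h38.CM

variable {F : Type} [Field F] [NumberField F]

theorem exists_move (φ ψ : F →+* ℂ) : ∃ τ : ℂ ≃+* ℂ, (τ : ℂ →+* ℂ).comp φ = ψ :=
  Pool.Agent.H977R3.CM.exists_aut_emb φ ψ

/-- A number which is fixed by the automorphisms over the image of `F` is in the image. -/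
theorem mem_range_of_fixed (φ : F →+* ℂ) {α : ℂ} (hα : IsAlgebraic ℚ α)
    (hfix : ∀ τ : ℂ ≃+* ℂ, (τ : ℂ →+* ℂ).comp φ = φ → τ α = α) : ∃ x, φ x = α := by
  let _ : Algebra F ℂ := φ.toAlgebra
  have hsc : IsScalarTower ℚ F ℂ := IsScalarTower.of_algebraMap_eq' (Subsingleton.elim _ _)
  have hint : IsIntegral F α := (hα.tower_top F).isIntegral
  let K' := IntermediateField.adjoin F ({α} : Set ℂ)
  have hfd : FiniteDimensional F K' := IntermediateField.adjoin.finiteDimensional hint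
  have hfq : FiniteDimensional ℚ K' := FiniteDimensional.trans ℚ F K'
  have : NumberField K' := ⟨⟩
  have hcard : Fintype.card (K' →ₐ[F] ℂ) = finrank F K' := AlgHom.card F K' ℂ
  have hone : ∀ ψ : K' →ₐ[F] ℂ, ψ = K'.val := by
    intro ψ
    obtain ⟨τ, hτ⟩ := exists_move (F := K') (K'.val : K' →+* ℂ) (ψ : K' →+* ℂ)
    have h1 : (τ : ℂ →+* ℂ).comp φ = φ := by
      ext x
      have := congrArg (fun f : K' →+* ℂ => f (algebraMap F K' x)) hτ
      simp only [RingHom.comp_apply] at this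
      rw [RingHom.comp_apply]
      have e1 : (K'.val : K' →+* ℂ) (algebraMap F K' x) = φ x := rfl
      have e2 : (ψ : K' →+* ℂ) (algebraMap F K' x) = φ x := ψ.commutes x
      rw [e1, e2] at this
      exact this
    have h2 := hfix τ h1
    refine IntermediateField.algHom_ext_of_eq_adjoin F (S := K') (s := {α}) rfl ?_
    intro y hy
    have hy' : y = α := hy
    have e3 := congrArg (fun f : K' →+* ℂ => f ⟨y, IntermediateField.subset_adjoin F _ hy⟩) hτ
    simp only [RingHom.comp_apply] at e3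
    change τ y = ψ _ at e3
    have h3 : τ y = y := by rw [hy', h2]
    rw [← e3, h3]
    rfl
  have hfr : finrank F K' = 1 := by
    rw [← hcard, Fintype.card_eq_one_iff]
    exact ⟨K'.val, hone⟩
  have hbot : K' = ⊥ := IntermediateField.finrank_eq_one_iff.1 hfr
  have hmem : α ∈ K' := IntermediateField.subset_adjoin F _ (Set.mem_singleton α)
  rw [hbot, IntermediateField.mem_bot] at hmem
  obtain ⟨x, hx⟩ := hmem
  exact ⟨x, hx⟩

/-- Elements with equal conjugates are rational. -/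
theorem rat_of_eq {y : F} (h : ∀ φ ψ : F →+* ℂ, φ y = ψ y) : ∃ q : ℚ, algebraMap ℚ F q = y := by
  obtain ⟨φ⟩ : Nonempty (F →+* ℂ) := inferInstance
  obtain ⟨q, hq⟩ := mem_range_of_fixed (F := ℚ) (Rat.castHom ℂ) (α := φ y)
    (by
      have h1 : IsAlgebraic ℚ y := Algebra.IsAlgebraic.isAlgebraic y
      exact h1.algHom (φ.toRatAlgHom)) fun τ _ => h ((τ : ℂ →+* ℂ).comp φ) φ
  refine ⟨q, φ.injective ?_⟩
  rw [← hq]
  have : φ.comp (algebraMap ℚ F) = Rat.castHom ℂ := Subsingleton.elim _ _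
  exact congrArg (fun f : ℚ →+* ℂ => f q) this

/-- The complex conjugate embedding. -/
def cj (φ : F →+* ℂ) : F →+* ℂ := (starRingEnd ℂ).comp φ

theorem cj_cj (φ : F →+* ℂ) : cj (cj φ) = φ := by
  ext x
  simp [cj]

theorem cj_apply (φ : F →+* ℂ) (x : F) : cj φ x = (starRingEnd ℂ) (φ x) := rfl

/-- The action of an automorphism. -/
def mv (τ : ℂ ≃+* ℂ) (φ : F →+* ℂ) : F →+* ℂ := (τ : ℂ →+* ℂ).comp φ

theorem mv_apply (τ : ℂ ≃+* ℂ) (φ : F →+* ℂ) (x : F) : mv τ φ x = τ (φ x) := rfl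

theorem mv_symm (τ : ℂ ≃+* ℂ) (φ : F →+* ℂ) : mv τ (mv τ.symm φ) = φ := by
  ext x
  simp [mv]

theorem symm_mv (τ : ℂ ≃+* ℂ) (φ : F →+* ℂ) : mv τ.symm (mv τ φ) = φ := by
  ext x
  simp [mv]

theorem mv_mul (τ τ' : ℂ ≃+* ℂ) (φ : F →+* ℂ) : mv (τ'.trans τ) φ = mv τ (mv τ' φ) := by
  ext x
  simp [mv]

theorem mv_inj (τ : ℂ ≃+* ℂ) {φ ψ : F →+* ℂ} (h : mv τ φ = mv τ ψ) : φ = ψ := by
  rw [← symm_mv τ φ, h, symm_mv]

/-- The permutation. -/
def mvE (τ : ℂ ≃+* ℂ) : (F →+* ℂ) ≃ (F →+* ℂ) := ⟨mv τ, mv τ.symm, symm_mv τ, mv_symm τ⟩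

theorem mv_cj [NumberField.IsCMField F] (τ : ℂ ≃+* ℂ) (φ : F →+* ℂ) : mv τ (cj φ) = cj (mv τ φ) := by
  have h : ∀ (φ : F →+* ℂ) (x : F), cj φ x = φ (NumberField.IsCMField.complexConj F x) := by
    intro φ x
    rw [NumberField.IsCMField.complexEmbedding_complexConj]
    rfl
  ext x
  rw [mv_apply, h, h, mv_apply]

theorem cj_ne [NumberField.IsCMField F] (φ : F →+* ℂ) : cj φ ≠ φ := by
  intro h
  have h1 : ∀ x, NumberField.IsCMField.complexConj F x = x := by
    intro x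
    apply φ.injective
    rw [NumberField.IsCMField.complexEmbedding_complexConj]
    exact congrArg (fun f : F →+* ℂ => f x) h
  exact NumberField.IsCMField.complexConj_ne_one F (AlgEquiv.ext h1)

/-- **Sign functions.** If there is a function with values `1` and `-1` on the embeddings which is
odd under complex conjugation and which is multiplied by `1` or `-1` by all automorphisms, then
there is an imaginary quadratic subfield. -/
theorem exists_quadratic {f : (F →+* ℂ) → ℚ} (hodd : ∀ φ, f (cj φ) = -f φ)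
    (hval : ∀ φ, f φ = 1 ∨ f φ = -1)
    (hst : ∀ τ : ℂ ≃+* ℂ, (∀ φ, f (mv τ φ) = f φ) ∨ ∀ φ, f (mv τ φ) = -f φ) :
    ∃ (x : F) (q : ℚ) (l : ℂ), l ≠ 0 ∧ q < 0 ∧ x ^ 2 = algebraMap ℚ F q ∧
      ∀ φ : F →+* ℂ, φ x = l * (f φ : ℂ) := by
  classical
  obtain ⟨φ₀⟩ : Nonempty (F →+* ℂ) := inferInstance
  -- a nonzero twisted trace
  obtain ⟨e, he⟩ : ∃ e : F, ∑ φ : F →+* ℂ, (f φ : ℂ) * φ e ≠ 0 := by
    by_contra hcon
    push Not at hcon
    have hli := linearIndependent_monoidHom F ℂ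
    have hli' : LinearIndependent ℂ (fun φ : F →+* ℂ => ((φ : F →* ℂ) : F → ℂ)) :=
      hli.comp (fun φ : F →+* ℂ => (φ : F →* ℂ)) (fun φ ψ h => by
        ext a
        exact congrArg (fun f : F →* ℂ => f a) h)
    have h4 := Fintype.linearIndependent_iff.1 hli' (fun φ => (f φ : ℂ)) (by
      funext a
      rw [Finset.sum_apply]
      simp only [Pi.smul_apply, smul_eq_mul, Pi.zero_apply]
      exact hcon a) φ₀
    have h5 : f φ₀ = 0 := by exact_mod_cast h4
    rcases hval φ₀ with h | h <;> rw [h] at h5 <;> norm_num at h5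
  set l := ∑ φ : F →+* ℂ, (f φ : ℂ) * φ e with hl
  have hτl : ∀ (τ : ℂ ≃+* ℂ) (φ : F →+* ℂ), τ (l * (f φ : ℂ)) = l * (f (mv τ φ) : ℂ) := by
    intro τ φ
    have h1 : τ l = ∑ φ : F →+* ℂ, (f φ : ℂ) * mv τ φ e := by
      rw [hl, map_sum]
      refine Finset.sum_congr rfl fun φ _ => ?_
      rw [map_mul, map_ratCast]
      rfl
    rw [map_mul, map_ratCast]
    rcases hst τ with h | h
    · have h2 : τ l = l := by
        rw [h1, hl]
        refine Eq.trans ?_ (Equiv.sum_comp (mvE τ) fun φ => (f φ : ℂ) * φ e)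
        refine Finset.sum_congr rfl fun φ _ => ?_
        change _ = (f (mv τ φ) : ℂ) * mv τ φ e
        rw [h]
      rw [h2, h]
    · have h2 : τ l = -l := by
        rw [h1, hl, ← Finset.sum_neg_distrib]
        refine Eq.trans ?_ (Equiv.sum_comp (mvE τ) fun φ => -((f φ : ℂ) * φ e))
        refine Finset.sum_congr rfl fun φ _ => ?_
        change _ = -((f (mv τ φ) : ℂ) * mv τ φ e)
        rw [h]
        push_cast
        ring
      rw [h2, h]
      push_cast
      ring
  have halg : IsAlgebraic ℚ (l * (f φ₀ : ℂ)) := by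
    refine IsAlgebraic.mul ?_ ?_
    · rw [hl]
      refine Finset.sum_induction _ (IsAlgebraic ℚ) (fun a b ha hb => ha.add hb) isAlgebraic_zero
        fun φ _ => IsAlgebraic.mul ?_ ?_
      · exact isAlgebraic_algebraMap (f φ : ℚ)
      · have h1 : IsAlgebraic ℚ e := Algebra.IsAlgebraic.isAlgebraic e
        exact h1.algHom (φ.toRatAlgHom)
    · exact isAlgebraic_algebraMap (f φ₀ : ℚ)
  obtain ⟨x, hx⟩ := mem_range_of_fixed φ₀ halg fun τ hτ => by
    rw [hτl, show mv τ φ₀ = φ₀ from hτ]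
  have hx' : ∀ φ : F →+* ℂ, φ x = l * (f φ : ℂ) := by
    intro φ
    obtain ⟨τ, rfl⟩ := exists_move φ₀ φ
    have h1 := hτl τ φ₀
    rw [← hx] at h1
    exact h1
  have hsq : ∀ φ : F →+* ℂ, φ (x ^ 2) = l ^ 2 := by
    intro φ
    rw [map_pow, hx', mul_pow]
    rcases hval φ with h | h
    · rw [h]
      push_cast
      ring
    · rw [h]
      push_cast
      ring
  obtain ⟨q, hq⟩ := rat_of_eq (y := x ^ 2) fun φ ψ => by rw [hsq, hsq]
  refine ⟨x, q, l, he, ?_, hq.symm, hx'⟩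
  -- the sign
  have h1 : (starRingEnd ℂ) (φ₀ x) = -φ₀ x := by
    rw [← cj_apply, hx', hx', hodd]
    push_cast
    ring
  have h2 : φ₀ x ≠ 0 := by
    rw [hx']
    refine mul_ne_zero he ?_
    rcases hval φ₀ with h | h <;> rw [h] <;> norm_num
  have h3 : (q : ℂ) = (φ₀ x) ^ 2 := by
    rw [← map_pow, ← hq]
    have : φ₀.comp (algebraMap ℚ F) = Rat.castHom ℂ := Subsingleton.elim _ _
    exact (congrArg (fun f : ℚ →+* ℂ => f q) this).symm
  have h4 : (φ₀ x).re = 0 := by
    have := congrArg Complex.re h1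
    rw [Complex.conj_re, Complex.neg_re] at this
    linarith
  have h5 : (φ₀ x).im ≠ 0 := fun h0 => h2 (Complex.ext h4 h0)
  have h6 : (q : ℝ) = -((φ₀ x).im ^ 2) := by
    have := congrArg Complex.re h3
    rw [pow_two, Complex.mul_re, h4, Complex.ratCast_re] at this
    rw [this]
    ring
  have h7 : 0 < (φ₀ x).im ^ 2 := by positivity
  have h8 : (q : ℝ) < 0 := by
    rw [h6]
    linarith
  exact_mod_cast h8

end Pool.Agent.T9h38.CM
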