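import Pool.Agent.T9h38.CM.Prime

set_option autoImplicit false
set_option linter.unusedSectionVars false

/-!
# Reproducing kernels
-/

open Module

noncomputable section

namespace Pool.Agent.T9h38.CM

section Gen

variable {X : Type} [Fintype X] [DecidableEq X]

/-- The reproducing kernel of a space of functions. -/
structure IsKer (J : Submodule ℚ (X → ℚ)) (K : X → X → ℚ) : Prop where
  mem : ∀ x, K x ∈ J
  rep : ∀ f ∈ J, ∀ x, ∑ y, K x y * f y = f x
  tr : ∑ x, K x x = finrank ℚ J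

theorem exists_kernel (J : Submodule ℚ (X → ℚ)) : ∃ K : X → X → ℚ, IsKer J K := by
  let B : LinearMap.BilinForm ℚ (X → ℚ) := dotProductBilin ℚ ℚ
  have hB : ∀ f g, B f g = ∑ x, f x * g x := fun f g => rfl
  have hrefl : B.IsRefl := by
    intro f g h
    rw [hB] at h ⊢
    rw [← h]
    exact Finset.sum_congr rfl fun x _ => mul_comm _ _
  have hdis : Disjoint J (B.orthogonal J) := by
    rw [Submodule.disjoint_def]
    intro f hf hf'
    have h1 : ∑ x, f x * f x = 0 := hf' f hf
    rw [Finset.sum_eq_zero_iff_of_nonneg fun x _ => mul_self_nonneg _] at h1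
    funext x
    exact mul_self_eq_zero.1 (h1 x (Finset.mem_univ x))
  have hc : IsCompl J (B.orthogonal J) :=
    (LinearMap.BilinForm.isCompl_orthogonal_iff_disjoint hrefl).2 hdis
  let P : (X → ℚ) →ₗ[ℚ] (X → ℚ) := J.projection _ hc
  have hP : LinearMap.IsProj J P :=
    ⟨fun x => Submodule.projection_apply_mem hc x, fun x hx =>
      Submodule.projection_apply_of_mem_left hc hx⟩
  refine ⟨fun x => P (Pi.single x 1), fun x => hP.map_mem _, fun f hf x => ?_, ?_⟩
  · have h1 : Pi.single x 1 - P (Pi.single x 1) ∈ B.orthogonal J := Submodule.sub_projection_mem hc _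
    have h2 : ∑ y, f y * ((Pi.single x 1 : X → ℚ) y - P (Pi.single x 1) y) = 0 := h1 f hf
    have h3 : ∑ y, f y * (Pi.single x 1 : X → ℚ) y = f x := by
      rw [Finset.sum_eq_single x]
      · simp
      · intro y _ hy
        rw [Pi.single_eq_of_ne hy, mul_zero]
      · intro h
        exact absurd (Finset.mem_univ x) h
    simp only [mul_sub, Finset.sum_sub_distrib] at h2
    rw [h3] at h2
    rw [eq_comm, ← sub_eq_zero, ← h2]
    congr 1
    exact Finset.sum_congr rfl fun y _ => mul_comm _ _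
  · have h1 := hP.trace
    rw [← h1, LinearMap.trace_eq_matrix_trace ℚ (Pi.basisFun ℚ X) P, Matrix.trace]
    refine Finset.sum_congr rfl fun x _ => ?_
    rw [Matrix.diag_apply, LinearMap.toMatrix_apply, Pi.basisFun_apply, Pi.basisFun_repr]

namespace IsKer

variable {J : Submodule ℚ (X → ℚ)} {K : X → X → ℚ}

theorem symm (h : IsKer J K) (x y : X) : K x y = K y x := by
  rw [← h.rep (K x) (h.mem x) y, ← h.rep (K y) (h.mem y) x]
  exact Finset.sum_congr rfl fun z _ => mul_comm _ _

theorem idem (h : IsKer J K) (x y : X) : ∑ z, K x z * K z y = K x y := by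
  rw [h.symm x y, ← h.rep (K y) (h.mem y) x]
  exact Finset.sum_congr rfl fun z _ => by rw [h.symm z y]

theorem uniq (h : IsKer J K) {x : X} {k : X → ℚ} (hk : k ∈ J)
    (hk' : ∀ f ∈ J, ∑ y, k y * f y = f x) : k = K x := by
  have h1 : k - K x ∈ J := J.sub_mem hk (h.mem x)
  have h2 : ∑ y, (k y - K x y) * (k y - K x y) = 0 := by
    have e1 := hk' _ h1
    have e2 := h.rep _ h1 x
    have e3 : ∑ y, (k y - K x y) * (k y - K x y) =
        ∑ y, k y * (k - K x) y - ∑ y, K x y * (k - K x) y := by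
      rw [← Finset.sum_sub_distrib]
      refine Finset.sum_congr rfl fun y _ => ?_
      rw [Pi.sub_apply]
      ring
    rw [e3, e1, e2, sub_self]
  rw [Finset.sum_eq_zero_iff_of_nonneg fun x _ => mul_self_nonneg _] at h2
  funext y
  have := mul_self_eq_zero.1 (h2 y (Finset.mem_univ y))
  linarith

theorem inv (h : IsKer J K) {σ : Equiv.Perm X} (hσ : ∀ f, f ∈ J ↔ (fun x => f (σ x)) ∈ J) (x y : X) :
    K (σ x) (σ y) = K x y := by
  have h1 : (fun y => K (σ x) (σ y)) = K x := by
    refine h.uniq ((hσ _).1 (h.mem (σ x))) fun f hf => ?_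
    have h2 : (fun x => f (σ.symm x)) ∈ J := by
      rw [hσ]
      simp only [Equiv.symm_apply_apply]
      exact hf
    have h3 := h.rep _ h2 (σ x)
    rw [Equiv.symm_apply_apply] at h3
    rw [← h3, ← Equiv.sum_comp σ fun z => K (σ x) z * f (σ.symm z)]
    refine Finset.sum_congr rfl fun z _ => ?_
    rw [Equiv.symm_apply_apply]
  exact congrFun h1 y

end IsKer

/-- Idempotents of rank one with constant diagonal. -/
theorem rank_one {N : X → X → ℚ} {m : ℚ} (hm : m * Fintype.card X = 1)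
    (hs : ∀ x y, N x y = N y x) (hi : ∀ x y, ∑ z, N x z * N z y = N x y) (hd : ∀ x, N x x = m) :
    (∀ x y, N x y ^ 2 = m ^ 2) ∧ ∀ x y z, N x z * N z y = m * N x y := by
  have h0 : ∀ x, ∑ z, N x z ^ 2 = m := by
    intro x
    rw [← hd x, ← hi x x]
    exact Finset.sum_congr rfl fun z _ => by rw [hs z x, pow_two]
  have h0' : ∀ y, ∑ z, N z y ^ 2 = m := by
    intro y
    rw [← h0 y]
    exact Finset.sum_congr rfl fun z _ => by rw [hs z y]
  have h1 : ∀ x y, N x y ^ 2 ≤ m ^ 2 := by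
    intro x y
    have := Finset.sum_mul_sq_le_sq_mul_sq Finset.univ (fun z => N x z) fun z => N z y
    rw [hi, h0, h0', ← pow_two] at this
    exact this
  have hc : ∑ _z : X, m ^ 2 = m := by
    rw [Finset.sum_const, Finset.card_univ, nsmul_eq_mul]
    linear_combination m * hm
  have h2 : ∀ x y, N x y ^ 2 = m ^ 2 := by
    intro x y
    have h3 : ∑ z, N x z ^ 2 = ∑ _z : X, m ^ 2 := by rw [h0, hc]
    exact (Finset.sum_eq_sum_iff_of_le fun z _ => h1 x z).1 h3 y (Finset.mem_univ y)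
  refine ⟨h2, fun x y => ?_⟩
  have h3 : ∑ z, (N x z * N z y - m * N x y) ^ 2 = 0 := by
    have e1 : ∀ z, (N x z * N z y - m * N x y) ^ 2 =
        m ^ 2 * m ^ 2 - 2 * m * N x y * (N x z * N z y) + m ^ 2 * N x y ^ 2 := by
      intro z
      linear_combination (N z y ^ 2) * h2 x z + m ^ 2 * h2 z y
    rw [Finset.sum_congr rfl fun z _ => e1 z, Finset.sum_add_distrib, Finset.sum_sub_distrib,
      ← Finset.mul_sum, ← Finset.mul_sum, hi, hc, h2, Finset.sum_const, Finset.card_univ,
      nsmul_eq_mul]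
    have e2 := h2 x y
    linear_combination (m ^ 3) * hm - 2 * m * e2
  rw [Finset.sum_eq_zero_iff_of_nonneg fun x _ => sq_nonneg _] at h3
  intro z
  have := h3 z (Finset.mem_univ z)
  have := pow_eq_zero_iff (two_ne_zero) |>.1 this
  linarith

end Gen

variable {F : Type} [Field F] [NumberField F]

local instance decE3 : DecidableEq (F →+* ℂ) := Classical.decEq _

theorem ker_inv {J : Submodule ℚ ((F →+* ℂ) → ℚ)} (hJ : IsSmall J)
    {K : (F →+* ℂ) → (F →+* ℂ) → ℚ} (hK : IsKer J K) (τ : ℂ ≃+* ℂ) (φ ψ : F →+* ℂ) :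
    K (mv τ φ) (mv τ ψ) = K φ ψ := by
  refine hK.inv (σ := mvE τ) (fun f => ⟨hJ.stable τ f, fun hf => ?_⟩) φ ψ
  have h1 := hJ.stable τ.symm _ hf
  have h2 : (fun φ => (fun x => f ((mvE τ) x)) (mv τ.symm φ)) = f := by
    funext φ
    exact congrArg f (mv_symm τ φ)
  rwa [h2] at h1

theorem ker_diag {J : Submodule ℚ ((F →+* ℂ) → ℚ)} (hJ : IsSmall J)
    {K : (F →+* ℂ) → (F →+* ℂ) → ℚ} (hK : IsKer J K) (φ : F →+* ℂ) :
    K φ φ * finrank ℚ F = finrank ℚ J := by
  rw [← hK.tr]
  have h1 : ∀ ψ : F →+* ℂ, K ψ ψ = K φ φ := by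
    intro ψ
    obtain ⟨τ, rfl⟩ := exists_move φ ψ
    exact ker_inv hJ hK τ φ φ
  rw [Finset.sum_congr rfl fun ψ _ => h1 ψ, Finset.sum_const, Finset.card_univ,
    NumberField.Embeddings.card F ℂ, nsmul_eq_mul, mul_comm]

section CMField

variable [NumberField.IsCMField F]

theorem ker_cj {J : Submodule ℚ ((F →+* ℂ) → ℚ)} (hJ : IsSmall J)
    {K : (F →+* ℂ) → (F →+* ℂ) → ℚ} (hK : IsKer J K) (φ ψ : F →+* ℂ) :
    K φ (cj ψ) = -K φ ψ ∧ K (cj φ) ψ = -K φ ψ := by
  have h1 : ∀ φ ψ : F →+* ℂ, K φ (cj ψ) = -K φ ψ := fun φ ψ => hJ.odd _ (hK.mem φ) ψ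
  refine ⟨h1 φ ψ, ?_⟩
  rw [hK.symm, h1, hK.symm]

/-- The square sum of a row. -/
theorem ker_sq {J : Submodule ℚ ((F →+* ℂ) → ℚ)}
    {K : (F →+* ℂ) → (F →+* ℂ) → ℚ} (hK : IsKer J K) (φ : F →+* ℂ) :
    ∑ ψ, K φ ψ ^ 2 = K φ φ := by
  rw [← hK.idem φ φ]
  exact Finset.sum_congr rfl fun z _ => by rw [hK.symm z φ, pow_two]

/-- The dimension of a small space is smaller than half the degree. -/
theorem finrank_lt {J : Submodule ℚ ((F →+* ℂ) → ℚ)} (hJ : IsSmall J) :
    2 * finrank ℚ J < finrank ℚ F := by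
  classical
  obtain ⟨K, hK⟩ := exists_kernel J
  obtain ⟨φ⟩ : Nonempty (F →+* ℂ) := inferInstance
  by_contra hcon
  push Not at hcon
  have h1 := ker_diag hJ hK φ
  have hpos : (0 : ℚ) < finrank ℚ F := by exact_mod_cast finrank_pos
  have h2 : 1 ≤ 2 * K φ φ := by
    have : (finrank ℚ F : ℚ) ≤ 2 * finrank ℚ J := by exact_mod_cast hcon
    rw [← h1] at this
    nlinarith
  have h3 := ker_sq hK φ
  -- the two terms
  have h4 : ∑ ψ ∈ ({φ, cj φ} : Finset (F →+* ℂ)), K φ ψ ^ 2 = 2 * K φ φ ^ 2 := by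
    rw [Finset.sum_pair (cj_ne φ).symm, (ker_cj hJ hK φ φ).1]
    ring
  have h5 : ∑ ψ ∈ ({φ, cj φ} : Finset (F →+* ℂ))ᶜ, K φ ψ ^ 2 = K φ φ - 2 * K φ φ ^ 2 := by
    rw [← h4, ← h3, ← Finset.sum_add_sum_compl ({φ, cj φ} : Finset (F →+* ℂ))]
    ring
  have h6 : K φ φ - 2 * K φ φ ^ 2 ≤ 0 := by nlinarith
  have h7 : ∑ ψ ∈ ({φ, cj φ} : Finset (F →+* ℂ))ᶜ, K φ ψ ^ 2 = 0 := by
    refine le_antisymm (h5 ▸ h6) (Finset.sum_nonneg fun ψ _ => sq_nonneg _)
  rw [Finset.sum_eq_zero_iff_of_nonneg fun x _ => sq_nonneg _] at h7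
  have h8 : K φ = K φ φ • eps cj φ := by
    refine eq_smul_eps (hJ.odd _ (hK.mem φ)) fun ψ h h' => ?_
    refine pow_eq_zero_iff (two_ne_zero) |>.1 (h7 ψ ?_)
    simp [h, h']
  have h9 : K φ φ ≠ 0 := by
    intro h0
    rw [h0] at h2
    norm_num at h2
  exact smul_eps_notMem hJ h9 φ (h8 ▸ hK.mem φ)

/-- The codimension of a small space in the space of odd functions is not one. -/
theorem finrank_ne {J : Submodule ℚ ((F →+* ℂ) → ℚ)} (hJ : IsSmall J) (hF : 2 < finrank ℚ F) :
    2 * finrank ℚ J + 2 ≠ finrank ℚ F := by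
  classical
  intro hcon
  obtain ⟨K, hK⟩ := exists_kernel J
  set m : ℚ := 1 / finrank ℚ F with hm
  have hpos : (0 : ℚ) < finrank ℚ F := by exact_mod_cast finrank_pos
  have hm0 : m ≠ 0 := by positivity
  have hdiag : ∀ φ, K φ φ = 1 / 2 - m := by
    intro φ
    have h1 := ker_diag hJ hK φ
    have h2 : (2 * finrank ℚ J + 2 : ℚ) = finrank ℚ F := by exact_mod_cast hcon
    rw [← h1] at h2
    rw [hm]
    field_simp
    linarith
  let N : (F →+* ℂ) → (F →+* ℂ) → ℚ := fun x y => eps cj x y / 2 - K x y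
  have hepss : ∀ x y : F →+* ℂ, eps cj x y = eps cj y x := by
    intro x y
    by_cases h1 : y = x
    · rw [h1]
    · by_cases h2 : y = cj x
      · have h3 : x = cj y := by rw [h2, cj_cj]
        rw [h2, eps_cj_self, eps_odd_left]
        rw [eps_self]
      · rw [eps_of_ne h1 h2, eps_of_ne (Ne.symm h1)]
        intro h3
        exact h2 (by rw [h3, cj_cj])
  have hsum : ∀ (f : (F →+* ℂ) → ℚ) (x : F →+* ℂ), (∀ φ, f (cj φ) = -f φ) →
      ∑ z, eps cj x z * f z = 2 * f x := by
    intro f x hf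
    rw [← Finset.sum_subset (Finset.subset_univ ({x, cj x} : Finset (F →+* ℂ)))]
    · rw [Finset.sum_pair (cj_ne x).symm, eps_self, eps_cj_self, hf]
      ring
    · intro z _ hz
      simp only [Finset.mem_insert, Finset.mem_singleton, not_or] at hz
      rw [eps_of_ne hz.1 hz.2, zero_mul]
  have hrank := rank_one (N := N) (m := m) (by
      rw [NumberField.Embeddings.card F ℂ, hm]
      field_simp)
    (fun x y => by
      change eps cj x y / 2 - K x y = eps cj y x / 2 - K y x
      rw [hepss, hK.symm])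
    (fun x y => by
      change ∑ z, (eps cj x z / 2 - K x z) * (eps cj z y / 2 - K z y) = eps cj x y / 2 - K x y
      have e1 : ∀ z, (eps cj x z / 2 - K x z) * (eps cj z y / 2 - K z y) =
          (eps cj x z * eps cj y z) / 4 - (eps cj x z * K y z) / 2 - (eps cj y z * K x z) / 2
            + K x z * K z y := by
        intro z
        rw [hepss z y, hK.symm z y]
        ring
      rw [Finset.sum_congr rfl fun z _ => e1 z, Finset.sum_add_distrib, Finset.sum_sub_distrib,
        Finset.sum_sub_distrib, ← Finset.sum_div, ← Finset.sum_div, ← Finset.sum_div, hK.idem,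
        hsum _ _ (eps_odd y), hsum _ _ (hJ.odd _ (hK.mem y)), hsum _ _ (hJ.odd _ (hK.mem x)),
        hepss y x, hK.symm y x]
      ring)
    (fun x => by
      change eps cj x x / 2 - K x x = m
      rw [eps_self, hdiag]
      ring)
  obtain ⟨hr1, hr2⟩ := hrank
  obtain ⟨x⟩ : Nonempty (F →+* ℂ) := inferInstance
  obtain ⟨y, hy1, hy2⟩ : ∃ y : F →+* ℂ, y ≠ x ∧ y ≠ cj x := by
    by_contra hc
    push Not at hc
    have h1 : (Finset.univ : Finset (F →+* ℂ)) ⊆ {x, cj x} := by
      intro y _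
      by_cases h : y = x
      · simp [h]
      · simp [hc y h]
    have h2 := Finset.card_le_card h1
    rw [Finset.card_univ, NumberField.Embeddings.card F ℂ, Finset.card_pair (cj_ne x).symm] at h2
    omega
  have hN : ∀ z, m * N x z = N x y * N y z := fun z => (hr2 x z y).symm
  have hsq : (N x y - m) * (N x y + m) = 0 := by
    have := hr1 x y
    linear_combination this
  rcases mul_eq_zero.1 hsq with h | h
  · have h1 : N x y = m := sub_eq_zero.1 h
    have h2 : ∀ z, N x z = N y z := by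
      intro z
      have := hN z
      rw [h1] at this
      exact mul_left_cancel₀ hm0 this
    apply hJ.small x y hy1.symm
    have h3 : eps cj x - eps cj y = (2 : ℚ) • (K x - K y) := by
      funext z
      have : eps cj x z / 2 - K x z = eps cj y z / 2 - K y z := h2 z
      rw [Pi.sub_apply, Pi.smul_apply, Pi.sub_apply, smul_eq_mul]
      linarith
    rw [h3]
    exact J.smul_mem _ (J.sub_mem (hK.mem x) (hK.mem y))
  · have h1 : N x y = -m := eq_neg_of_add_eq_zero_left h
    have h2 : ∀ z, N x z = -N y z := by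
      intro z
      have := hN z
      rw [h1] at this
      have h3 : m * (N x z + N y z) = 0 := by linear_combination this
      rcases mul_eq_zero.1 h3 with h4 | h4
      · exact absurd h4 hm0
      · linarith
    apply hJ.small x (cj y) (fun h => hy2 (by rw [h, cj_cj]))
    have h3 : eps cj x - eps cj (cj y) = (2 : ℚ) • (K x + K y) := by
      funext z
      have : eps cj x z / 2 - K x z = -(eps cj y z / 2 - K y z) := h2 z
      rw [Pi.sub_apply, Pi.smul_apply, Pi.add_apply, smul_eq_mul, eps_odd_left]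
      linarith
    rw [h3]
    exact J.smul_mem _ (J.add_mem (hK.mem x) (hK.mem y))

end CMField

end Pool.Agent.T9h38.CM
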