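import Pool.Agent.T9h38.CM.Weil

set_option autoImplicit false
set_option linter.unusedSectionVars false

/-!
# Fields of degree `2p` and cyclic permutations
-/

open Module Polynomial

noncomputable section

namespace Pool.Agent.T9h38.CM

variable {F : Type} [Field F] [NumberField F]

local instance decE2 : DecidableEq (F →+* ℂ) := Classical.decEq _

/-- The action as a homomorphism. -/
def mvHom (F : Type) [Field F] [NumberField F] : RingAut ℂ →* Equiv.Perm (F →+* ℂ) where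
  toFun τ := mvE τ
  map_one' := by
    ext φ x
    rfl
  map_mul' a b := by
    ext φ x
    rfl

theorem mvHom_apply (τ : RingAut ℂ) (φ : F →+* ℂ) : mvHom F τ φ = mv τ φ := rfl

/-- The translation of functions. -/
def TT (σ : Equiv.Perm (F →+* ℂ)) : Module.End ℚ ((F →+* ℂ) → ℚ) :=
  LinearMap.funLeft ℚ ℚ (σ⁻¹ : Equiv.Perm (F →+* ℂ))

theorem TT_apply (σ : Equiv.Perm (F →+* ℂ)) (f : (F →+* ℂ) → ℚ) (φ : F →+* ℂ) :
    TT σ f φ = f (σ⁻¹ φ) := rfl

theorem TT_pow (σ : Equiv.Perm (F →+* ℂ)) (k : ℕ) (f : (F →+* ℂ) → ℚ) (φ : F →+* ℂ) :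
    (TT σ ^ k) f φ = f ((σ ^ k)⁻¹ φ) := by
  induction k generalizing f with
  | zero => simp
  | succ k ih =>
    rw [pow_succ, Module.End.mul_apply, ih, TT_apply, ← Equiv.Perm.mul_apply, ← mul_inv_rev,
      ← pow_succ]

theorem TT_eps (τ : RingAut ℂ) [NumberField.IsCMField F] (k : ℕ) (φ : F →+* ℂ) :
    (TT (mvHom F τ) ^ k) (eps cj φ) = eps cj ((mvHom F τ ^ k) φ) := by
  funext ψ
  rw [TT_pow, ← map_pow, ← map_inv, mvHom_apply, mvHom_apply]
  unfold eps
  have h1 : ∀ χ : F →+* ℂ, mv (τ ^ k)⁻¹ ψ = χ ↔ ψ = mv (τ ^ k) χ := by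
    intro χ
    constructor
    · rintro rfl
      exact (mv_symm (τ ^ k) ψ).symm
    · rintro rfl
      exact symm_mv (τ ^ k) χ
  have h2 : ∀ χ : F →+* ℂ, mv (τ ^ k)⁻¹ ψ = cj χ ↔ ψ = cj (mv (τ ^ k) χ) := by
    intro χ
    rw [h1, mv_cj]
  simp only [h2]
  simp only [h1]

theorem TT_mem {J : Submodule ℚ ((F →+* ℂ) → ℚ)} (hJ : IsSmall J) (τ : RingAut ℂ) (k : ℕ)
    {f : (F →+* ℂ) → ℚ} (hf : f ∈ J) : (TT (mvHom F τ) ^ k) f ∈ J := by
  have h1 := hJ.stable (τ ^ k)⁻¹ f hf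
  have h2 : (TT (mvHom F τ) ^ k) f = fun φ => f (mv (τ ^ k)⁻¹ φ) := by
    funext φ
    rw [TT_pow, ← map_pow, ← map_inv, mvHom_apply]
  rw [h2]
  exact h1

theorem aeval_mem {J : Submodule ℚ ((F →+* ℂ) → ℚ)} (hJ : IsSmall J) (τ : RingAut ℂ)
    (P : ℚ[X]) {f : (F →+* ℂ) → ℚ} (hf : f ∈ J) : aeval (TT (mvHom F τ)) P f ∈ J := by
  rw [aeval_endomorphism]
  refine J.sum_mem fun i _ => J.smul_mem _ (TT_mem hJ τ i hf)

/-- The polynomial of a function. -/
def PB (σ : Equiv.Perm (F →+* ℂ)) (φ₀ : F →+* ℂ) (N : ℕ) (f : (F →+* ℂ) → ℚ) : ℚ[X] :=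
  ∑ k ∈ Finset.range N, C (f ((σ ^ k) φ₀)) * X ^ k

theorem PB_coeff (σ : Equiv.Perm (F →+* ℂ)) (φ₀ : F →+* ℂ) (N : ℕ) (f : (F →+* ℂ) → ℚ) {k : ℕ}
    (hk : k < N) : (PB σ φ₀ N f).coeff k = f ((σ ^ k) φ₀) := by
  unfold PB
  rw [finsetSum_coeff]
  simp only [coeff_C_mul, coeff_X_pow]
  rw [Finset.sum_eq_single k]
  · rw [if_pos rfl, mul_one]
  · intro b _ hb
    rw [if_neg (Ne.symm hb), mul_zero]
  · intro h
    exact absurd (Finset.mem_range.2 hk) h

theorem PB_natDegree (σ : Equiv.Perm (F →+* ℂ)) (φ₀ : F →+* ℂ) (N : ℕ) (f : (F →+* ℂ) → ℚ) :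
    (PB σ φ₀ N f).natDegree ≤ N - 1 := by
  unfold PB
  refine natDegree_sum_le_of_forall_le _ _ fun k hk => ?_
  refine (natDegree_C_mul_X_pow_le _ _).trans ?_
  have := Finset.mem_range.1 hk
  omega

theorem aeval_PB [NumberField.IsCMField F] (τ : RingAut ℂ) (φ₀ : F →+* ℂ) (N : ℕ)
    (hinj : ∀ i j, i < N → j < N → (mvHom F τ ^ i) φ₀ = (mvHom F τ ^ j) φ₀ → i = j)
    (hdis : ∀ i j, i < N → j < N → (mvHom F τ ^ i) φ₀ ≠ cj ((mvHom F τ ^ j) φ₀))
    (hall : ∀ ψ : F →+* ℂ, ∃ i, i < N ∧ (ψ = (mvHom F τ ^ i) φ₀ ∨ ψ = cj ((mvHom F τ ^ i) φ₀)))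
    {f : (F →+* ℂ) → ℚ} (hodd : ∀ φ, f (cj φ) = -f φ) :
    aeval (TT (mvHom F τ)) (PB (mvHom F τ) φ₀ N f) (eps cj φ₀) = f := by
  have e1 : aeval (TT (mvHom F τ)) (PB (mvHom F τ) φ₀ N f) (eps cj φ₀) =
      ∑ k ∈ Finset.range N, f ((mvHom F τ ^ k) φ₀) • eps cj ((mvHom F τ ^ k) φ₀) := by
    unfold PB
    rw [map_sum, LinearMap.sum_apply]
    refine Finset.sum_congr rfl fun k _ => ?_
    rw [map_mul, map_pow, aeval_X, aeval_C, Module.End.mul_apply, TT_eps,
      Module.algebraMap_end_apply]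
  rw [e1]
  have key : ∀ i, i < N → (∑ k ∈ Finset.range N, f ((mvHom F τ ^ k) φ₀) •
      eps cj ((mvHom F τ ^ k) φ₀)) ((mvHom F τ ^ i) φ₀) = f ((mvHom F τ ^ i) φ₀) := by
    intro i hi
    rw [Finset.sum_apply, Finset.sum_eq_single i]
    · rw [Pi.smul_apply, eps_self, smul_eq_mul, mul_one]
    · intro k hk hki
      rw [Pi.smul_apply, eps_of_ne, smul_zero]
      · intro h
        exact hki (hinj _ _ (Finset.mem_range.1 hk) hi h.symm)
      · exact hdis _ _ hi (Finset.mem_range.1 hk)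
    · intro h
      exact absurd (Finset.mem_range.2 hi) h
  have hodd' : ∀ φ, (∑ k ∈ Finset.range N, f ((mvHom F τ ^ k) φ₀) •
      eps cj ((mvHom F τ ^ k) φ₀)) (cj φ) = -(∑ k ∈ Finset.range N, f ((mvHom F τ ^ k) φ₀) •
      eps cj ((mvHom F τ ^ k) φ₀)) φ := by
    intro φ
    rw [Finset.sum_apply, Finset.sum_apply, ← Finset.sum_neg_distrib]
    refine Finset.sum_congr rfl fun k _ => ?_
    rw [Pi.smul_apply, Pi.smul_apply, eps_odd, smul_neg]
  funext ψ
  obtain ⟨i, hi, rfl | rfl⟩ := hall ψ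
  · exact key i hi
  · rw [hodd', key i hi, hodd]

/-- Powers of a permutation. -/
theorem pow_eq_iff {σ : Equiv.Perm (F →+* ℂ)} {φ₀ : F →+* ℂ} {N : ℕ}
    (hN : MulAction.period σ φ₀ = N) (i j : ℕ) (hi : i < N) (hj : j < N)
    (h : (σ ^ i) φ₀ = (σ ^ j) φ₀) : i = j := by
  have key : ∀ i j : ℕ, i ≤ j → j < N → (σ ^ i) φ₀ = (σ ^ j) φ₀ → i = j := by
    intro i j hij hj h
    have h1 : (σ ^ (j - i)) φ₀ = φ₀ := by
      have h2 : σ ^ j = σ ^ i * σ ^ (j - i) := by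
        rw [← pow_add]
        congr 1
        omega
      rw [h2, Equiv.Perm.mul_apply] at h
      exact ((σ ^ i).injective h).symm
    have h3 : MulAction.period σ φ₀ ∣ j - i :=
      MulAction.pow_smul_eq_iff_period_dvd.1 h1
    rw [hN] at h3
    have h4 := Nat.eq_zero_of_dvd_of_lt h3 (by omega)
    omega
  rcases le_total i j with h1 | h1
  · exact key i j h1 hj h
  · exact (key j i h1 hi h.symm).symm

/-- The sum over the orbit. -/
theorem exists_order [NumberField.IsCMField F] {p : ℕ} (hp : p.Prime)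
    (hcard : finrank ℚ F = 2 * p) : ∃ τ : RingAut ℂ, orderOf (mvHom F τ) = p := by
  classical
  have := Fact.mk hp
  obtain ⟨φ₀⟩ : Nonempty (F →+* ℂ) := inferInstance
  let Γ : Subgroup (Equiv.Perm (F →+* ℂ)) := (mvHom F).range
  have h1 : MulAction.orbit Γ φ₀ = Set.univ := by
    rw [Set.eq_univ_iff_forall]
    intro ψ
    obtain ⟨τ, hτ⟩ := exists_move φ₀ ψ
    exact ⟨⟨mvHom F τ, τ, rfl⟩, hτ⟩
  have h2 := MulAction.card_orbit_mul_card_stabilizer_eq_card_group Γ φ₀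
  have h3 : Fintype.card (MulAction.orbit Γ φ₀) = 2 * p := by
    rw [← hcard, ← NumberField.Embeddings.card F ℂ]
    refine (Fintype.card_congr (Equiv.setCongr h1)).trans ?_
    exact Fintype.card_congr (Equiv.Set.univ _)
  rw [h3] at h2
  obtain ⟨⟨x, hx⟩, hx'⟩ := exists_prime_orderOf_dvd_card (G := Γ) p (by
    rw [← h2]
    exact ⟨2 * Fintype.card (MulAction.stabilizer Γ φ₀), by ring⟩)
  obtain ⟨τ, rfl⟩ := hx
  refine ⟨τ, ?_⟩
  rw [← hx', ← Subgroup.orderOf_coe]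

theorem mvHom_cj [NumberField.IsCMField F] (τ : RingAut ℂ) (φ : F →+* ℂ) :
    mvHom F τ (cj φ) = cj (mvHom F τ φ) := mv_cj τ φ

/-- **Degree `2p`.** -/
theorem eq_sign_of_prime [NumberField.IsCMField F] {p : ℕ} (hp : p.Prime) (hp2 : p ≠ 2)
    (hcard : finrank ℚ F = 2 * p) {J : Submodule ℚ ((F →+* ℂ) → ℚ)} (hJ : IsSmall J) :
    ∃ h : (F →+* ℂ) → ℚ, (∀ φ, h (cj φ) = -h φ) ∧ (∀ φ, h φ = 1 ∨ h φ = -1) ∧
      ∀ f ∈ J, ∃ t : ℚ, f = t • h := by
  classical
  have := Fact.mk hp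
  obtain ⟨τ, hτ⟩ := exists_order (F := F) hp hcard
  set σ := mvHom F τ with hσ
  have h1 : ∃ φ₀, σ φ₀ ≠ φ₀ := by
    by_contra hcon
    push Not at hcon
    have : σ = 1 := Equiv.ext hcon
    rw [this, orderOf_one] at hτ
    exact hp.one_lt.ne hτ
  obtain ⟨φ₀, hφ₀⟩ := h1
  have hper : MulAction.period σ φ₀ = p := by
    have h2 := MulAction.period_dvd_orderOf σ φ₀
    rw [hτ] at h2
    rcases (Nat.dvd_prime hp).1 h2 with h3 | h3
    · exfalso
      apply hφ₀
      have h4 : σ ^ 1 • φ₀ = φ₀ := by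
        rw [MulAction.pow_smul_eq_iff_period_dvd, h3]
      rwa [pow_one] at h4
    · exact h3
  have hinj := pow_eq_iff hper
  have hcomm : ∀ (i : ℕ) (φ : F →+* ℂ), (σ ^ i) (cj φ) = cj ((σ ^ i) φ) := by
    intro i φ
    rw [hσ, ← map_pow]
    exact mvHom_cj _ φ
  have hdis : ∀ i j, i < p → j < p → (σ ^ i) φ₀ ≠ cj ((σ ^ j) φ₀) := by
    have key : ∀ i j, i ≤ j → j < p → (σ ^ i) φ₀ ≠ cj ((σ ^ j) φ₀) := by
      intro i j hij hj h
      have h2 : σ ^ j = σ ^ i * σ ^ (j - i) := by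
        rw [← pow_add]
        congr 1
        omega
      rw [h2, Equiv.Perm.mul_apply, ← hcomm] at h
      have h3 : φ₀ = cj ((σ ^ (j - i)) φ₀) := (σ ^ i).injective h
      have h4 : (σ ^ (2 * (j - i))) φ₀ = φ₀ := by
        rw [two_mul, pow_add, Equiv.Perm.mul_apply]
        have h5 : (σ ^ (j - i)) φ₀ = cj φ₀ := by
          conv_rhs => rw [h3]
          rw [cj_cj]
        rw [h5, hcomm, h5, cj_cj]
      have h5 : MulAction.period σ φ₀ ∣ 2 * (j - i) := MulAction.pow_smul_eq_iff_period_dvd.1 h4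
      rw [hper] at h5
      have h6 : p ∣ j - i := by
        refine (Nat.Coprime.dvd_of_dvd_mul_left ?_ h5)
        exact (Nat.coprime_primes hp Nat.prime_two).2 hp2
      have h7 := Nat.eq_zero_of_dvd_of_lt h6 (by omega)
      rw [h7, pow_zero, Equiv.Perm.one_apply] at h3
      exact cj_ne φ₀ h3.symm
    intro i j hi hj h
    rcases le_total i j with h2 | h2
    · exact key i j h2 hj h
    · exact key j i h2 hi (by rw [h, cj_cj])
  have hall : ∀ ψ : F →+* ℂ, ∃ i, i < p ∧ (ψ = (σ ^ i) φ₀ ∨ ψ = cj ((σ ^ i) φ₀)) := by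
    let e : Fin p ⊕ Fin p → (F →+* ℂ) := Sum.elim (fun i => (σ ^ (i : ℕ)) φ₀)
      (fun i => cj ((σ ^ (i : ℕ)) φ₀))
    have he : Function.Injective e := by
      rintro (i | i) (j | j) h
      · exact congrArg Sum.inl (Fin.ext (hinj i j i.2 j.2 h))
      · exact absurd h (hdis i j i.2 j.2)
      · exact absurd h.symm (hdis j i j.2 i.2)
      · exact congrArg Sum.inr (Fin.ext (hinj i j i.2 j.2 (cj_inj h)))
    have hb : Function.Bijective e := by
      rw [Fintype.bijective_iff_injective_and_card]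
      refine ⟨he, ?_⟩
      rw [NumberField.Embeddings.card F ℂ, hcard, Fintype.card_sum, Fintype.card_fin]
      ring
    intro ψ
    obtain ⟨i | i, hi⟩ := hb.2 ψ
    · exact ⟨i, i.2, Or.inl hi.symm⟩
    · exact ⟨i, i.2, Or.inr hi.symm⟩
  -- the sign function
  let h : (F →+* ℂ) → ℚ := aeval (TT σ) (∑ i ∈ Finset.range p, X ^ i : ℚ[X]) (eps cj φ₀)
  have hTT : ∀ f : (F →+* ℂ) → ℚ, (TT σ ^ p) f = f := by
    intro f
    funext φ
    rw [TT_pow, ← hτ, pow_orderOf_eq_one, inv_one, Equiv.Perm.one_apply]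
  have hsum : ∀ i, i < p → h ((σ ^ i) φ₀) = 1 ∧ h (cj ((σ ^ i) φ₀)) = -1 := by
    have e0 : h = ∑ k ∈ Finset.range p, eps cj ((σ ^ k) φ₀) := by
      change aeval (TT σ) (∑ i ∈ Finset.range p, X ^ i : ℚ[X]) (eps cj φ₀) = _
      rw [map_sum, LinearMap.sum_apply]
      refine Finset.sum_congr rfl fun k _ => ?_
      rw [map_pow, aeval_X, hσ, TT_eps]
    have key : ∀ i, i < p → h ((σ ^ i) φ₀) = 1 := by
      intro i hi
      rw [e0, Finset.sum_apply, Finset.sum_eq_single i]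
      · exact eps_self _
      · intro k hk hki
        rw [eps_of_ne]
        · intro h
          exact hki (hinj _ _ (Finset.mem_range.1 hk) hi h.symm)
        · exact hdis _ _ hi (Finset.mem_range.1 hk)
      · intro h
        exact absurd (Finset.mem_range.2 hi) h
    intro i hi
    refine ⟨key i hi, ?_⟩
    rw [← key i hi, e0, Finset.sum_apply, Finset.sum_apply, ← Finset.sum_neg_distrib]
    exact Finset.sum_congr rfl fun k _ => eps_odd _ _
  refine ⟨h, ?_, ?_, ?_⟩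
  · intro φ
    obtain ⟨i, hi, rfl | rfl⟩ := hall φ
    · rw [(hsum i hi).1, (hsum i hi).2]
    · rw [cj_cj, (hsum i hi).1, (hsum i hi).2]
      norm_num
  · intro φ
    obtain ⟨i, hi, rfl | rfl⟩ := hall φ
    · exact Or.inl (hsum i hi).1
    · exact Or.inr (hsum i hi).2
  · intro f hf
    have hBf := aeval_PB τ φ₀ p hinj hdis hall (hJ.odd f hf)
    rw [← hσ] at hBf
    set B := PB σ φ₀ p f with hB
    have hcyc : cyclotomic p ℚ = ∑ i ∈ Finset.range p, X ^ i := cyclotomic_prime ℚ p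
    have hirr : Irreducible (cyclotomic p ℚ) := cyclotomic.irreducible_rat hp.pos
    by_cases hdvd : cyclotomic p ℚ ∣ B
    · have hdeg : B.natDegree ≤ (cyclotomic p ℚ).natDegree := by
        rw [natDegree_cyclotomic, Nat.totient_prime hp]
        exact PB_natDegree σ φ₀ p f
      have hBt := eq_leadingCoeff_mul_of_monic_of_dvd_of_natDegree_le (cyclotomic.monic p ℚ)
        hdvd hdeg
      refine ⟨B.leadingCoeff, ?_⟩
      conv_lhs => rw [← hBf, hBt, map_mul, aeval_C, Module.End.mul_apply,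
        Module.algebraMap_end_apply, hcyc]
    · exfalso
      obtain ⟨u, v, huv⟩ := hirr.coprime_iff_not_dvd.2 hdvd
      have e1 : (X - 1) * v * B + u * (X ^ p - 1) = X - 1 := by
        have e2 : cyclotomic p ℚ * (X - 1) = X ^ p - 1 := by
          rw [hcyc]
          exact geom_sum_mul X p
        rw [← e2]
        linear_combination (X - 1) * huv
      have e3 := congrArg (fun P : ℚ[X] => aeval (TT σ) P (eps cj φ₀)) e1
      simp only [map_add, map_mul, map_sub, map_pow, aeval_X, map_one, LinearMap.add_apply,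
        LinearMap.sub_apply, Module.End.mul_apply, Module.End.one_apply] at e3
      rw [hBf, hTT, sub_self, _root_.add_zero] at e3
      have e4 : (TT σ - 1) (aeval (TT σ) v f) ∈ J := by
        have := aeval_mem hJ τ ((X - 1) * v) hf
        rw [map_mul, map_sub, aeval_X, map_one, ← hσ] at this
        exact this
      rw [LinearMap.sub_apply, Module.End.one_apply] at e4
      rw [e3] at e4
      have e5 : TT σ (eps cj φ₀) = eps cj (σ φ₀) := by
        have := TT_eps τ 1 φ₀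
        rwa [pow_one, pow_one] at this
      rw [e5] at e4
      exact hJ.small _ _ hφ₀ e4

end Pool.Agent.T9h38.CM
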