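import Pool.Agent.T9h38.CM.Trans

set_option autoImplicit false
set_option linter.unusedSectionVars false

/-!
# Products of CM fields
-/

open Module Polynomial

noncomputable section

namespace Pool.Agent.T9h38.CM

open Pool.Agent.Y102 Pool.Agent.W516.DR Pool.Agent.H204R3.GP Pool.Agent.W516.KC
  Pool.Agent.H204R3.SP Pool.Agent.TH119.MX Pool.Agent.R917

variable {I : Type} [Fintype I] {F : I → Type} [∀ i, Field (F i)] [∀ i, NumberField (F i)]
  [∀ i, NumberField.IsCMField (F i)]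

/-- The homomorphisms of the product. -/
abbrev Emb (F : I → Type) [∀ i, Field (F i)] : Type := Σ i, (F i →+* ℂ)

local instance decX : DecidableEq (Emb F) := Classical.decEq _

local instance decF (i : I) : DecidableEq (F i →+* ℂ) := Classical.decEq _

/-- The homomorphism. -/
def ch (x : Emb F) : (∀ i, F i) →+* ℂ := x.2.comp (Pi.evalRingHom F x.1)

/-- The complex conjugate. -/
def cc (x : Emb F) : Emb F := ⟨x.1, cj x.2⟩

theorem cc_cc (x : Emb F) : cc (cc x) = x := by
  unfold cc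
  simp only [cj_cj]

theorem ch_cc (x : Emb F) : ch (cc x) = (starRingEnd ℂ).comp (ch x) := rfl

theorem ch_single [DecidableEq I] (i : I) (φ : F i →+* ℂ) (j : I) (a : F j) :
    ch (⟨i, φ⟩ : Emb F) (Pi.single j a) = if h : j = i then φ (h ▸ a) else 0 := by
  change φ ((Pi.single j a : ∀ i, F i) i) = _
  by_cases h : j = i
  · subst h
    rw [Pi.single_eq_same, dif_pos rfl]
  · rw [Pi.single_eq_of_ne (Ne.symm h), map_zero, dif_neg h]

theorem ch_inj : Function.Injective (ch (F := F)) := by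
  classical
  rintro ⟨i, φ⟩ ⟨j, ψ⟩ h
  have h1 : ch (⟨i, φ⟩ : Emb F) (Pi.single i 1) = ch (⟨j, ψ⟩ : Emb F) (Pi.single i 1) := by rw [h]
  rw [ch_single, ch_single, dif_pos rfl] at h1
  by_cases hij : i = j
  · subst hij
    congr 1
    ext a
    have h2 : ch (⟨i, φ⟩ : Emb F) (Pi.single i a) = ch (⟨i, ψ⟩ : Emb F) (Pi.single i a) := by
      rw [h]
    rw [ch_single, ch_single, dif_pos rfl, dif_pos rfl] at h2
    exact h2
  · rw [dif_neg hij] at h1
    change φ 1 = 0 at h1
    rw [map_one] at h1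
    exact absurd h1 one_ne_zero

/-- The action on the homomorphisms. -/
def sg (τ : ℂ ≃+* ℂ) : Emb F ≃ Emb F := Equiv.sigmaCongrRight fun i => mvE (F := F i) τ

theorem sg_apply (τ : ℂ ≃+* ℂ) (i : I) (φ : F i →+* ℂ) : sg τ (⟨i, φ⟩ : Emb F) = ⟨i, mv τ φ⟩ := rfl

theorem sg_cc (τ : ℂ ≃+* ℂ) (x : Emb F) : sg τ (cc x) = cc (sg τ x) := by
  obtain ⟨i, φ⟩ := x
  unfold cc
  rw [sg_apply, sg_apply]
  simp only [mv_cj]

theorem ch_sg (τ : ℂ ≃+* ℂ) (x : Emb F) : ch (sg τ x) = (τ : ℂ →+* ℂ).comp (ch x) := rfl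

/-- The restriction to one factor of a space of functions. -/
def ext [DecidableEq I] (i : I) : ((F i →+* ℂ) → ℚ) →ₗ[ℚ] (Emb F → ℚ) where
  toFun f x := (Pi.single i f : ∀ j, (F j →+* ℂ) → ℚ) x.1 x.2
  map_add' f g := by
    funext x
    rw [Pi.single_add]
    rfl
  map_smul' r f := by
    funext x
    rw [Pi.single_smul]
    rfl

theorem ext_same [DecidableEq I] (i : I) (f : (F i →+* ℂ) → ℚ) (φ : F i →+* ℂ) :
    ext i f (⟨i, φ⟩ : Emb F) = f φ := by
  change (Pi.single i f : ∀ j, (F j →+* ℂ) → ℚ) i φ = _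
  rw [Pi.single_eq_same]

theorem ext_ne [DecidableEq I] {i j : I} (h : j ≠ i) (f : (F i →+* ℂ) → ℚ) (φ : F j →+* ℂ) :
    ext i f (⟨j, φ⟩ : Emb F) = 0 := by
  change (Pi.single i f : ∀ j, (F j →+* ℂ) → ℚ) j φ = _
  rw [Pi.single_eq_of_ne h, Pi.zero_apply]

/-- A space of relations for the product. -/
structure IsSmallP (J : Submodule ℚ (Emb F → ℚ)) : Prop where
  stable : ∀ (τ : ℂ ≃+* ℂ), ∀ f ∈ J, (fun x => f (sg τ x)) ∈ J
  odd : ∀ f ∈ J, ∀ x, f (cc x) = -f x
  small : ∀ x y : Emb F, x ≠ y → eps cc x - eps cc y ∉ J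

theorem ext_eps [DecidableEq I] (i : I) (φ : F i →+* ℂ) :
    ext i (eps cj φ) = eps cc (⟨i, φ⟩ : Emb F) := by
  funext x
  obtain ⟨j, ψ⟩ := x
  by_cases h : j = i
  · subst h
    rw [ext_same]
    unfold eps cc
    simp only [Sigma.mk.injEq, heq_eq_eq, true_and]
  · rw [ext_ne h]
    unfold eps cc
    rw [if_neg, if_neg, sub_zero]
    · intro h1
      exact h (congrArg Sigma.fst h1)
    · intro h1
      exact h (congrArg Sigma.fst h1)

theorem isSmall_comap [DecidableEq I] {J : Submodule ℚ (Emb F → ℚ)} (hJ : IsSmallP J) (i : I) :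
    IsSmall (J.comap (ext i)) := by
  refine ⟨fun τ f hf => ?_, fun f hf φ => ?_, fun φ ψ h hmem => ?_⟩
  · rw [Submodule.mem_comap] at hf ⊢
    have h1 := hJ.stable τ _ hf
    have h2 : (fun x => ext i f (sg τ x)) = ext i (fun φ => f (mv τ φ)) := by
      funext x
      obtain ⟨j, ψ⟩ := x
      by_cases h : j = i
      · subst h
        rw [sg_apply, ext_same, ext_same]
      · rw [sg_apply, ext_ne h, ext_ne h]
    rwa [h2] at h1
  · rw [Submodule.mem_comap] at hf
    have h1 := hJ.odd _ hf ⟨i, φ⟩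
    unfold cc at h1
    rw [ext_same, ext_same] at h1
    exact h1
  · rw [Submodule.mem_comap, map_sub, ext_eps, ext_eps] at hmem
    refine hJ.small _ _ (fun h1 => h ?_) hmem
    simpa using h1

/-- Different factors are disjoint. -/
def DisjointFields (F G : Type) [Field F] [Field G] : Prop :=
  ∀ (φ : F →+* ℂ) (ψ : G →+* ℂ), ∃ τ : ℂ ≃+* ℂ, (τ : ℂ →+* ℂ).comp φ = φ ∧
    (τ : ℂ →+* ℂ).comp ψ = (starRingEnd ℂ).comp ψ

/-- The components of a function in a space of relations. -/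
theorem component_mem [DecidableEq I] {J : Submodule ℚ (Emb F → ℚ)} (hJ : IsSmallP J)
    (hdis : ∀ i j, i ≠ j → DisjointFields (F i) (F j)) {f : Emb F → ℚ} (hf : f ∈ J) (i : I) :
    (fun φ => f ⟨i, φ⟩) ∈ J.comap (ext i) := by
  obtain ⟨K, hK⟩ := exists_kernel J
  have hinv : ∀ (τ : ℂ ≃+* ℂ) (x y : Emb F), K (sg τ x) (sg τ y) = K x y := by
    intro τ x y
    refine hK.inv (σ := sg τ) (fun f => ⟨hJ.stable τ f, fun hf => ?_⟩) x y
    have h1 := hJ.stable τ.symm _ hf
    have h2 : (fun x => (fun y => f (sg τ y)) (sg τ.symm x)) = f := by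
      funext x
      obtain ⟨j, ψ⟩ := x
      change f (sg τ (sg τ.symm ⟨j, ψ⟩)) = _
      rw [sg_apply, sg_apply, mv_symm]
    rwa [h2] at h1
  have hzero : ∀ (j k : I) (φ : F j →+* ℂ) (ψ : F k →+* ℂ), j ≠ k → K ⟨j, φ⟩ ⟨k, ψ⟩ = 0 := by
    intro j k φ ψ hjk
    obtain ⟨τ, h1, h2⟩ := hdis j k hjk φ ψ
    have h3 := hinv τ ⟨j, φ⟩ ⟨k, ψ⟩
    rw [sg_apply, sg_apply, show mv τ φ = φ from h1, show mv τ ψ = cj ψ from h2] at h3
    have h4 := hJ.odd _ (hK.mem ⟨j, φ⟩) ⟨k, ψ⟩
    change K ⟨j, φ⟩ ⟨k, cj ψ⟩ = _ at h4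
    linarith
  rw [Submodule.mem_comap]
  have h1 : ext i (fun φ => f ⟨i, φ⟩) = ∑ φ : F i →+* ℂ, f ⟨i, φ⟩ • K (⟨i, φ⟩ : Emb F) := by
    funext x
    obtain ⟨j, ψ⟩ := x
    rw [Finset.sum_apply]
    simp only [Pi.smul_apply, smul_eq_mul]
    by_cases h : j = i
    · subst h
      rw [ext_same]
      have h2 := hK.rep f hf ⟨j, ψ⟩
      rw [Fintype.sum_sigma, Finset.sum_eq_single j] at h2
      · rw [← h2]
        refine Finset.sum_congr rfl fun φ _ => ?_
        rw [hK.symm]
        ring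
      · intro k _ hk
        refine Finset.sum_eq_zero fun φ _ => ?_
        rw [hzero j k ψ φ hk.symm, zero_mul]
      · intro h
        exact absurd (Finset.mem_univ j) h
    · rw [ext_ne h]
      refine (Finset.sum_eq_zero fun φ _ => ?_).symm
      rw [hzero i j φ ψ (Ne.symm h), mul_zero]
  rw [h1]
  exact J.sum_mem fun φ _ => J.smul_mem _ (hK.mem _)

/-- The conditions on one factor. -/
def GoodType {F : Type} [Field F] [NumberField F] (Φ : (F →+* ℂ) → Prop) : Prop :=
  Irr F ∨ Separated F ∨ Cyclic2 F ∨ LowDegree Φ ∨ TransType Φ ∨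
    ∃ (x : F) (q : ℚ), q < 0 ∧ x ^ 2 = algebraMap ℚ F q ∧ DoublyTransitive x ∧ BalancedAt Φ x

theorem sum_eq_zero_of_good {F : Type} [Field F] [NumberField F] [NumberField.IsCMField F]
    {Φ : (F →+* ℂ) → Prop} (hΦ : ∀ φ, Φ (cj φ) ↔ ¬Φ φ)
    (hg : GoodType Φ) {J : Submodule ℚ ((F →+* ℂ) → ℚ)} (hJ : IsSmall J)
    {f : (F →+* ℂ) → ℚ} (hf : f ∈ J)
    {s : Finset (F →+* ℂ)} (hs : ∀ φ, φ ∈ s ↔ Φ φ) : ∑ φ ∈ s, f φ = 0 := by
  rcases hg with h | h | h | h | h | ⟨x, q, hq, hx, hd, hb⟩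
  · exact Finset.sum_eq_zero fun φ _ => eq_zero_of_irr h hJ hf φ
  · exact Finset.sum_eq_zero fun φ _ => eq_zero_of_separated h hJ hf φ
  · rw [eq_zero_of_cyclic2 h hJ hf]
    simp
  · exact sum_eq_zero_of_lowDegree hΦ h hJ hf hs
  · exact sum_eq_zero_of_transType hΦ h hJ hf hs
  · exact sum_eq_zero_of_doublyTransitive hq hx hd hΦ hb hJ hf hs

variable {g : ℕ} {A : AbVar g} {ι : (∀ i, F i) →+* Module.End ℚ A.H1}

/-- The data for a product of CM fields. -/
theorem dat (hinj : Function.Injective ι) (hdim : ∑ i, finrank ℚ (F i) = 2 * g)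
    (hend : ∀ P, IsDeRhamBettiEnd QBar A.dR P ↔ ∃ a, ι a = P) :
    Dat ι (ch (F := F)) cc := by
  classical
  refine ⟨ch_inj, ?_, hend, ?_, ch_cc, ?_⟩
  · rw [Fintype.card_sigma, ← hdim]
    exact Finset.sum_congr rfl fun i _ => NumberField.Embeddings.card (F i) ℂ
  · -- a cyclic vector
    have h1 : ∀ i, ∃ w : A.H1, ι (Pi.single i 1) w ≠ 0 := by
      intro i
      by_contra hcon
      push Not at hcon
      have h2 : ι (Pi.single i 1) = ι 0 := by
        rw [map_zero]
        exact LinearMap.ext hcon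
      have h3 := congrFun (hinj h2) i
      rw [Pi.single_eq_same, Pi.zero_apply] at h3
      exact one_ne_zero h3
    choose w hw using h1
    let v : A.H1 := ∑ i, ι (Pi.single i 1) (w i)
    refine ⟨v, ?_⟩
    have hproj : ∀ i, ι (Pi.single i 1) v = ι (Pi.single i 1) (w i) := by
      intro i
      change ι (Pi.single i 1) (∑ j, ι (Pi.single j 1) (w j)) = _
      rw [map_sum, Finset.sum_eq_single i]
      · rw [← Module.End.mul_apply, ← map_mul, ← Pi.single_mul, one_mul]
      · intro j _ hj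
        rw [← Module.End.mul_apply, ← map_mul]
        have h2 : (Pi.single i 1 * Pi.single j 1 : ∀ i, F i) = 0 := by
          funext k
          rw [Pi.mul_apply, Pi.zero_apply]
          by_cases hk : k = i
          · subst hk
            rw [Pi.single_eq_of_ne (Ne.symm hj), mul_zero]
          · rw [Pi.single_eq_of_ne hk, zero_mul]
        rw [h2, map_zero, LinearMap.zero_apply]
      · intro h
        exact absurd (Finset.mem_univ i) h
    let L : (∀ i, F i) →ₗ[ℚ] A.H1 :=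
      { toFun := fun a => ι a v
        map_add' := fun a b => by rw [map_add, LinearMap.add_apply]
        map_smul' := fun q a => by
          rw [iota_smul, LinearMap.smul_apply]
          rfl }
    have hL : Function.Injective L := by
      rw [injective_iff_map_eq_zero]
      intro a ha
      funext i
      by_contra hi
      change a i ≠ 0 at hi
      apply hw i
      rw [← hproj i]
      have h2 : (Pi.single i 1 : ∀ i, F i) = Pi.single i (a i)⁻¹ * a := by
        funext k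
        rw [Pi.mul_apply]
        by_cases hk : k = i
        · subst hk
          rw [Pi.single_eq_same, Pi.single_eq_same, inv_mul_cancel₀ hi]
        · rw [Pi.single_eq_of_ne hk, Pi.single_eq_of_ne hk, zero_mul]
      rw [h2, map_mul, Module.End.mul_apply]
      have h3 : ι a v = 0 := ha
      rw [h3, map_zero]
    have hfin : finrank ℚ (∀ i, F i) = finrank ℚ A.H1 := by
      rw [Module.finrank_pi_fintype, hdim]
      change _ = finrank ℚ (Fin (2 * g) → ℚ)
      rw [Module.finrank_fin_fun]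
    exact ⟨hL, (LinearMap.injective_iff_surjective_of_finrank_eq_finrank hfin).1 hL⟩
  · refine ⟨RingHom.pi fun i =>
      (NumberField.IsCMField.complexConj (F i) : F i →+* F i).comp (Pi.evalRingHom F i), ?_⟩
    rintro ⟨i, φ⟩
    refine RingHom.ext fun a => ?_
    change (starRingEnd ℂ) (φ (a i)) = φ (NumberField.IsCMField.complexConj (F i) (a i))
    rw [NumberField.IsCMField.complexEmbedding_complexConj]

theorem isType_cc (h : Dat ι (ch (F := F)) cc) (x : Emb F) :
    IsType ι (ch (cc x)) ↔ ¬IsType ι (ch x) := by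
  obtain ⟨δ, hδ, hδ'⟩ := exists_diag h
  have hI : (Complex.I : ℂ) ≠ -Complex.I := by
    intro h0
    have e1 : (2 : ℂ) * Complex.I = 0 := by linear_combination h0
    rcases mul_eq_zero.1 e1 with e2 | e2
    · exact two_ne_zero e2
    · exact Complex.I_ne_zero e2
  rw [type_iff h hδ, type_iff h hδ, delta_conj h hδ]
  rcases hδ' x with e1 | e1
  · rw [e1, Complex.conj_I]
    exact ⟨fun e => absurd e.symm hI, fun e => absurd rfl e⟩
  · rw [e1, map_neg, Complex.conj_I, neg_neg]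
    exact ⟨fun _ e => hI e.symm, fun _ => rfl⟩

/-- **Products.** -/
theorem explained (h : Dat ι (ch (F := F)) cc)
    (hdis : ∀ i j, i ≠ j → DisjointFields (F i) (F j))
    (hgood : ∀ i, GoodType fun φ : F i →+* ℂ => IsType ι (φ.comp (Pi.evalRingHom F i))) :
    Explained ι (ch (F := F)) cc := by
  classical
  intro J hst hodd hsm f hf s hs
  have hJ : IsSmallP J := ⟨fun τ => hst τ (sg τ) fun x => ch_sg τ x, hodd, hsm⟩
  have h1 : ∑ x ∈ s, f x = ∑ i, ∑ φ ∈ Finset.univ.filter (fun φ : F i →+* ℂ => (⟨i, φ⟩ : Emb F) ∈ s),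
      f ⟨i, φ⟩ := by
    have e : ∑ x ∈ s, f x = ∑ x, if x ∈ s then f x else 0 := by
      rw [Finset.sum_ite_mem, Finset.univ_inter]
    rw [e, Fintype.sum_sigma]
    refine Finset.sum_congr rfl fun i _ => ?_
    rw [Finset.sum_filter]
  rw [h1]
  refine Finset.sum_eq_zero fun i _ => ?_
  refine sum_eq_zero_of_good (Φ := fun φ : F i →+* ℂ => IsType ι (φ.comp (Pi.evalRingHom F i)))
    (fun φ => isType_cc h ⟨i, φ⟩) (hgood i) (isSmall_comap hJ i) (component_mem hJ hdis hf i)
    (fun φ => ?_)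
  rw [Finset.mem_filter, hs]
  exact ⟨fun h => h.2, fun h => ⟨Finset.mem_univ _, h⟩⟩

end Pool.Agent.T9h38.CM
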