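import Mathlib

set_option autoImplicit false
set_option linter.unusedSectionVars false

/-!
# Tori in algebraic groups of matrices

Let `R`, `R'` be inverse matrices. For an algebraic group `G` we consider the diagonal matrices `d` such
that `R d R'` is in `G`. A diagonal matrix which satisfies all relations `∏ d x ^ m x = 1` of this group
is in the group.
-/

open Matrix Finset

noncomputable section

namespace Pool.Agent.T9h38.CM

variable {X N : Type} [Fintype X] [DecidableEq X] [Fintype N] [DecidableEq N]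

/-- The conjugates of the diagonal matrices, as a ring homomorphism. -/
def dg (R : Matrix N X ℂ) (R' : Matrix X N ℂ) (h1 : R * R' = 1) (h2 : R' * R = 1) :
    (X → ℂ) →+* Matrix N N ℂ where
  toFun d := R * diagonal d * R'
  map_one' := by
    have : diagonal (1 : X → ℂ) = 1 := diagonal_one
    rw [this, Matrix.mul_one, h1]
  map_mul' a b := by
    have e : diagonal (a * b) = diagonal a * diagonal b := by
      rw [diagonal_mul_diagonal]
      rfl
    rw [e]
    have e1 : R * diagonal a * R' * (R * diagonal b * R') =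
        R * diagonal a * ((R' * R) * (diagonal b * R')) := by
      simp only [Matrix.mul_assoc]
    rw [e1, h2, Matrix.one_mul]
    simp only [Matrix.mul_assoc]
  map_zero' := by
    have : diagonal (0 : X → ℂ) = 0 := diagonal_zero
    rw [this, Matrix.mul_zero, Matrix.zero_mul]
  map_add' a b := by
    have e : diagonal (a + b) = diagonal a + diagonal b := by
      rw [diagonal_add]
      rfl
    rw [e, Matrix.mul_add, Matrix.add_mul]

variable {R : Matrix N X ℂ} {R' : Matrix X N ℂ} {h1 : R * R' = 1} {h2 : R' * R = 1}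

theorem dg_apply (d : X → ℂ) : dg R R' h1 h2 d = R * diagonal d * R' := rfl

theorem dg_entry (d : X → ℂ) (i j : N) : dg R R' h1 h2 d i j = ∑ x, R i x * R' x j * d x := by
  rw [dg_apply, Matrix.mul_apply]
  refine Finset.sum_congr rfl fun x _ => ?_
  rw [Matrix.mul_diagonal]
  ring

theorem continuous_dg : Continuous (dg R R' h1 h2) := by
  refine continuous_matrix fun i j => ?_
  simp only [dg_entry]
  fun_prop

section norms

attribute [local instance] Matrix.linftyOpNormedRing Matrix.linftyOpNormedAlgebra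

theorem dg_exp (t : X → ℂ) : dg R R' h1 h2 (fun x => Complex.exp (t x)) =
    NormedSpace.exp (dg R R' h1 h2 t) := by
  have h := NormedSpace.map_exp (dg R R' h1 h2) continuous_dg t
  refine Eq.trans (congrArg _ ?_) h
  funext x
  rw [Pi.coe_exp, Complex.exp_eq_exp_ℂ]

end norms

/-- The diagonal matrices `d`, with entries different from zero, such that `R d R'` is in the group. -/
def DD (R : Matrix N X ℂ) (R' : Matrix X N ℂ) (h1 : R * R' = 1) (h2 : R' * R = 1)
    (G : Subgroup (GL N ℂ)) : Subgroup (X → ℂˣ) where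
  carrier := {d | ∃ y ∈ G, (y : Matrix N N ℂ) = dg R R' h1 h2 fun x => (d x : ℂ)}
  one_mem' := ⟨1, G.one_mem, by
    have e : (fun x => (((1 : X → ℂˣ) x : ℂˣ) : ℂ)) = 1 := rfl
    rw [e, map_one, Units.val_one]⟩
  mul_mem' := by
    rintro a b ⟨y, hy, e⟩ ⟨z, hz, e'⟩
    refine ⟨y * z, G.mul_mem hy hz, ?_⟩
    rw [Units.val_mul, e, e', ← map_mul]
    rfl
  inv_mem' := by
    rintro a ⟨y, hy, e⟩
    refine ⟨y⁻¹, G.inv_mem hy, ?_⟩
    have e1 : ((y⁻¹ : GL N ℂ) : Matrix N N ℂ) * (y : Matrix N N ℂ) = 1 := y.inv_mul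
    have e2 : (y : Matrix N N ℂ) * dg R R' h1 h2 (fun x => ((a⁻¹ x : ℂˣ) : ℂ)) = 1 := by
      rw [e, ← map_mul]
      have : ((fun x => (a x : ℂ)) * fun x => ((a⁻¹ x : ℂˣ) : ℂ)) = 1 := by
        funext x
        simp
      rw [this, map_one]
    calc ((y⁻¹ : GL N ℂ) : Matrix N N ℂ)
        = ((y⁻¹ : GL N ℂ) : Matrix N N ℂ) *
          ((y : Matrix N N ℂ) * dg R R' h1 h2 (fun x => ((a⁻¹ x : ℂˣ) : ℂ))) := by
          rw [e2, Matrix.mul_one]
      _ = dg R R' h1 h2 (fun x => ((a⁻¹ x : ℂˣ) : ℂ)) := by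
          rw [← Matrix.mul_assoc, e1, Matrix.one_mul]

/-- The relations. -/
def Rl (D : Subgroup (X → ℂˣ)) (m : X → ℤ) : Prop := ∀ d ∈ D, ∏ x, d x ^ m x = 1

/-- The monomials, as characters. -/
def mono (D : Subgroup (X → ℂˣ)) (s : X →₀ ℕ) : D →* ℂ where
  toFun d := ∏ x, ((d : X → ℂˣ) x : ℂ) ^ s x
  map_one' := by simp
  map_mul' a b := by
    rw [← Finset.prod_mul_distrib]
    refine Finset.prod_congr rfl fun x _ => ?_
    rw [← mul_pow]
    rfl

/-- **Dedekind.** Polynomials which vanish on a group of diagonal matrices vanish at all diagonal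
matrices which satisfy the relations of the group. -/
theorem eval_zero (D : Subgroup (X → ℂˣ)) {d0 : X → ℂˣ}
    (h0 : ∀ m, Rl D m → ∏ x, d0 x ^ m x = 1) (F : MvPolynomial X ℂ)
    (hF : ∀ d ∈ D, MvPolynomial.eval (fun x => (d x : ℂ)) F = 0) :
    MvPolynomial.eval (fun x => (d0 x : ℂ)) F = 0 := by
  classical
  have hev : ∀ d : X → ℂˣ, MvPolynomial.eval (fun x => (d x : ℂ)) F =
      ∑ s ∈ F.support, F.coeff s * ∏ x, (d x : ℂ) ^ s x := fun d => MvPolynomial.eval_eq' _ _
  let a : (D →* ℂ) →₀ ℂ := ∑ s ∈ F.support, Finsupp.single (mono D s) (F.coeff s)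
  have ha : Finsupp.linearCombination ℂ (fun f : D →* ℂ => (f : D → ℂ)) a = 0 := by
    funext d
    simp only [a, map_sum, Finsupp.linearCombination_single, Finset.sum_apply, Pi.smul_apply,
      smul_eq_mul, Pi.zero_apply]
    have := hF d.1 d.2
    rw [hev] at this
    exact this
  have ha0 : a = 0 := by
    have hli := linearIndependent_monoidHom D ℂ
    exact (linearIndependent_iff.1 hli) a ha
  let w : (D →* ℂ) → ℂ := fun χ => if h : ∃ s : X →₀ ℕ, mono D s = χ then
    ∏ x, (d0 x : ℂ) ^ (h.choose x) else 0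
  have hw : ∀ s : X →₀ ℕ, w (mono D s) = ∏ x, (d0 x : ℂ) ^ s x := by
    intro s
    have hex : ∃ s' : X →₀ ℕ, mono D s' = mono D s := ⟨s, rfl⟩
    have e1 : w (mono D s) = ∏ x, (d0 x : ℂ) ^ (hex.choose x) := dif_pos hex
    rw [e1]
    have hs := hex.choose_spec
    set s' := hex.choose with hs'
    have hrel : Rl D fun x => (s' x : ℤ) - s x := by
      intro d hd
      have e2 := congrArg (fun f : D →* ℂ => f ⟨d, hd⟩) hs
      change ∏ x, (d x : ℂ) ^ s' x = ∏ x, (d x : ℂ) ^ s x at e2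
      have e3 : ∏ x, d x ^ s' x = ∏ x, d x ^ s x := by
        apply Units.ext
        push_cast
        exact e2
      rw [Finset.prod_congr rfl fun x _ => zpow_sub (d x) (s' x : ℤ) (s x : ℤ)]
      simp only [zpow_natCast]
      rw [Finset.prod_mul_distrib, Finset.prod_inv_distrib, e3, mul_inv_cancel]
    have e4 := h0 _ hrel
    rw [Finset.prod_congr rfl fun x _ => zpow_sub (d0 x) (s' x : ℤ) (s x : ℤ)] at e4
    simp only [zpow_natCast] at e4
    rw [Finset.prod_mul_distrib, Finset.prod_inv_distrib, mul_inv_eq_one] at e4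
    have e5 := congrArg (fun u : ℂˣ => (u : ℂ)) e4
    push_cast at e5
    exact e5
  rw [hev, Finset.sum_congr rfl fun s _ => by rw [← hw s]]
  have e6 := congrArg (Finsupp.linearCombination ℂ w) ha0
  simp only [a, map_sum, Finsupp.linearCombination_single, smul_eq_mul, map_zero] at e6
  exact e6

/-- A diagonal matrix which satisfies all relations of the torus is in the group. -/
theorem mem_of_rel {G : Subgroup (GL N ℂ)} (hG : ∃ S : Set (MvPolynomial (N × N) ℚ),
    ∀ x : GL N ℂ, x ∈ G ↔ ∀ p ∈ S, MvPolynomial.aeval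
      (fun b : N × N => (x : Matrix N N ℂ) b.1 b.2) p = 0) {d0 : X → ℂˣ}
    (h0 : ∀ m, Rl (DD R R' h1 h2 G) m → ∏ x, d0 x ^ m x = 1) : d0 ∈ DD R R' h1 h2 G := by
  obtain ⟨S, hS⟩ := hG
  -- the unit of the matrix ring
  have hun : ∀ d : X → ℂˣ, ∃ y : GL N ℂ, (y : Matrix N N ℂ) = dg R R' h1 h2 fun x => (d x : ℂ) := by
    intro d
    have e1 : dg R R' h1 h2 (fun x => (d x : ℂ)) * dg R R' h1 h2 (fun x => ((d⁻¹ x : ℂˣ) : ℂ)) = 1 := by
      rw [← map_mul]
      have : ((fun x => (d x : ℂ)) * fun x => ((d⁻¹ x : ℂˣ) : ℂ)) = 1 := by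
        funext x
        simp
      rw [this, map_one]
    have e2 : dg R R' h1 h2 (fun x => ((d⁻¹ x : ℂˣ) : ℂ)) * dg R R' h1 h2 (fun x => (d x : ℂ)) = 1 := by
      rw [← map_mul]
      have : ((fun x => ((d⁻¹ x : ℂˣ) : ℂ)) * fun x => (d x : ℂ)) = 1 := by
        funext x
        simp
      rw [this, map_one]
    exact ⟨⟨_, _, e1, e2⟩, rfl⟩
  obtain ⟨y, hy⟩ := hun d0
  refine ⟨y, (hS y).2 fun p hp => ?_, hy⟩
  let F : MvPolynomial X ℂ := MvPolynomial.aeval (fun b : N × N =>
    ∑ x, MvPolynomial.C (R b.1 x * R' x b.2) * MvPolynomial.X x) p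
  have hF : ∀ d : X → ℂ, MvPolynomial.eval d F = MvPolynomial.aeval (fun b : N × N =>
      dg R R' h1 h2 d b.1 b.2) p := by
    intro d
    have e1 : MvPolynomial.eval d F = ((MvPolynomial.aeval d : MvPolynomial X ℂ →ₐ[ℂ] ℂ).restrictScalars
        ℚ) F := rfl
    rw [e1]
    change (((MvPolynomial.aeval d : MvPolynomial X ℂ →ₐ[ℂ] ℂ).restrictScalars ℚ).comp
      (MvPolynomial.aeval _)) p = _
    rw [MvPolynomial.comp_aeval]
    congr 2
    funext b
    rw [AlgHom.restrictScalars_apply, map_sum, dg_entry]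
    refine Finset.sum_congr rfl fun x _ => ?_
    rw [map_mul, MvPolynomial.aeval_X, MvPolynomial.aeval_C]
    rfl
  have h3 := eval_zero (DD R R' h1 h2 G) h0 F fun d hd => by
    obtain ⟨z, hz, hz'⟩ := hd
    rw [hF, ← hz']
    exact (hS z).1 hz p hp
  rw [hF, ← hy] at h3
  exact h3

/-- The elements of the Lie algebra of the group which are diagonal satisfy the relations. -/
theorem rel_of_exp {G : Subgroup (GL N ℂ)} {t : X → ℂ}
    (ht : ∀ s : ℂ, ∃ y ∈ G, (y : Matrix N N ℂ) = NormedSpace.exp (s • dg R R' h1 h2 t)) {m : X → ℤ}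
    (hm : Rl (DD R R' h1 h2 G) m) : ∑ x, (m x : ℂ) * t x = 0 := by
  by_contra hne
  set c := ∑ x, (m x : ℂ) * t x with hc
  have key : ∀ s : ℂ, Complex.exp (s * c) = 1 := by
    intro s
    obtain ⟨y, hy, hy'⟩ := ht s
    let d : X → ℂˣ := fun x => Units.mk0 (Complex.exp (s * t x)) (Complex.exp_ne_zero _)
    have e1 : s • dg R R' h1 h2 t = dg R R' h1 h2 (fun x => s * t x) := by
      ext i j
      rw [Matrix.smul_apply, dg_entry, dg_entry, smul_eq_mul, Finset.mul_sum]
      exact Finset.sum_congr rfl fun x _ => by ring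
    have hd : d ∈ DD R R' h1 h2 G := ⟨y, hy, by
      rw [hy', e1, ← dg_exp]
      rfl⟩
    have e2 := congrArg (fun u : ℂˣ => (u : ℂ)) (hm d hd)
    push_cast at e2
    rw [← e2, hc, Finset.mul_sum, Complex.exp_sum]
    refine Finset.prod_congr rfl fun x _ => ?_
    change _ = Complex.exp (s * t x) ^ m x
    rw [← Complex.exp_int_mul]
    congr 1
    ring
  have h3 := key c⁻¹
  rw [inv_mul_cancel₀ hne] at h3
  have h4 := Real.exp_one_gt_d9
  have h5 : (Real.exp 1 : ℂ) = 1 := by
    rw [Complex.ofReal_exp, Complex.ofReal_one]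
    exact h3
  have h6 : Real.exp 1 = 1 := by exact_mod_cast h5
  rw [h6] at h4
  norm_num at h4

/-- The relations are stable under the automorphisms of the complex numbers. -/
theorem rel_stable {G : Subgroup (GL N ℂ)} (hG : ∃ S : Set (MvPolynomial (N × N) ℚ),
    ∀ x : GL N ℂ, x ∈ G ↔ ∀ p ∈ S, MvPolynomial.aeval
      (fun b : N × N => (x : Matrix N N ℂ) b.1 b.2) p = 0) (τ : ℂ ≃+* ℂ) (σ : X ≃ X)
    (hR : ∀ i x, τ (R i x) = R i (σ x)) {m : X → ℤ} (hm : Rl (DD R R' h1 h2 G) m) :
    Rl (DD R R' h1 h2 G) fun x => m (σ x) := by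
  obtain ⟨S, hS⟩ := hG
  -- the action on the inverse matrix
  have hR' : ∀ x i, τ (R' x i) = R' (σ x) i := by
    have e1 : (Matrix.of fun x i => τ (R' (σ.symm x) i)) * R = (1 : Matrix X X ℂ) := by
      ext x y
      rw [Matrix.mul_apply]
      have e2 := congrArg τ (congrFun (congrFun h2 (σ.symm x)) (σ.symm y))
      rw [Matrix.mul_apply, map_sum] at e2
      simp only [map_mul, hR, Equiv.apply_symm_apply] at e2
      simp only [Matrix.of_apply]
      rw [e2, Matrix.one_apply, Matrix.one_apply]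
      simp only [EmbeddingLike.apply_eq_iff_eq]
      split_ifs <;> simp
    have e3 : (Matrix.of fun x i => τ (R' (σ.symm x) i)) = R' := by
      calc (Matrix.of fun x i => τ (R' (σ.symm x) i))
          = (Matrix.of fun x i => τ (R' (σ.symm x) i)) * (R * R') := by rw [h1, Matrix.mul_one]
        _ = R' := by rw [← Matrix.mul_assoc, e1, Matrix.one_mul]
    intro x i
    have e4 := congrFun (congrFun e3 (σ x)) i
    rw [Matrix.of_apply, Equiv.symm_apply_apply] at e4
    exact e4
  intro d hd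
  obtain ⟨y, hy, hy'⟩ := hd
  let d' : X → ℂˣ := fun x => Units.map (τ : ℂ →* ℂ) (d (σ.symm x))
  have hd' : d' ∈ DD R R' h1 h2 G := by
    refine ⟨Matrix.GeneralLinearGroup.map (τ : ℂ →+* ℂ) y, (hS _).2 fun p hp => ?_, ?_⟩
    · have e1 := (hS y).1 hy p hp
      have e2 := congrArg (τ : ℂ →+* ℂ) e1
      rw [map_zero] at e2
      rw [← e2, MvPolynomial.aeval_def, MvPolynomial.aeval_def, MvPolynomial.hom_eval₂]
      congr 1
      exact Subsingleton.elim _ _
    · ext i j
      have e1 : (Matrix.GeneralLinearGroup.map (τ : ℂ →+* ℂ) y : Matrix N N ℂ) i j =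
          τ ((y : Matrix N N ℂ) i j) := rfl
      rw [e1, hy', dg_entry, dg_entry, map_sum]
      conv_rhs => rw [← Equiv.sum_comp σ]
      refine Finset.sum_congr rfl fun x _ => ?_
      rw [map_mul, map_mul, hR, hR']
      simp only [d', Equiv.symm_apply_apply]
      rfl
  have e1 := hm d' hd'
  rw [← Equiv.prod_comp σ] at e1
  simp only [d', Equiv.symm_apply_apply] at e1
  apply Units.ext
  have e2 := congrArg (fun u : ℂˣ => (u : ℂ)) e1
  push_cast at e2 ⊢
  have e3 : τ (∏ x, (d x : ℂ) ^ m (σ x)) = 1 := by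
    rw [map_prod, ← e2]
    refine Finset.prod_congr rfl fun x _ => ?_
    rw [map_zpow₀]
    rfl
  have e4 : τ (∏ x, (d x : ℂ) ^ m (σ x)) = τ 1 := by rw [e3, map_one]
  exact τ.injective e4

end Pool.Agent.T9h38.CM
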