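import Pool.Agent.T9h38.CM.Cyc

set_option autoImplicit false
set_option linter.unusedSectionVars false

/-!
# Fields whose maximal real subfield has a doubly or triply transitive Galois group
-/

open Module

noncomputable section

namespace Pool.Agent.T9h38.CM

variable {F : Type} [Field F] [NumberField F]

local instance decE6 : DecidableEq (F →+* ℂ) := Classical.decEq _

/-- The embeddings are equal on the maximal real subfield. -/
def Same (φ ψ : F →+* ℂ) : Prop := ψ = φ ∨ ψ = cj φ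

/-- Double transitivity on the pairs of conjugate embeddings. -/
def Trans2 (F : Type) [Field F] : Prop :=
  ∀ φ ψ φ' ψ' : F →+* ℂ, ¬Same φ ψ → ¬Same φ' ψ' →
    ∃ τ : ℂ ≃+* ℂ, Same φ' ((τ : ℂ →+* ℂ).comp φ) ∧ Same ψ' ((τ : ℂ →+* ℂ).comp ψ)

/-- Triple transitivity on the pairs of conjugate embeddings. -/
def Trans3 (F : Type) [Field F] : Prop :=
  ∀ φ ψ χ φ' ψ' χ' : F →+* ℂ, ¬Same φ ψ → ¬Same φ χ → ¬Same ψ χ →
    ¬Same φ' ψ' → ¬Same φ' χ' → ¬Same ψ' χ' →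
    ∃ τ : ℂ ≃+* ℂ, Same φ' ((τ : ℂ →+* ℂ).comp φ) ∧ Same ψ' ((τ : ℂ →+* ℂ).comp ψ) ∧
      Same χ' ((τ : ℂ →+* ℂ).comp χ)

theorem Same.symm {φ ψ : F →+* ℂ} (h : Same φ ψ) : Same ψ φ := by
  rcases h with h | h
  · exact Or.inl h.symm
  · exact Or.inr (by rw [h, cj_cj])

section CMField

variable [NumberField.IsCMField F] {J : Submodule ℚ ((F →+* ℂ) → ℚ)}
  {K : (F →+* ℂ) → (F →+* ℂ) → ℚ}

theorem ker_sign (hJ : IsSmall J) (hK : IsKer J K) {φ φ' ψ : F →+* ℂ} (h : Same φ' φ) :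
    (K φ ψ = K φ' ψ ∧ K ψ φ = K ψ φ') ∨ (K φ ψ = -K φ' ψ ∧ K ψ φ = -K ψ φ') := by
  rcases h with rfl | rfl
  · exact Or.inl ⟨rfl, rfl⟩
  · exact Or.inr ⟨(ker_cj hJ hK _ _).2, (ker_cj hJ hK _ _).1⟩

theorem ker_sq_const (hJ : IsSmall J) (hK : IsKer J K) (ht : Trans2 F) {φ ψ φ' ψ' : F →+* ℂ}
    (h : ¬Same φ ψ) (h' : ¬Same φ' ψ') : K φ ψ ^ 2 = K φ' ψ' ^ 2 := by
  obtain ⟨τ, h1, h2⟩ := ht φ ψ φ' ψ' h h'
  have e0 : K φ ψ = K (mv τ φ) (mv τ ψ) := (ker_inv hJ hK τ φ ψ).symm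
  have e1 : K (mv τ φ) (mv τ ψ) ^ 2 = K φ' (mv τ ψ) ^ 2 := by
    rcases ker_sign hJ hK (ψ := mv τ ψ) h1 with ⟨h3, _⟩ | ⟨h3, _⟩
    · exact congrArg (· ^ 2) h3
    · have : K (mv τ φ) (mv τ ψ) = -K φ' (mv τ ψ) := h3
      rw [this, neg_sq]
  have e2 : K φ' (mv τ ψ) ^ 2 = K φ' ψ' ^ 2 := by
    rcases ker_sign hJ hK (ψ := φ') h2 with ⟨_, h3⟩ | ⟨_, h3⟩
    · exact congrArg (· ^ 2) h3
    · have : K φ' (mv τ ψ) = -K φ' ψ' := h3
      rw [this, neg_sq]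
  rw [e0, e1, e2]

/-- Sums over the embeddings which are not equal or conjugate to a given embedding. -/
theorem sum_split (φ : F →+* ℂ) (G : (F →+* ℂ) → ℚ) :
    ∑ ψ, G ψ = G φ + G (cj φ) + ∑ ψ ∈ ({φ, cj φ} : Finset (F →+* ℂ))ᶜ, G ψ := by
  rw [← Finset.sum_add_sum_compl ({φ, cj φ} : Finset (F →+* ℂ)), Finset.sum_pair (cj_ne φ).symm]

theorem card_compl (φ : F →+* ℂ) :
    ((({φ, cj φ} : Finset (F →+* ℂ))ᶜ.card : ℕ) : ℚ) = finrank ℚ F - 2 := by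
  have h1 := Finset.card_add_card_compl ({φ, cj φ} : Finset (F →+* ℂ))
  rw [Finset.card_pair (cj_ne φ).symm, NumberField.Embeddings.card F ℂ] at h1
  have h2 : (2 : ℚ) + (({φ, cj φ} : Finset (F →+* ℂ))ᶜ.card : ℕ) = finrank ℚ F := by
    exact_mod_cast h1
  linarith

theorem mem_compl_pair {φ ψ : F →+* ℂ} :
    ψ ∈ ({φ, cj φ} : Finset (F →+* ℂ))ᶜ ↔ ¬Same φ ψ := by
  simp [Same]

/-- The common value of the squares of the kernel. -/
theorem ker_sq_value (hJ : IsSmall J) (hK : IsKer J K) (ht : Trans2 F) {φ ψ : F →+* ℂ}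
    (h : ¬Same φ ψ) : K φ φ = 2 * K φ φ ^ 2 + (finrank ℚ F - 2) * K φ ψ ^ 2 := by
  have h1 := ker_sq hK φ
  rw [sum_split φ, (ker_cj hJ hK φ φ).1, neg_sq] at h1
  have h2 : ∀ χ ∈ ({φ, cj φ} : Finset (F →+* ℂ))ᶜ, K φ χ ^ 2 = K φ ψ ^ 2 := by
    intro χ hχ
    exact ker_sq_const hJ hK ht (mem_compl_pair.1 hχ) h
  rw [Finset.sum_congr rfl h2, Finset.sum_const, nsmul_eq_mul, card_compl] at h1
  linarith

theorem exists_notSame (hF : 4 ≤ finrank ℚ F) (φ : F →+* ℂ) : ∃ ψ, ¬Same φ ψ := by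
  have h1 := card_compl φ
  have h2 : (4 : ℚ) ≤ finrank ℚ F := by exact_mod_cast hF
  have h3 : (0 : ℚ) < (({φ, cj φ} : Finset (F →+* ℂ))ᶜ.card : ℕ) := by rw [h1]; linarith
  have h4 : 0 < (({φ, cj φ} : Finset (F →+* ℂ))ᶜ.card : ℕ) := by exact_mod_cast h3
  obtain ⟨ψ, hψ⟩ := Finset.card_pos.1 h4
  exact ⟨ψ, mem_compl_pair.1 hψ⟩

/-- **Doubly transitive fields.** -/
theorem finrank_le_one_of_trans2 (hJ : IsSmall J) (ht : Trans2 F) {g : ℕ}
    (hg : finrank ℚ F = 2 * g)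
    (hsq : ∀ n : ℕ, 2 ≤ n → n + 2 ≤ g → ¬IsSquare (n * (g - n) * (g - 1))) :
    finrank ℚ J ≤ 1 := by
  have h1 := finrank_lt hJ
  by_contra hcon
  push Not at hcon
  have hg2 : 2 < g := by omega
  have h2 := finrank_ne hJ (by omega)
  set n := finrank ℚ J with hn
  obtain ⟨K, hK⟩ := exists_kernel J
  obtain ⟨φ⟩ : Nonempty (F →+* ℂ) := inferInstance
  obtain ⟨ψ, hψ⟩ := exists_notSame (by omega) φ
  have h3 := ker_sq_value hJ hK ht hψ
  have h4 := ker_diag hJ hK φ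
  rw [hg, ← hn] at h4
  rw [hg] at h3
  apply hsq n (by omega) (by omega)
  have hgn : ((g - n : ℕ) : ℚ) = g - n := by
    push_cast [Nat.cast_sub (show n ≤ g by omega)]
    ring
  have hg1 : ((g - 1 : ℕ) : ℚ) = g - 1 := by
    push_cast [Nat.cast_sub (show 1 ≤ g by omega)]
    ring
  have key : ((n * (g - n) * (g - 1) : ℕ) : ℚ) = (2 * g * (g - 1) * K φ ψ) ^ 2 := by
    rw [Nat.cast_mul, Nat.cast_mul, hgn, hg1]
    push_cast at h3 h4
    rw [← h4]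
    linear_combination (2 * (g : ℚ) ^ 2 * (g - 1)) * h3
  have h5 : IsSquare ((n * (g - n) * (g - 1) : ℕ) : ℚ) := ⟨_, by rw [key, pow_two]⟩
  exact Rat.isSquare_natCast_iff.1 h5

/-- **Triply transitive fields.** -/
theorem finrank_le_one_of_trans3 (hJ : IsSmall J) (hF : 6 ≤ finrank ℚ F) (ht3 : Trans3 F) :
    finrank ℚ J ≤ 1 := by
  have h1 := finrank_lt hJ
  by_contra hcon
  push Not at hcon
  have h2 := finrank_ne hJ (by omega)
  obtain ⟨K, hK⟩ := exists_kernel J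
  have hthird : ∀ φ ψ : F →+* ℂ, ∃ χ, ¬Same φ χ ∧ ¬Same ψ χ := by
    intro φ ψ
    by_contra hc
    push Not at hc
    have h3 : ({φ, cj φ} : Finset (F →+* ℂ))ᶜ ⊆ {ψ, cj ψ} := by
      intro χ hχ
      have := hc χ (mem_compl_pair.1 hχ)
      simpa [Same] using this
    have h4 := Finset.card_le_card h3
    rw [Finset.card_pair (cj_ne ψ).symm] at h4
    have h5 := card_compl φ
    have h6 : ((({φ, cj φ} : Finset (F →+* ℂ))ᶜ.card : ℕ) : ℚ) ≤ 2 := by exact_mod_cast h4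
    have h7 : (6 : ℚ) ≤ finrank ℚ F := by exact_mod_cast hF
    linarith
  have ht : Trans2 F := by
    intro φ ψ φ' ψ' h h'
    obtain ⟨χ, c1, c2⟩ := hthird φ ψ
    obtain ⟨χ', c3, c4⟩ := hthird φ' ψ'
    obtain ⟨τ, d1, d2, _⟩ := ht3 φ ψ χ φ' ψ' χ' h c1 c2 h' c3 c4
    exact ⟨τ, d1, d2⟩
  obtain ⟨φ⟩ : Nonempty (F →+* ℂ) := inferInstance
  obtain ⟨ψ, hψ⟩ := exists_notSame (by omega) φ
  obtain ⟨χ, hχ1, hχ2⟩ := hthird φ ψ
  -- the triple product
  set t : ℚ := K φ χ * K χ ψ * K ψ φ with ht'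
  have htrip : ∀ χ', ¬Same φ χ' → ¬Same ψ χ' → K φ χ' * K χ' ψ * K ψ φ = t := by
    intro χ' c1 c2
    obtain ⟨τ, d1, d2, d3⟩ := ht3 φ ψ χ' φ ψ χ hψ c1 c2 hψ hχ1 hχ2
    have e1 : K φ χ' * K χ' ψ * K ψ φ =
        K (mv τ φ) (mv τ χ') * K (mv τ χ') (mv τ ψ) * K (mv τ ψ) (mv τ φ) := by
      rw [ker_inv hJ hK, ker_inv hJ hK, ker_inv hJ hK]
    have f1 : K (mv τ φ) (mv τ χ') * K (mv τ χ') (mv τ ψ) * K (mv τ ψ) (mv τ φ) =
        K φ (mv τ χ') * K (mv τ χ') (mv τ ψ) * K (mv τ ψ) φ := by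
      rcases d1 with d | d
      · rw [show mv τ φ = φ from d]
      · rw [show mv τ φ = cj φ from d, (ker_cj hJ hK _ _).1, (ker_cj hJ hK _ _).2]
        ring
    have f2 : K φ (mv τ χ') * K (mv τ χ') (mv τ ψ) * K (mv τ ψ) φ =
        K φ (mv τ χ') * K (mv τ χ') ψ * K ψ φ := by
      rcases d2 with d | d
      · rw [show mv τ ψ = ψ from d]
      · rw [show mv τ ψ = cj ψ from d, (ker_cj hJ hK _ _).1, (ker_cj hJ hK _ _).2]
        ring
    have f3 : K φ (mv τ χ') * K (mv τ χ') ψ * K ψ φ = t := by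
      rw [ht']
      rcases d3 with d | d
      · rw [show mv τ χ' = χ from d]
      · rw [show mv τ χ' = cj χ from d, (ker_cj hJ hK _ _).1, (ker_cj hJ hK _ _).2]
        ring
    rw [e1, f1, f2, f3]
  -- the constants
  set N : ℚ := ((finrank ℚ F : ℕ) : ℚ) with hN
  set a := K φ φ with ha
  set b := K φ ψ with hb
  have hdiag : ∀ χ : F →+* ℂ, K χ χ = a := by
    intro χ
    have e1 := ker_diag hJ hK χ
    have e2 := ker_diag hJ hK φ
    have hpos : (0 : ℚ) < finrank ℚ F := by exact_mod_cast finrank_pos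
    rw [← e2] at e1
    exact mul_right_cancel₀ hpos.ne' e1
  have hval : a = 2 * a ^ 2 + (N - 2) * b ^ 2 := ker_sq_value hJ hK ht hψ
  have hNpos : 6 ≤ N := by rw [hN]; exact_mod_cast hF
  have haN : a * N = finrank ℚ J := ker_diag hJ hK φ
  have ha1 : 2 * a < 1 := by
    have e1 : (2 * finrank ℚ J : ℚ) < N := by rw [hN]; exact_mod_cast h1
    rw [← haN] at e1
    by_contra h0
    push Not at h0
    nlinarith
  have ha0 : 0 < a := by
    have e1 : (0 : ℚ) < finrank ℚ J := by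
      have : 0 < finrank ℚ J := by omega
      exact_mod_cast this
    rw [← haN] at e1
    by_contra h0
    push Not at h0
    nlinarith
  have hb0 : b ≠ 0 := by
    intro h0
    rw [h0] at hval
    have : a * (1 - 2 * a) = 0 := by linear_combination hval
    rcases mul_eq_zero.1 this with h | h
    · exact ha0.ne' h
    · linarith
  -- the square of the triple product
  have htsq : t ^ 2 = b ^ 6 := by
    have e1 : K φ χ ^ 2 = b ^ 2 := ker_sq_const hJ hK ht hχ1 hψ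
    have e2 : K χ ψ ^ 2 = b ^ 2 := ker_sq_const hJ hK ht (fun h => hχ2 h.symm) hψ
    have e3 : K ψ φ ^ 2 = b ^ 2 := ker_sq_const hJ hK ht (fun h => hψ h.symm) hψ
    rw [ht', mul_pow, mul_pow, e1, e2, e3]
    ring
  -- the linear relation
  have hlin : b ^ 2 = 4 * a * b ^ 2 + (N - 4) * t := by
    have e1 := hK.idem φ ψ
    have e2 : ∑ χ', K φ χ' * K χ' ψ * K ψ φ = b ^ 2 := by
      rw [← Finset.sum_mul, e1, hK.symm ψ φ, pow_two]
    rw [sum_split φ] at e2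
    have e3 : ({φ, cj φ} : Finset (F →+* ℂ))ᶜ = {ψ, cj ψ} ∪ ({φ, cj φ} ∪ {ψ, cj ψ})ᶜ := by
      ext χ
      have hφψ := hψ
      simp only [Same, not_or] at hφψ
      simp only [Finset.mem_compl, Finset.mem_insert, Finset.mem_singleton, Finset.mem_union,
        not_or]
      constructor
      · rintro ⟨c1, c2⟩
        by_cases c3 : χ = ψ
        · exact Or.inl (Or.inl c3)
        · by_cases c4 : χ = cj ψ
          · exact Or.inl (Or.inr c4)
          · exact Or.inr ⟨⟨c1, c2⟩, c3, c4⟩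
      · rintro ((rfl | rfl) | ⟨⟨c1, c2⟩, _⟩)
        · exact hφψ
        · refine ⟨fun h => hφψ.2 (by rw [← h, cj_cj]), fun h => hφψ.1 (cj_inj h)⟩
        · exact ⟨c1, c2⟩
    have hdisj : Disjoint ({ψ, cj ψ} : Finset (F →+* ℂ)) ({φ, cj φ} ∪ {ψ, cj ψ})ᶜ := by
      rw [Finset.disjoint_left]
      intro χ hχ hχ'
      rw [Finset.mem_compl, Finset.mem_union] at hχ'
      exact hχ' (Or.inr hχ)
    have hcard : ((({φ, cj φ} ∪ {ψ, cj ψ} : Finset (F →+* ℂ))ᶜ.card : ℕ) : ℚ) = N - 4 := by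
      have c1 := card_compl φ
      rw [e3, Finset.card_union_of_disjoint hdisj, Finset.card_pair (cj_ne ψ).symm] at c1
      push_cast at c1
      linarith
    rw [e3, Finset.sum_union hdisj, Finset.sum_pair (cj_ne ψ).symm] at e2
    have e4 : ∀ χ' ∈ (({φ, cj φ} ∪ {ψ, cj ψ} : Finset (F →+* ℂ)))ᶜ,
        K φ χ' * K χ' ψ * K ψ φ = t := by
      intro χ' hχ'
      rw [Finset.mem_compl, Finset.mem_union, not_or] at hχ'
      refine htrip χ' (mem_compl_pair.1 (Finset.mem_compl.2 hχ'.1))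
        (mem_compl_pair.1 (Finset.mem_compl.2 hχ'.2))
    rw [Finset.sum_congr rfl e4, Finset.sum_const, nsmul_eq_mul, hcard,
      (ker_cj hJ hK φ φ).1, (ker_cj hJ hK φ ψ).2, (ker_cj hJ hK φ ψ).1, (ker_cj hJ hK ψ ψ).2,
      hdiag ψ, hK.symm ψ φ] at e2
    linear_combination -e2
  -- elimination
  have hN4 : N - 4 ≠ 0 := by
    have : 2 ≤ N - 4 := by linarith
    linarith
  have hb2 : b ^ 2 ≠ 0 := pow_ne_zero 2 hb0
  have k1 : (N - 4) ^ 2 * b ^ 2 = (1 - 4 * a) ^ 2 := by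
    have e1 : (N - 4) * t = b ^ 2 * (1 - 4 * a) := by linear_combination -hlin
    have e2 : (N - 4) ^ 2 * t ^ 2 = b ^ 4 * (1 - 4 * a) ^ 2 := by
      linear_combination ((N - 4) * t + b ^ 2 * (1 - 4 * a)) * e1
    rw [htsq] at e2
    have e3 : b ^ 2 * b ^ 2 * ((N - 4) ^ 2 * b ^ 2 - (1 - 4 * a) ^ 2) = 0 := by
      linear_combination e2
    rcases mul_eq_zero.1 e3 with h | h
    · exact absurd h (mul_ne_zero hb2 hb2)
    · linear_combination h
  -- `a * N = n`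
  set n : ℚ := ((finrank ℚ J : ℕ) : ℚ) with hn
  have k2 : (N - 2) * (1 - 4 * a) ^ 2 = (N - 4) ^ 2 * (a - 2 * a ^ 2) := by
    rw [← k1]
    linear_combination (-(N - 4) ^ 2) * hval
  have k3 : (n - 1) * (N - 2 - 2 * n) = 0 := by
    have hNne : N ≠ 0 := by linarith
    have e1 : N ^ 2 * ((n - 1) * (N - 2 - 2 * n)) = 0 := by
      rw [← haN]
      linear_combination (-N ^ 2) * k2
    rcases mul_eq_zero.1 e1 with h | h
    · exact absurd h (pow_ne_zero 2 hNne)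
    · exact h
  rcases mul_eq_zero.1 k3 with h | h
  · have : n = 1 := by linarith
    rw [hn] at this
    have : finrank ℚ J = 1 := by exact_mod_cast this
    omega
  · apply h2
    have e1 : 2 * n + 2 = N := by linarith
    rw [hn, hN] at e1
    exact_mod_cast e1

/-- The conditions on the Galois group of the maximal real subfield. -/
def TransType (Φ : (F →+* ℂ) → Prop) : Prop :=
  Balanced Φ ∧ ((6 ≤ finrank ℚ F ∧ Trans3 F) ∨
    (Trans2 F ∧ ∃ g : ℕ, finrank ℚ F = 2 * g ∧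
      ∀ n : ℕ, 2 ≤ n → n + 2 ≤ g → ¬IsSquare (n * (g - n) * (g - 1))))

theorem sum_eq_zero_of_transType {Φ : (F →+* ℂ) → Prop} (hΦ : ∀ φ, Φ (cj φ) ↔ ¬Φ φ)
    (hl : TransType Φ) (hJ : IsSmall J)
    {f : (F →+* ℂ) → ℚ} (hf : f ∈ J)
    {s : Finset (F →+* ℂ)} (hs : ∀ φ, φ ∈ s ↔ Φ φ) : ∑ φ ∈ s, f φ = 0 := by
  have h1 : finrank ℚ J ≤ 1 := by
    rcases hl.2 with ⟨h6, h3⟩ | ⟨h2, g, hg, hsq⟩
    · exact finrank_le_one_of_trans3 hJ h6 h3
    · exact finrank_le_one_of_trans2 hJ h2 hg hsq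
  have h4 : finrank ℚ J = 0 ∨ finrank ℚ J = 1 := by omega
  rcases h4 with h4 | h4
  · have h3 : J = ⊥ := Submodule.finrank_eq_zero.1 h4
    rw [h3, Submodule.mem_bot] at hf
    rw [hf]
    simp
  · exact sum_of_finrank_one hΦ hl.1 hJ h4 hf hs

end CMField

end Pool.Agent.T9h38.CM
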