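import Pool.Agent.T9h38.CM.Fam

set_option autoImplicit false
set_option linter.unusedSectionVars false

/-!
# Types of Weil type
-/

open Module

noncomputable section

namespace Pool.Agent.T9h38.CM

variable {F : Type} [Field F] [NumberField F]

local instance decE' : DecidableEq (F →+* ℂ) := Classical.decEq _

/-- The type `Φ` is balanced with respect to the imaginary quadratic number `x`: both extensions of
the embeddings of `ℚ(x)` occur with the same multiplicity. -/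
def BalancedAt (Φ : (F →+* ℂ) → Prop) (x : F) : Prop :=
  ∀ κ : ℂ, Nat.card {φ : F →+* ℂ // φ x = κ ∧ Φ φ} = Nat.card {φ : F →+* ℂ // φ x = κ ∧ ¬Φ φ}

section CMField

variable [NumberField.IsCMField F]

/-- The sum of a sign function over a balanced type. -/
theorem sum_balanced {Φ : (F →+* ℂ) → Prop} (hΦ : ∀ φ, Φ (cj φ) ↔ ¬Φ φ) {x : F}
    (hb : BalancedAt Φ x) {h : (F →+* ℂ) → ℚ} {κ : ℂ} (h1 : ∀ φ, φ x = κ → h φ = 1)
    (h2 : ∀ φ, φ x ≠ κ → h φ = -1) (h3 : ∀ φ : F →+* ℂ, cj φ x = κ ↔ φ x ≠ κ) {s : Finset (F →+* ℂ)}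
    (hs : ∀ φ, φ ∈ s ↔ Φ φ) : ∑ φ ∈ s, h φ = 0 := by
  classical
  have e1 := hb κ
  rw [Nat.card_eq_fintype_card, Nat.card_eq_fintype_card, Fintype.card_subtype,
    Fintype.card_subtype] at e1
  have e2 : (Finset.univ.filter fun φ : F →+* ℂ => φ x = κ ∧ Φ φ) = s.filter fun φ => φ x = κ := by
    ext φ
    simp only [Finset.mem_filter, Finset.mem_univ, true_and, hs]
    tauto
  have e3 : (Finset.univ.filter fun φ : F →+* ℂ => φ x = κ ∧ ¬Φ φ).card =
      (s.filter fun φ => ¬φ x = κ).card := by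
    refine Finset.card_bij' (fun φ _ => cj φ) (fun φ _ => cj φ) ?_ ?_ ?_ ?_
    · intro φ hφ
      simp only [Finset.mem_filter, Finset.mem_univ, true_and, hs] at hφ ⊢
      rw [hΦ]
      refine ⟨hφ.2, ?_⟩
      rw [h3]
      exact fun h => h hφ.1
    · intro φ hφ
      simp only [Finset.mem_filter, Finset.mem_univ, true_and, hs] at hφ ⊢
      rw [hΦ, h3]
      exact ⟨hφ.2, fun h => h hφ.1⟩
    · intro φ _
      exact cj_cj φ
    · intro φ _
      exact cj_cj φ
  rw [e2, e3] at e1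
  rw [← Finset.sum_filter_add_sum_filter_not s (fun φ : F →+* ℂ => φ x = κ)]
  have e4 : ∑ φ ∈ s with φ x = κ, h φ = ((s.filter fun φ => φ x = κ).card : ℚ) := by
    rw [Finset.sum_congr rfl fun φ hφ => h1 φ (Finset.mem_filter.1 hφ).2, Finset.sum_const]
    simp
  have e5 : ∑ φ ∈ s with ¬φ x = κ, h φ = -((s.filter fun φ => ¬φ x = κ).card : ℚ) := by
    rw [Finset.sum_congr rfl fun φ hφ => h2 φ (Finset.mem_filter.1 hφ).2, Finset.sum_const]
    simp
  rw [e4, e5, e1]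
  ring

theorem map_rat (φ : F →+* ℂ) (q : ℚ) : φ (algebraMap ℚ F q) = (q : ℂ) := by
  have : φ.comp (algebraMap ℚ F) = Rat.castHom ℂ := Subsingleton.elim _ _
  exact congrArg (fun f : ℚ →+* ℂ => f q) this

theorem val_dichotomy {x : F} {q : ℚ} (hq : q < 0) (hx : x ^ 2 = algebraMap ℚ F q)
    (φ₀ φ : F →+* ℂ) : (φ x = φ₀ x ∨ φ x = -φ₀ x) ∧ φ₀ x ≠ 0 ∧ cj φ x = -φ x := by
  have h1 : ∀ φ : F →+* ℂ, (φ x) ^ 2 = (q : ℂ) := by
    intro φ
    rw [← map_pow, hx, map_rat]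
  have h2 : (φ x - φ₀ x) * (φ x + φ₀ x) = 0 := by
    linear_combination h1 φ - h1 φ₀
  have h3 : ∀ φ : F →+* ℂ, φ x ≠ 0 := by
    intro φ h0
    have := h1 φ
    rw [h0] at this
    have h4 : (q : ℂ) = 0 := by rw [← this]; ring
    have h5 : q = 0 := by exact_mod_cast h4
    exact hq.ne h5
  refine ⟨?_, h3 φ₀, ?_⟩
  · rcases mul_eq_zero.1 h2 with h | h
    · exact Or.inl (sub_eq_zero.1 h)
    · exact Or.inr (eq_neg_of_add_eq_zero_left h)
  · rw [cj_apply]
    have h4 := h1 φ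
    have h5 : (φ x).re ^ 2 - (φ x).im ^ 2 = q := by
      have := congrArg Complex.re h4
      rw [pow_two, Complex.mul_re, Complex.ratCast_re] at this
      rw [← this]
      ring
    have h6 : (φ x).re * (φ x).im = 0 := by
      have := congrArg Complex.im h4
      rw [pow_two, Complex.mul_im, Complex.ratCast_im] at this
      linarith
    have h7 : (φ x).re = 0 := by
      rcases mul_eq_zero.1 h6 with h | h
      · exact h
      · exfalso
        rw [h] at h5
        have h8 : (q : ℝ) < 0 := by exact_mod_cast hq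
        nlinarith [sq_nonneg (φ x).re]
    apply Complex.ext
    · rw [Complex.conj_re, Complex.neg_re, h7]
      ring
    · rw [Complex.conj_im, Complex.neg_im]

/-- Double transitivity on the embeddings with a given value at `x`. -/
def DoublyTransitive (x : F) : Prop :=
  ∀ φ ψ φ' ψ' : F →+* ℂ, φ ≠ ψ → φ' ≠ ψ' → ψ x = φ x → φ' x = φ x → ψ' x = φ x →
    ∃ τ : ℂ ≃+* ℂ, (τ : ℂ →+* ℂ).comp φ = φ' ∧ (τ : ℂ →+* ℂ).comp ψ = ψ'

/-- In the doubly transitive case all functions in a small space are constant. -/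
theorem const_of_doublyTransitive {x : F} {q : ℚ} (hq : q < 0) (hx : x ^ 2 = algebraMap ℚ F q)
    (hd : DoublyTransitive x) {J : Submodule ℚ ((F →+* ℂ) → ℚ)}
    (hJ : IsSmall J) {f : (F →+* ℂ) → ℚ} (hf : f ∈ J) (φ₀ : F →+* ℂ) :
    ∃ t : ℚ, ∀ φ : F →+* ℂ, φ x = φ₀ x → f φ = t := by
  classical
  let X0 : Finset (F →+* ℂ) := Finset.univ.filter fun φ => φ x = φ₀ x
  have hX0 : ∀ φ, φ ∈ X0 ↔ φ x = φ₀ x := fun φ => by simp [X0]
  obtain ⟨φ₁, hφ₁, hmax⟩ := Finset.exists_max_image X0 f ⟨φ₀, (hX0 _).2 rfl⟩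
  obtain ⟨S, h1, hS, hmem, hinv⟩ := exists_avg hJ hf φ₁
  set b : (F →+* ℂ) → ℚ := fun ψ => ∑ σ ∈ S, f (σ ψ) with hb
  have hbφ : b φ₁ = S.card * f φ₁ := by
    rw [hb]
    change ∑ σ ∈ S, f (σ φ₁) = _
    rw [Finset.sum_congr rfl fun σ hσ => by rw [(hS σ hσ).1], Finset.sum_const, nsmul_eq_mul]
  rw [hX0] at hφ₁
  by_cases hne : ∃ ψ₁ : F →+* ℂ, ψ₁ x = φ₀ x ∧ ψ₁ ≠ φ₁
  · obtain ⟨ψ₁, hψ₁, hne⟩ := hne
    have hstab : ∀ σ ∈ S, ∀ ψ : F →+* ℂ, ψ x = φ₀ x → (σ ψ) x = φ₀ x := by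
      intro σ hσ ψ hψ
      obtain ⟨e1, τ, rfl⟩ := hS σ hσ
      change τ (ψ x) = _
      have e2 : τ (φ₁ x) = φ₁ x := congrArg (fun f : F →+* ℂ => f x) e1
      rw [hψ, ← hφ₁, e2]
    -- the values away from `φ₁`
    have hβ : ∀ ψ : F →+* ℂ, ψ x = φ₀ x → ψ ≠ φ₁ → b ψ = b ψ₁ := by
      intro ψ hψ hψ'
      obtain ⟨τ, e1, e2⟩ := hd φ₁ ψ₁ φ₁ ψ hne.symm hψ'.symm (by rw [hψ₁, hφ₁]) rfl
        (by rw [hψ, hφ₁])
      have e3 := hinv τ e1 ψ₁
      have e4 : mv τ ψ₁ = ψ := e2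
      rw [e4] at e3
      exact e3
    by_cases hαβ : b φ₁ = b ψ₁
    · -- constant
      refine ⟨f φ₁, fun ψ hψ => ?_⟩
      by_cases hψ' : ψ = φ₁
      · rw [hψ']
      · have e1 : ∑ σ ∈ S, (f φ₁ - f (σ ψ)) = 0 := by
          rw [Finset.sum_sub_distrib, Finset.sum_const, nsmul_eq_mul, ← hbφ, hαβ, ← hβ ψ hψ hψ']
          exact sub_self _
        rw [Finset.sum_eq_zero_iff_of_nonneg] at e1
        · have e2 := e1 1 h1
          rw [Equiv.Perm.one_apply] at e2
          linarith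
        · intro σ hσ
          have := hmax (σ ψ) ((hX0 _).2 (hstab σ hσ ψ hψ))
          linarith
    · -- a small relation
      exfalso
      obtain ⟨τ, e1, _⟩ := hd φ₁ ψ₁ ψ₁ φ₁ hne.symm hne (by rw [hψ₁, hφ₁]) (by rw [hψ₁, hφ₁]) rfl
      have e2 : mv τ φ₁ = ψ₁ := e1
      have hτ : τ (φ₀ x) = φ₀ x := by
        have := congrArg (fun f : F →+* ℂ => f x) e2
        change τ (φ₁ x) = ψ₁ x at this
        rwa [hφ₁, hψ₁] at this
      have hτ' : τ.symm (φ₀ x) = φ₀ x := by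
        rw [RingEquiv.symm_apply_eq, hτ]
      have hbt := hJ.stable τ.symm b hmem
      have hdiff : b - (fun φ => b (mv τ.symm φ)) =
          (b φ₁ - b ψ₁) • (eps cj φ₁ - eps cj ψ₁) := by
        have key : ∀ ψ : F →+* ℂ, ψ x = φ₀ x → b ψ - b (mv τ.symm ψ) =
            (b φ₁ - b ψ₁) * (eps cj φ₁ ψ - eps cj ψ₁ ψ) := by
          intro ψ hψ
          have hcj1 : ∀ χ : F →+* ℂ, χ x = φ₀ x → ψ ≠ cj χ := by
            intro χ hχ hcon
            have d1 := (val_dichotomy hq hx φ₀ χ).2.2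
            rw [← hcon, hψ, hχ] at d1
            have d2 := (val_dichotomy hq hx φ₀ χ).2.1
            apply d2
            linear_combination d1 / 2
          have hsym : (mv τ.symm ψ) x = φ₀ x := by
            change τ.symm (ψ x) = _
            rw [hψ, hτ']
          by_cases c1 : ψ = φ₁
          · have d1 : mv τ.symm φ₁ ≠ φ₁ := by
              intro hcon
              have := congrArg (mv τ) hcon
              rw [mv_symm, e2] at this
              exact hne this.symm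
            rw [c1, eps_self, eps_of_ne hne.symm (by rw [← c1]; exact hcj1 ψ₁ hψ₁)]
            rw [c1] at hsym
            rw [hβ _ hsym d1]
            ring
          · by_cases c2 : ψ = ψ₁
            · have d1 : mv τ.symm ψ₁ = φ₁ := by rw [← e2, symm_mv]
              rw [c2, eps_self, eps_of_ne hne (by rw [← c2]; exact hcj1 φ₁ hφ₁), d1]
              ring
            · have d1 : mv τ.symm ψ ≠ φ₁ := by
                intro hcon
                have := congrArg (mv τ) hcon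
                rw [mv_symm, e2] at this
                exact c2 this
              rw [eps_of_ne c1 (hcj1 φ₁ hφ₁), eps_of_ne c2 (hcj1 ψ₁ hψ₁), hβ _ hψ c1,
                hβ _ hsym d1]
              ring
        funext ψ
        rw [Pi.sub_apply, Pi.smul_apply, Pi.sub_apply, smul_eq_mul]
        rcases (val_dichotomy hq hx φ₀ ψ).1 with hψ | hψ
        · exact key ψ hψ
        · have d1 := key (cj ψ) (by rw [(val_dichotomy hq hx φ₀ ψ).2.2, hψ, neg_neg])
          rw [mv_cj, hJ.odd b hmem, hJ.odd b hmem, eps_odd, eps_odd] at d1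
          linarith
      apply hJ.small φ₁ ψ₁ hne.symm
      rw [← Submodule.smul_mem_iff J (sub_ne_zero.2 hαβ), ← hdiff]
      exact J.sub_mem hmem hbt
  · push Not at hne
    exact ⟨f φ₁, fun φ hφ => by rw [hne φ hφ]⟩

/-- The doubly transitive case. -/
theorem sum_eq_zero_of_doublyTransitive {x : F} {q : ℚ} (hq : q < 0)
    (hx : x ^ 2 = algebraMap ℚ F q) (hd : DoublyTransitive x) {Φ : (F →+* ℂ) → Prop}
    (hΦ : ∀ φ, Φ (cj φ) ↔ ¬Φ φ) (hb : BalancedAt Φ x) {J : Submodule ℚ ((F →+* ℂ) → ℚ)}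
    (hJ : IsSmall J) {f : (F →+* ℂ) → ℚ} (hf : f ∈ J) {s : Finset (F →+* ℂ)}
    (hs : ∀ φ, φ ∈ s ↔ Φ φ) : ∑ φ ∈ s, f φ = 0 := by
  classical
  obtain ⟨φ₀⟩ : Nonempty (F →+* ℂ) := inferInstance
  obtain ⟨t, ht⟩ := const_of_doublyTransitive hq hx hd hJ hf φ₀
  let h : (F →+* ℂ) → ℚ := fun φ => if φ x = φ₀ x then 1 else -1
  have h1 : ∀ φ : F →+* ℂ, φ x = φ₀ x → h φ = 1 := fun φ hφ => if_pos hφ
  have h2 : ∀ φ : F →+* ℂ, φ x ≠ φ₀ x → h φ = -1 := fun φ hφ => if_neg hφ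
  have h3 : ∀ φ : F →+* ℂ, cj φ x = φ₀ x ↔ φ x ≠ φ₀ x := by
    intro φ
    obtain ⟨d1, d2, d3⟩ := val_dichotomy hq hx φ₀ φ
    rw [d3]
    rcases d1 with d | d
    · rw [d]
      constructor
      · intro h0
        exfalso
        apply d2
        linear_combination (-1 / 2) * h0
      · intro h0
        exact absurd rfl h0
    · rw [d, neg_neg]
      constructor
      · intro _ h0
        apply d2
        linear_combination (-1 / 2) * h0
      · intro _
        rfl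
  have h4 : ∀ φ, f φ = t * h φ := by
    intro φ
    by_cases hφ : φ x = φ₀ x
    · rw [h1 φ hφ, ht φ hφ, mul_one]
    · have := ht (cj φ) ((h3 φ).2 hφ)
      rw [hJ.odd f hf] at this
      rw [h2 φ hφ]
      linarith
  rw [Finset.sum_congr rfl fun φ _ => h4 φ, ← Finset.mul_sum, sum_balanced hΦ hb h1 h2 h3 hs,
    mul_zero]

end CMField

end Pool.Agent.T9h38.CM
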